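import Pool.Agent.Lib.MP_f02ea4_nt.QR.PDef

/-! # Siegel's lemma: adapt `Ml.siegel` (file MlB) -/

set_option autoImplicit false

namespace Pool.Agent.MP_f02ea4.QR

open Finset Real

variable {ι : Type} {d : ℕ}

lemma PD.mon_le_siegel (P : PD ι d) (Z : ℝ) (hZ1 : 1 ≤ Z) (l : ι)
    (hZ : ∀ j, |(P.z l j : ℝ)| ≤ Z) (K : ℕ) (k : Fin d → ℕ) (hk : ∀ i, k i ≤ K) :
    |(P.mon k l : ℝ)| ≤ Z ^ (d * K) := by
  unfold PD.mon
  push_cast
  rw [Finset.abs_prod]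
  calc ∏ j, |(P.z l j : ℝ) ^ k j| ≤ ∏ _j : Fin d, Z ^ K := by
        apply Finset.prod_le_prod (fun j _ => abs_nonneg _)
        intro j _
        rw [abs_pow]
        exact (pow_le_pow_left₀ (abs_nonneg _) (hZ j) _).trans (pow_le_pow_right₀ hZ1 (hk j))
    _ = Z ^ (d * K) := by
        rw [Finset.prod_const, Finset.card_univ, Fintype.card_fin, ← pow_mul, mul_comm]

theorem PD.siegel [Fintype ι] (P : PD ι d) (Z Th Om del : ℝ) (hP : P.Bd Z Th Om del) (K S : ℕ)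
    (hK : 1 ≤ K) (hS : 1 ≤ S) (hN : 2 * (K ^ d * S) ≤ Fintype.card ι) :
    ∃ c : ι → ℤ, c ≠ 0 ∧
      (∀ s < S, ∀ k : Fin d → ℕ, (∀ i, k i < K) → P.Phi c k s = 0) ∧
      ∀ l, |(c l : ℝ)| ≤ Fintype.card ι * (Z ^ (d * K) * exp (S * Om)) := by
  classical
  have hm0 : 0 < K ^ d * S := Nat.mul_pos (Nat.pow_pos hK) hS
  have hcα : Fintype.card ((Fin d → Fin K) × Fin S) = K ^ d * S := by
    rw [Fintype.card_prod, Fintype.card_fun, Fintype.card_fin, Fintype.card_fin, Fintype.card_fin]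
  have hZ1 := hP.Z1
  have hOm : 0 ≤ Om := zero_le_one.trans hP.Om1
  set M : ℝ := Z ^ (d * K) * exp (S * Om) with hM
  have hZp : 1 ≤ Z ^ (d * K) := one_le_pow₀ hZ1
  have hep : 1 ≤ exp (S * Om) := Real.one_le_exp (by positivity)
  have hM1 : 1 ≤ M := by
    rw [hM]
    nlinarith
  have hM0 : 0 ≤ M := zero_le_one.trans hM1
  let A : Matrix ((Fin d → Fin K) × Fin S) ι ℤ :=
    fun p l => P.mon (fun i => (p.1 i : ℕ)) l * (P.a l : ℤ) ^ (p.2 : ℕ)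
  let iN : SeminormedAddCommGroup (Matrix ((Fin d → Fin K) × Fin S) ι ℤ) :=
    Matrix.seminormedAddCommGroup
  have hA : ‖A‖ ≤ M := (Matrix.norm_le_iff (A := A) hM0).2 (fun p l => by
    rw [Int.norm_eq_abs]
    have h1 : |(P.mon (fun i => (p.1 i : ℕ)) l : ℝ)| ≤ Z ^ (d * K) :=
      P.mon_le_siegel Z hZ1 l (hP.z_le l) K _ fun i => (p.1 i).2.le
    have h2 : ((P.a l : ℝ)) ^ (p.2 : ℕ) ≤ exp (S * Om) := by
      have h3 : (0 : ℝ) < P.a l := by exact_mod_cast hP.a_pos l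
      rw [← Real.exp_log (pow_pos h3 (p.2 : ℕ)), Real.log_pow]
      apply Real.exp_le_exp.2
      have h4 : ((p.2 : ℕ) : ℝ) ≤ S := by exact_mod_cast p.2.2.le
      calc ((p.2 : ℕ) : ℝ) * log (P.a l) ≤ ((p.2 : ℕ) : ℝ) * Om :=
            mul_le_mul_of_nonneg_left (hP.a_le l) (Nat.cast_nonneg _)
        _ ≤ S * Om := mul_le_mul_of_nonneg_right h4 hOm
    have h3 : ((A p l : ℤ) : ℝ) = (P.mon (fun i => (p.1 i : ℕ)) l : ℝ) * (P.a l : ℝ) ^ (p.2 : ℕ) := by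
      change (((P.mon (fun i => (p.1 i : ℕ)) l * (P.a l : ℤ) ^ (p.2 : ℕ) : ℤ)) : ℝ) = _
      push_cast
      rfl
    have h5 : (0 : ℝ) ≤ (P.a l : ℝ) ^ (p.2 : ℕ) := pow_nonneg (Nat.cast_nonneg _) _
    rw [h3, abs_mul, abs_of_nonneg h5]
    exact mul_le_mul h1 h2 h5 (zero_le_one.trans hZp))
  obtain ⟨c, hc0, hc1, hc2⟩ := Int.Matrix.exists_ne_zero_int_vec_norm_le A
    (by rw [hcα]; omega) (by rw [hcα]; exact hm0)
  rw [hcα] at hc2
  refine ⟨c, hc0, ?_, ?_⟩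
  · intro s hs k hk
    have h1 := congrFun hc1 (fun i => ⟨k i, hk i⟩, ⟨s, hs⟩)
    rw [Pi.zero_apply] at h1
    rw [← h1]
    unfold PD.Phi Matrix.mulVec dotProduct
    refine Finset.sum_congr rfl fun l _ => ?_
    change c l * P.mon k l * (P.a l : ℤ) ^ s = (P.mon k l * (P.a l : ℤ) ^ s) * c l
    ring
  · intro l
    have hn1 : (1 : ℝ) ≤ (Fintype.card ι : ℝ) := by
      exact_mod_cast (by omega : 1 ≤ Fintype.card ι)
    have hmn : ((K ^ d * S : ℕ) : ℝ) * 2 ≤ (Fintype.card ι : ℝ) := by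
      have : K ^ d * S * 2 ≤ Fintype.card ι := by omega
      exact_mod_cast this
    have hm1 : (1 : ℝ) ≤ ((K ^ d * S : ℕ) : ℝ) := by exact_mod_cast hm0
    have h1 : |(c l : ℝ)| ≤ ‖c‖ := by
      rw [← Int.norm_eq_abs]
      exact norm_le_pi_norm c l
    refine h1.trans (hc2.trans ?_)
    have hbase : (1 : ℝ) ≤ (Fintype.card ι : ℝ) * max 1 ‖A‖ := by
      have h2 : (1 : ℝ) ≤ max 1 ‖A‖ := le_max_left _ _
      nlinarith
    have hexp : ((K ^ d * S : ℕ) : ℝ) / ((Fintype.card ι : ℝ) - ((K ^ d * S : ℕ) : ℝ)) ≤ 1 := by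
      rw [div_le_one (by linarith)]
      linarith
    refine (Real.rpow_le_rpow_of_exponent_le hbase hexp).trans ?_
    rw [Real.rpow_one]
    apply mul_le_mul_of_nonneg_left _ (Nat.cast_nonneg _)
    exact max_le hM1 hA

end Pool.Agent.MP_f02ea4.QR
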