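import Pool.Agent.Lib.MP_f02ea4_nt.QR.Step
import Pool.Agent.Lib.MP_f02ea4_nt.QR.Siegel

/-! # The dual argument: a non zero function which vanishes at all points -/

set_option autoImplicit false

namespace Pool.Agent.MP_f02ea4.QR

open Finset Real

variable {ι : Type} {d : ℕ}

/-- If every family of `R` of the vectors is linearly dependent and there are at least `R` coordinates,
some non zero linear form vanishes at all of them. -/
lemma exists_form {κ : Type} [Fintype κ] (v : ι → κ → ℚ) (R : ℕ) (hR : R ≤ Fintype.card κ)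
    (h : ∀ s : Finset ι, s.card = R → ∃ c : ι → ℚ, (∃ l ∈ s, c l ≠ 0) ∧
      ∀ k, ∑ l ∈ s, c l * v l k = 0) :
    ∃ g : κ → ℚ, g ≠ 0 ∧ ∀ l, ∑ k, g k * v l k = 0 := by
  classical
  by_cases htop : Submodule.span ℚ (Set.range v) = ⊤
  · exfalso
    obtain ⟨κ', a, ha, hspan, hli⟩ := exists_linearIndependent' ℚ v
    have hfin : Finite κ' := hli.finite
    have hft : Fintype κ' := Fintype.ofFinite κ'
    have hcard : Fintype.card κ ≤ Fintype.card κ' := by
      have h1 := finrank_span_eq_card hli
      rw [hspan, htop, finrank_top, Module.finrank_fintype_fun_eq_card] at h1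
      exact h1.le
    obtain ⟨t, -, ht⟩ := Finset.exists_subset_card_eq
      (show R ≤ (Finset.univ : Finset κ').card by rw [Finset.card_univ]; omega)
    obtain ⟨c, ⟨l, hl, hcl⟩, hc⟩ := h (t.image a) (by rw [Finset.card_image_of_injective _ ha, ht])
    obtain ⟨j, hj, rfl⟩ := Finset.mem_image.1 hl
    apply hcl
    have h2 := linearIndependent_iff'.1 hli t (fun i => c (a i)) (by
      funext k
      have h3 := hc k
      rw [Finset.sum_image (fun x _ y _ hxy => ha hxy)] at h3
      simpa [Finset.sum_apply] using h3) j hj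
    exact h2
  · obtain ⟨f, hf, hfs⟩ := Submodule.exists_le_ker_of_lt_top _ (lt_top_iff_ne_top.2 htop)
    have hfx : ∀ x : κ → ℚ, ∑ k, f (Pi.single k 1) * x k = f x := by
      intro x
      conv_rhs => rw [LinearMap.pi_apply_eq_sum_univ f x]
      apply Finset.sum_congr rfl
      intro k _
      rw [smul_eq_mul, mul_comm]
      congr 1
      congr 1
      funext i
      simp [Pi.single_apply, eq_comm]
    refine ⟨fun k => f (Pi.single k 1), ?_, ?_⟩
    · intro h0
      apply hf
      ext x
      simpa using congrFun h0 x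
    · intro l
      rw [hfx]
      exact hfs (Submodule.subset_span ⟨l, rfl⟩)

/-- restriction of the data to a finite set of points -/
def PD.restr (P : PD ι d) (s : Finset ι) : PD {l // l ∈ s} d where
  z l := P.z l
  a l := P.a l
  D := P.D
  th := P.th

lemma PD.Bd.restr {P : PD ι d} {Z Th Om del : ℝ} (hP : P.Bd Z Th Om del) (s : Finset ι) :
    (P.restr s).Bd Z Th Om del where
  Z1 := hP.Z1
  Th0 := hP.Th0
  Om1 := hP.Om1
  del0 := hP.del0
  z_le l j := hP.z_le l j
  th_le j := hP.th_le j
  a_pos l := hP.a_pos l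
  D_pos := hP.D_pos
  a_le l := hP.a_le l
  D_le := hP.D_le
  w_le l := hP.w_le l
  close l := hP.close l

/-- The points `l : ι` (finitely many or not) with the data `P`: a non zero combination of the functions
`z ^ k (a / D) ^ s`, `k_i < K'`, `s < S'`, vanishes at all of them. Proof: Siegel's lemma on every subset of
`2 K ^ d S` points, `PD.step`, `exists_form`. -/
theorem PD.exists_G (P : PD ι d) (Z Th Om del : ℝ) (hP : P.Bd Z Th Om del) (K K' m S S' R : ℕ)
    (hR : R = 2 * (K ^ d * S)) (hK : K' + m ≤ K) (hm : 1 ≤ m) (hS : 1 ≤ S) (hSS : S ≤ S')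
    (hmS : 81 * (S' * Om) ≤ m * S)
    (hC : R * (R * (Z ^ (d * K) * exp (S * Om))) * Z ^ (d * K) ≤ exp (m * S))
    (hdel : S' * del ≤ 1)
    (hL : (4 * S' * (m + 1) : ℝ) ^ (m * S) * (d * Th + 1) ^ m *
      (R * (R * (Z ^ (d * K) * exp (S * Om))) * Z ^ (d * K)) * exp (2 * S' * Om) *
        (2 * S' * del) ≤ 1 / 4)
    (hrows : R ≤ S' * K' ^ d) :
    ∃ G : ℕ → MvPolynomial (Fin d) ℚ, (∃ σ < S', G σ ≠ 0) ∧
      (∀ σ, (G σ).totalDegree ≤ d * K') ∧
      ∀ l, ∑ σ ∈ range S', MvPolynomial.eval (fun j => (P.z l j : ℚ)) (G σ) *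
        ((P.a l : ℚ) / P.D) ^ σ = 0 := by
  classical
  have hD0 : (P.D : ℚ) ≠ 0 := by
    have := hP.D_pos
    positivity
  set v : ι → ((Fin d → Fin K') × Fin S') → ℚ := fun l k =>
    (∏ j, (P.z l j : ℚ) ^ (k.1 j : ℕ)) * ((P.a l : ℚ) / P.D) ^ (k.2 : ℕ) with hv
  obtain ⟨g, hg, hgv⟩ := exists_form v R (by
    rw [Fintype.card_prod, Fintype.card_fin, Fintype.card_fun, Fintype.card_fin, Fintype.card_fin,
      mul_comm]
    exact hrows) (by
    intro s hs
    have hcard : Fintype.card {l // l ∈ s} = R := by rw [Fintype.card_coe, hs]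
    obtain ⟨c, hc0, hc, hcb⟩ := (P.restr s).siegel Z Th Om del (hP.restr s) K S (by omega) hS
      (by rw [hcard, hR])
    have h1 := (P.restr s).step Z Th Om del (hP.restr s) _ c hcb K K' m S S' hK hm hS hSS hmS
      (by rw [hcard]; exact hC) hdel (by rw [hcard]; exact hL) hc
    refine ⟨fun l => if hl : l ∈ s then (c ⟨l, hl⟩ : ℚ) else 0, ?_, ?_⟩
    · obtain ⟨l, hl⟩ := Function.ne_iff.1 hc0
      refine ⟨l, l.2, ?_⟩
      beta_reduce
      rw [dif_pos l.2]
      simpa using hl
    · intro k
      have h2 := h1 k.2 k.2.2 (fun i => k.1 i) (fun i => (k.1 i).2)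
      have h3 : ∑ l ∈ s, (if hl : l ∈ s then (c ⟨l, hl⟩ : ℚ) else 0) * v l k
          = ((P.restr s).Phi c (fun i => k.1 i) k.2 : ℚ) / P.D ^ (k.2 : ℕ) := by
        rw [← Finset.sum_coe_sort s, PD.Phi, Int.cast_sum, Finset.sum_div]
        apply Finset.sum_congr rfl
        intro l _
        rw [dif_pos l.2, hv]
        simp only [PD.mon, PD.restr, div_pow]
        push_cast
        ring
      rw [h3, h2]
      simp)
  refine ⟨fun σ => if hσ : σ < S' then
    ∑ k : Fin d → Fin K', MvPolynomial.monomial (Finsupp.equivFunOnFinite.symm fun i => (k i : ℕ))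
      (g (k, ⟨σ, hσ⟩)) else 0, ?_, ?_, ?_⟩
  · obtain ⟨⟨k, σ⟩, hk⟩ := Function.ne_iff.1 hg
    refine ⟨σ, σ.2, ?_⟩
    beta_reduce
    rw [dif_pos σ.2]
    intro h0
    apply hk
    have h4 := congrArg (MvPolynomial.coeff (Finsupp.equivFunOnFinite.symm fun i => (k i : ℕ))) h0
    rw [MvPolynomial.coeff_sum, MvPolynomial.coeff_zero] at h4
    rw [Finset.sum_eq_single k] at h4
    · rw [MvPolynomial.coeff_monomial, if_pos rfl] at h4
      exact h4
    · intro k' _ hk'
      rw [MvPolynomial.coeff_monomial, if_neg]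
      intro h5
      apply hk'
      funext i
      have := congrFun (congrArg (fun f : Fin d →₀ ℕ => (f : Fin d → ℕ)) h5) i
      simp only [Finsupp.equivFunOnFinite_symm_apply_apply] at this
      exact Fin.ext this
    · intro h5
      exact absurd (Finset.mem_univ k) h5
  · intro σ
    beta_reduce
    split_ifs with hσ
    · apply MvPolynomial.totalDegree_finsetSum_le
      intro k _
      refine (MvPolynomial.totalDegree_monomial_le _ _).trans ?_
      rw [Finsupp.sum_fintype _ _ (by simp)]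
      simp only [Finsupp.equivFunOnFinite_symm_apply_apply]
      calc ∑ i, (k i : ℕ) ≤ ∑ _i : Fin d, K' := Finset.sum_le_sum fun i _ => (k i).2.le
        _ = d * K' := by simp
    · simp
  · intro l
    have h6 := hgv l
    rw [Fintype.sum_prod_type_right] at h6
    rw [← Fin.sum_univ_eq_sum_range (fun σ => MvPolynomial.eval (fun j => (P.z l j : ℚ))
      (if hσ : σ < S' then ∑ k : Fin d → Fin K',
        MvPolynomial.monomial (Finsupp.equivFunOnFinite.symm fun i => (k i : ℕ))
          (g (k, ⟨σ, hσ⟩)) else 0) * ((P.a l : ℚ) / P.D) ^ σ) S', ← h6]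
    apply Finset.sum_congr rfl
    intro σ _
    rw [dif_pos σ.2, map_sum, Finset.sum_mul]
    apply Finset.sum_congr rfl
    intro k _
    rw [MvPolynomial.eval_monomial, Finsupp.prod_fintype _ _ (by simp), hv]
    simp only [Finsupp.equivFunOnFinite_symm_apply_apply]
    ring

end Pool.Agent.MP_f02ea4.QR
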