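import Pool.Agent.Lib.MP_f02ea4_nt.Mg.G009

/-! # The zero estimate for the image of a finite set under a homomorphism -/

set_option autoImplicit false

namespace Pool.Agent.MP_f02ea4.QR

open MvPolynomial Module
open scoped Pointwise

open Classical in
theorem zero_estimate_hom {d : ℕ} {M : Type*} [AddCommGroup M] [DecidableEq M]
    (z : M →+ (Fin d → ℚ)) (E1 : Finset M) (h0 : (0 : M) ∈ E1) {T : ℕ} (hT : 0 < T)
    (hE : ∀ V' : Submodule ℚ (Fin d → ℚ), V' ≠ ⊤ →
      T ^ (d - finrank ℚ V') < (E1.image (fun m => V'.mkQ (z m))).card)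
    (f : MvPolynomial (Fin d) ℚ) (hf : f ≠ 0) (hfT : f.totalDegree ≤ T) :
    ∃ m ∈ (d + 1) • E1, eval (z m) f ≠ 0 := by
  have h1 : ∀ j : ℕ, j • (E1.image z) = (j • E1).image z := by
    intro j
    induction j with
    | zero =>
      rw [zero_nsmul, zero_nsmul, Finset.image_zero, map_zero]
      rfl
    | succ j ih => rw [succ_nsmul, succ_nsmul, ih, Finset.image_add]
  obtain ⟨x, hx, hx'⟩ := zero_estimate (E1.image z)
    (Finset.mem_image.2 ⟨0, h0, map_zero z⟩) hT (by
      intro V hV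
      refine (hE V hV).trans_le (le_of_eq ?_)
      rw [← Set.ncard_coe_finset]
      congr 1
      ext y
      simp only [Finset.coe_image, Set.mem_image, Finset.mem_coe]
      constructor
      · rintro ⟨m, hm, rfl⟩
        exact ⟨z m, ⟨m, hm, rfl⟩, rfl⟩
      · rintro ⟨_, ⟨m, hm, rfl⟩, rfl⟩
        exact ⟨m, hm, rfl⟩) hf hfT
  rw [h1] at hx
  obtain ⟨m, hm, rfl⟩ := Finset.mem_image.1 hx
  exact ⟨m, hm, hx'⟩

end Pool.Agent.MP_f02ea4.QR
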