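import Pool.Agent.Lib.MP_f02ea4_nt.Mg.G009
import Pool.Agent.Lib.MP_f02ea4_nt.QR.Rank
import Pool.Agent.Lib.MP_f02ea4_nt.QR.ZE9

/-! # The core theorem: the assembly -/

set_option autoImplicit false
set_option linter.unusedSectionVars false

namespace Pool.Agent.MP_f02ea4.QR

open Finset Real Module
open scoped Pointwise

variable {H B : Type} [Fintype H] [Fintype B] [DecidableEq H] [DecidableEq B]

lemma CD.Sm.mono {D : CD H B} {x y x' y' : ℕ} {m : Lat H B} (h : D.Sm x y m) (hx : x ≤ x')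
    (hy : y ≤ y') : D.Sm x' y' m := by
  obtain ⟨h1, h2, h3⟩ := h
  exact ⟨fun i hi => (h1 i hi).trans (by exact_mod_cast hx), h2,
    fun q => (h3 q).trans (by exact_mod_cast hy)⟩

lemma CD.ht_nonneg (D : CD H B) (x y : ℕ) : 0 ≤ D.ht x y := by
  unfold CD.ht
  have h1 : 0 ≤ ∑ h ∈ D.U, log (D.r h) := Finset.sum_nonneg fun h _ => log_natCast_nonneg _
  have h2 : 0 ≤ ∑ q, log (D.u q) := Finset.sum_nonneg fun q _ => log_natCast_nonneg _
  positivity

lemma mem_V_of_mem_nsmul {M Q : Type*} [AddCommGroup M] [DecidableEq M] [AddCommGroup Q] [Module ℚ Q]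
    (z : M →+ Q) (V : Submodule ℚ Q) (E : Finset M) (hE : ∀ m ∈ E, z m ∈ V) (n : ℕ) :
    ∀ m ∈ n • E, z m ∈ V := by
  induction n with
  | zero =>
    intro m hm
    rw [zero_nsmul, Finset.mem_zero] at hm
    rw [hm, map_zero]
    exact V.zero_mem
  | succ n ih =>
    intro m hm
    rw [succ_nsmul, Finset.mem_add] at hm
    obtain ⟨a, ha, b, hb, rfl⟩ := hm
    rw [map_add]
    exact V.add_mem (ih a ha) (hE b hb)

/-- bound for the coordinates -/
lemma CD.zi_le (D : CD H B) (x y : ℕ) (m : Lat H B) (hm : D.Sm x y m) (Fm : ℝ)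
    (hF : ∀ q h, |(D.F q h : ℝ)| ≤ Fm) (h : H) :
    |(D.zi m h : ℝ)| ≤ x + Fintype.card B * y * Fm := by
  unfold CD.zi
  push_cast
  refine (abs_add_le _ _).trans (add_le_add ?_ ?_)
  · by_cases hh : h ∈ D.U
    · have := hm.1 h hh
      exact_mod_cast this
    · rw [hm.2.1 h hh]
      simp
  · refine (Finset.abs_sum_le_sum_abs _ _).trans ?_
    have h1 : ∀ q ∈ (Finset.univ : Finset B), |(m.2 q : ℝ) * (D.F q h : ℝ)| ≤ y * Fm := by
      intro q _
      rw [abs_mul]
      have h2 : |(m.2 q : ℝ)| ≤ y := by exact_mod_cast hm.2.2 q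
      exact mul_le_mul h2 (hF q h) (abs_nonneg _) (Nat.cast_nonneg _)
    refine (Finset.sum_le_sum h1).trans ?_
    rw [Finset.sum_const, Finset.card_univ, nsmul_eq_mul, mul_assoc]

theorem CD.core (D : CD H B) (hD : D.OK) (eps : ℝ) (heps : ∀ q, |D.Lam q| ≤ eps)
    (Fm : ℝ) (hF : ∀ q h, |(D.F q h : ℝ)| ≤ Fm)
    (n x y T0 K K' m S S' N1 x1 y1 : ℕ) (Z Th Om del : ℝ)
    (hn : Fintype.card H = n) (hx : 1 ≤ x) (hy : 1 ≤ y)
    (hinj : 2 * (y * Fintype.card B * eps) < exp (-(2 * D.ht x y)))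
    (hcard : T0 ^ n < x ^ D.U.card * y ^ Fintype.card B)
    (hyT : 2 * y ≤ T0) (hT1 : S' * (n * K') < T0)
    (hN1 : n + 1 + S' ≤ N1) (hx1 : N1 * x ≤ x1) (hy1 : N1 * y ≤ y1)
    (hOm : 2 * D.ht x1 y1 + 1 ≤ Om)
    (hZ : x1 + Fintype.card B * y1 * Fm ≤ Z) (hZ1 : 1 ≤ Z)
    (hTh : ∑ h, log (D.r h) ≤ Th)
    (hdel0 : Fintype.card B * y1 * eps ≤ del)
    (hK' : 1 ≤ K') (hK : K' + m ≤ K) (hm : 1 ≤ m) (hS : 1 ≤ S) (hSS : S ≤ S')
    (hmS : 81 * (S' * Om) ≤ m * S)
    (hC : (2 * (K ^ n * S) : ℝ) * (2 * (K ^ n * S) * (Z ^ (n * K) * exp (S * Om))) * Z ^ (n * K) ≤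
      exp (m * S))
    (hdel : S' * del ≤ 1)
    (hL : (4 * S' * (m + 1) : ℝ) ^ (m * S) * (n * Th + 1) ^ m *
      ((2 * (K ^ n * S) : ℝ) * (2 * (K ^ n * S) * (Z ^ (n * K) * exp (S * Om))) * Z ^ (n * K)) *
        exp (2 * S' * Om) * (2 * S' * del) ≤ 1 / 4)
    (hrows : 2 * (K ^ n * S) ≤ S' * K' ^ n) : False := by
  classical
  have hS'1 : 1 ≤ S' := hS.trans hSS
  have heps0 : 0 ≤ eps ∨ IsEmpty B := by
    by_cases hB : Nonempty B
    · obtain ⟨q⟩ := hB
      exact Or.inl ((abs_nonneg _).trans (heps q))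
    · exact Or.inr (not_nonempty_iff.1 hB)
  have hT0pos : 0 < T0 := by omega
  -- the maximal subspace
  obtain ⟨d, V, J, A, hd1, hdn, hJ, hA, hVd, hAV, hE⟩ := exists_max_coord D.z (D.box x y)
    (D.injOn_box hD x y eps heps hinj) (T0 : ℝ) (by exact_mod_cast hT0pos) (by
      rw [D.card_box, hn]
      exact_mod_cast hcard)
  rw [hn] at hdn
  set E1 := (D.box x y - D.box x y).filter (fun m => D.z m ∈ V) with hE1
  have hboxne : (D.box x y).Nonempty := by
    rw [← Finset.card_pos, D.card_box]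
    positivity
  have h0E1 : (0 : Lat H B) ∈ E1 := by
    rw [hE1, mem_filter]
    obtain ⟨b, hb⟩ := hboxne
    refine ⟨?_, ?_⟩
    · have := Finset.sub_mem_sub hb hb
      rwa [sub_self] at this
    · rw [map_zero]
      exact V.zero_mem
  have hE1V : ∀ m ∈ E1, D.z m ∈ V := fun m hm => (mem_filter.1 hm).2
  -- a point where `xi ≠ 1`
  obtain ⟨l0, hl0, hl01⟩ := D.exists_xi_ne_one hD x y hy V E1
    (fun m hm => by rw [hE1, mem_filter] at hm; exact hm) T0 hyT (by
      rintro rfl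
      rw [finrank_bot] at hVd
      omega) (by
      rw [hVd]
      have h1 := hE ⊥ (by
        intro h
        have h2 := congrArg (fun W : Submodule ℚ (Fin d → ℚ) => finrank ℚ W) h
        simp only [finrank_bot, finrank_top, Module.finrank_fintype_fun_eq_card,
          Fintype.card_fin] at h2
        omega)
      rw [finrank_bot, Nat.sub_zero] at h1
      refine h1.trans ?_
      have h3 := card_image_le_of_imp E1
        (fun m => (⊥ : Submodule ℚ (Fin d → ℚ)).mkQ (fun j => D.z m (J j))) D.z (by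
          intro a _ b _ hab
          simp only [hab])
      exact_mod_cast h3)
  -- the points
  set N' := d + 1 + S' with hN'
  have hN'N : N' ≤ N1 := by omega
  have hpts : ∀ l ∈ N' • E1, D.Sm x1 y1 l := by
    intro l hl
    have h1 := CD.Sm.nsmul (D := D) (x := x - 1) (y := y - 1) E1 (fun m hm => D.sm_of_mem_sub x y m
      (mem_filter.1 hm).1) N' l hl
    refine h1.mono ?_ ?_
    · exact (Nat.mul_le_mul hN'N (Nat.sub_le _ _)).trans hx1
    · exact (Nat.mul_le_mul hN'N (Nat.sub_le _ _)).trans hy1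
  have hptsV : ∀ l ∈ N' • E1, D.z l ∈ V := mem_V_of_mem_nsmul D.z V E1 hE1V N'
  set den : ℕ := (∏ h ∈ D.U, D.r h ^ x1) * ∏ q, D.u q ^ y1 with hden
  obtain ⟨hdenpos, hdenlog⟩ := D.log_den hD x1 y1
  rw [← hden] at hdenpos hdenlog
  have hht := D.ht_nonneg x1 y1
  let ι := {l : Lat H B // l ∈ N' • E1}
  have hnum : ∀ l : ι, ∃ a : ℕ, 0 < a ∧ (D.xi l.1 : ℚ) = (a : ℚ) / (den : ℕ) ∧
      log (a : ℝ) ≤ 2 * D.ht x1 y1 := fun l => D.exists_num hD x1 y1 l.1 (hpts l.1 l.2)
  choose a ha0 hax hal using hnum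
  let P : PD ι d :=
    { z := fun l j => D.zi l.1 (J j)
      a := a
      D := den
      th := fun j => ∑ h, (A h j : ℝ) * log (D.r h) }
  have hw : ∀ l : ι, P.w l = ∑ h, (D.zi l.1 h : ℝ) * log (D.r h) := by
    intro l
    have h1 : ∀ h, (D.zi l.1 h : ℝ) = ∑ j, (A h j : ℝ) * (D.zi l.1 (J j) : ℝ) := by
      intro h
      have h2 := hAV _ (hptsV l.1 l.2) h
      simp only [CD.z_apply] at h2
      have h3 : ((D.zi l.1 h : ℚ) : ℝ) = ((∑ j, A h j * (D.zi l.1 (J j) : ℚ) : ℚ) : ℝ) := by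
        rw [h2]
      push_cast at h3
      exact h3
    unfold PD.w
    simp only [P]
    simp only [Finset.sum_mul]
    rw [Finset.sum_comm]
    refine Finset.sum_congr rfl fun h _ => ?_
    rw [h1 h, Finset.sum_mul]
    refine Finset.sum_congr rfl fun j _ => ?_
    ring
  have hxilog : ∀ l : ι, log (D.xi l.1 : ℝ) = log (a l) - log den := by
    intro l
    have h1 : ((D.xi l.1 : ℚ) : ℝ) = (a l : ℝ) / (den : ℝ) := by
      rw [hax l]
      push_cast
      rfl
    rw [h1, log_div]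
    · exact_mod_cast (ha0 l).ne'
    · exact_mod_cast hdenpos.ne'
  have hclose : ∀ l : ι, |log (a l) - log den - P.w l| ≤ Fintype.card B * y1 * eps := by
    intro l
    rw [← hxilog, D.log_xi hD, hw]
    have h1 : ∑ h, (D.zi l.1 h : ℝ) * log (D.r h) - ∑ q, (l.1.2 q : ℝ) * D.Lam q -
        ∑ h, (D.zi l.1 h : ℝ) * log (D.r h) = -∑ q, (l.1.2 q : ℝ) * D.Lam q := by ring
    rw [h1, abs_neg]
    refine (Finset.abs_sum_le_sum_abs _ _).trans ?_
    have h2 : ∀ q ∈ (Finset.univ : Finset B), |(l.1.2 q : ℝ) * D.Lam q| ≤ y1 * eps := by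
      intro q _
      rw [abs_mul]
      have h3 : |(l.1.2 q : ℝ)| ≤ y1 := by exact_mod_cast (hpts l.1 l.2).2.2 q
      exact mul_le_mul h3 (heps q) (abs_nonneg _) (Nat.cast_nonneg _)
    refine (Finset.sum_le_sum h2).trans ?_
    rw [Finset.sum_const, Finset.card_univ, nsmul_eq_mul, mul_assoc]
  have hce0 : 0 ≤ Fintype.card B * y1 * eps := by
    rcases heps0 with h | h
    · positivity
    · rw [Fintype.card_eq_zero]
      simp
  have hdelnn : 0 ≤ del := hce0.trans hdel0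
  have hS'R : (1 : ℝ) ≤ S' := by exact_mod_cast hS'1
  have hdel1 : del ≤ 1 := by
    refine le_trans ?_ hdel
    nlinarith
  have hThnn : 0 ≤ Th := le_trans (Finset.sum_nonneg fun h _ => log_natCast_nonneg _) hTh
  have hP : P.Bd Z Th Om del := by
    refine ⟨hZ1, hThnn, by linarith, hdelnn, ?_, ?_, ha0, hdenpos, ?_, ?_, ?_, ?_⟩
    · intro l j
      exact (D.zi_le x1 y1 l.1 (hpts l.1 l.2) Fm hF (J j)).trans hZ
    · intro j
      simp only [P]
      refine (Finset.abs_sum_le_sum_abs _ _).trans (le_trans ?_ hTh)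
      refine Finset.sum_le_sum fun h _ => ?_
      rw [abs_mul, abs_of_nonneg (log_natCast_nonneg (D.r h))]
      have h1 : |(A h j : ℝ)| ≤ 1 := by
        have := hA h j
        exact_mod_cast this
      nlinarith [log_natCast_nonneg (D.r h)]
    · intro l
      exact (hal l).trans (by linarith)
    · simp only [P]
      rw [hdenlog]
      linarith
    · intro l
      have h1 := abs_le.1 (hclose l)
      have h2 := hal l
      have h3 : (0 : ℝ) ≤ log (a l) := log_natCast_nonneg _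
      rw [hdenlog] at h1
      rw [abs_le]
      constructor <;> linarith [h1.1, h1.2]
    · intro l
      exact (hclose l).trans hdel0
  -- from `n` to `d`
  have hK1 : 1 ≤ K := by omega
  have hK1R : (1 : ℝ) ≤ K := by exact_mod_cast hK1
  have hKd : (K : ℝ) ^ d ≤ (K : ℝ) ^ n := pow_le_pow_right₀ hK1R hdn
  have hZd : Z ^ (d * K) ≤ Z ^ (n * K) := pow_le_pow_right₀ hZ1 (Nat.mul_le_mul_right _ hdn)
  have hSR : (0 : ℝ) ≤ S := Nat.cast_nonneg _
  have hZ0 : (0 : ℝ) ≤ Z := by linarith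
  have hmono : (((2 * (K ^ d * S) : ℕ) : ℝ)) * (((2 * (K ^ d * S) : ℕ) : ℝ) *
      (Z ^ (d * K) * exp (S * Om))) * Z ^ (d * K) ≤
      (2 * (K ^ n * S) : ℝ) * (2 * (K ^ n * S) * (Z ^ (n * K) * exp (S * Om))) * Z ^ (n * K) := by
    push_cast
    gcongr
  have hRd : 2 * (K ^ d * S) ≤ S' * K' ^ d := by
    have h1 : K' ^ n ≤ K' ^ d * K ^ (n - d) := by
      calc K' ^ n = K' ^ d * K' ^ (n - d) := by rw [← pow_add]; congr 1; omega
        _ ≤ K' ^ d * K ^ (n - d) := Nat.mul_le_mul_left _ (Nat.pow_le_pow_left (by omega) _)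
    have h2 : 2 * (K ^ d * S) * K ^ (n - d) ≤ S' * K' ^ d * K ^ (n - d) := by
      calc 2 * (K ^ d * S) * K ^ (n - d) = 2 * (K ^ d * K ^ (n - d) * S) := by ring
        _ = 2 * (K ^ n * S) := by rw [← pow_add]; congr 4; omega
        _ ≤ S' * K' ^ n := hrows
        _ ≤ S' * (K' ^ d * K ^ (n - d)) := Nat.mul_le_mul_left _ h1
        _ = S' * K' ^ d * K ^ (n - d) := by ring
    exact Nat.le_of_mul_le_mul_right h2 (pow_pos hK1 _)
  obtain ⟨G, hG0, hGdeg, hGv⟩ := P.exists_G Z Th Om del hP K K' m S S' (2 * (K ^ d * S)) rfl hK hm hS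
    hSS hmS (hmono.trans hC) hdel (by
      refine le_trans ?_ hL
      have hdn' : (d : ℝ) ≤ n := by exact_mod_cast hdn
      gcongr) hRd
  -- the determinant
  let zJ : Lat H B →+ (Fin d → ℚ) :=
    { toFun := fun m j => D.z m (J j)
      map_zero' := by
        funext j
        rw [map_zero]
        rfl
      map_add' := by
        intro m m'
        funext j
        rw [map_add]
        rfl }
  obtain ⟨F, hF0, hFdeg, hFv⟩ := det_step zJ D.xi (D.xi_add hD) E1 h0E1 l0 hl0 (D.xi_pos hD l0) hl01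
    (d + 1) S' (d * K') G hG0 (fun σ _ => hGdeg σ) (by
      intro l hl
      have h1 := hGv ⟨l, hl⟩
      simp only [P] at h1
      rw [← hax ⟨l, hl⟩] at h1
      exact h1)
  -- the zero estimate
  have hT1' : S' * (d * K') < T0 :=
    lt_of_le_of_lt (Nat.mul_le_mul_left _ (Nat.mul_le_mul_right _ hdn)) hT1
  obtain ⟨l, hl, hl'⟩ := zero_estimate_hom zJ E1 h0E1 (T := S' * (d * K')) (by positivity) (by
    intro V' hV'
    have h1 := hE V' hV'
    have h2 : finrank ℚ V' < d := by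
      have := Submodule.finrank_lt hV'
      rwa [Module.finrank_fintype_fun_eq_card, Fintype.card_fin] at this
    have h3 : (S' * (d * K')) ^ (d - finrank ℚ V') < T0 ^ (d - finrank ℚ V') :=
      Nat.pow_lt_pow_left hT1' (by omega)
    have h4 : T0 ^ (d - finrank ℚ V') ≤
        (E1.image (fun m => V'.mkQ (fun j => D.z m (J j)))).card := by exact_mod_cast h1
    exact lt_of_lt_of_le h3 h4) F hF0 hFdeg
  exact hl' (hFv l hl)

end Pool.Agent.MP_f02ea4.QR
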