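import Mathlib

/-!
# The core data

Distinct primes `r h`, the subset `U` of the small ones, rows `F q`, integers `u q` prime to all `r h`, such that
`log (u q)` is very close to `∑ F q h log (r h)`. The lattice `Lat H B` consists of the pairs `(a, k)`; the homomorphism `z` sends `(a, k)` to
`a + ∑ k_q F_q`, and `xi (a, k) = ∏ r_h ^ a_h ∏ u_q ^ k_q`.
-/

set_option autoImplicit false

namespace Pool.Agent.MP_f02ea4.QR

open Finset Real

/-- Core data. -/
structure CD (H B : Type) where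
  r : H → ℕ
  U : Finset H
  F : B → H → ℤ
  u : B → ℕ

set_option linter.unusedSectionVars false

/-- the lattice of the pairs `(a, k)` -/
abbrev Lat (H B : Type) := (H → ℤ) × (B → ℤ)

variable {H B : Type} [Fintype H] [Fintype B] [DecidableEq H] [DecidableEq B]

/-- the hypotheses on the core data -/
structure CD.OK (D : CD H B) : Prop where
  r_prime : ∀ h, (D.r h).Prime
  r_inj : Function.Injective D.r
  F_indep : LinearIndependent ℚ (fun q h => (D.F q h : ℚ))
  u_pos : ∀ q, 0 < D.u q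
  u_coprime : ∀ q h, Nat.Coprime (D.u q) (D.r h)

/-- `∑ F_q,h log r_h - log u_q` -/
noncomputable def CD.Lam (D : CD H B) (q : B) : ℝ :=
  ∑ h, (D.F q h : ℝ) * log (D.r h) - log (D.u q)

/-- the integers `a_h + ∑ k_q F_q,h` -/
def CD.zi (D : CD H B) (m : Lat H B) (h : H) : ℤ := m.1 h + ∑ q, m.2 q * D.F q h

/-- the homomorphism `(a, k) ↦ a + ∑ k_q F_q` -/
noncomputable def CD.z (D : CD H B) : Lat H B →+ (H → ℚ) where
  toFun m h := (D.zi m h : ℚ)
  map_zero' := by
    funext h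
    simp [CD.zi]
  map_add' := by
    intro m m'
    funext h
    simp only [CD.zi, Prod.fst_add, Prod.snd_add, Pi.add_apply, add_mul, Finset.sum_add_distrib]
    push_cast
    ring

lemma CD.z_apply (D : CD H B) (m : Lat H B) (h : H) : D.z m h = (D.zi m h : ℚ) := rfl

/-- the homomorphism `(a, k) ↦ ∏ r_h ^ a_h ∏ u_q ^ k_q` -/
noncomputable def CD.xi (D : CD H B) (m : Lat H B) : ℚ :=
  (∏ h, (D.r h : ℚ) ^ m.1 h) * ∏ q, (D.u q : ℚ) ^ m.2 q

/-- the points with `a` supported on `U`, `|a_h| ≤ x`, `|k_q| ≤ y` -/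
def CD.Sm (D : CD H B) (x y : ℕ) (m : Lat H B) : Prop :=
  (∀ h ∈ D.U, |m.1 h| ≤ x) ∧ (∀ h, h ∉ D.U → m.1 h = 0) ∧ ∀ q, |m.2 q| ≤ y

/-- the box `0 ≤ a_h < x` for `h ∈ U`, `a_h = 0` otherwise, `0 ≤ k_q < y` -/
noncomputable def CD.box (D : CD H B) (x y : ℕ) : Finset (Lat H B) :=
  (Fintype.piFinset fun h => if h ∈ D.U then Finset.Ico (0 : ℤ) x else {0}) ×ˢ
    (Fintype.piFinset fun _ => Finset.Ico (0 : ℤ) y)

/-- `x ∑_U log r_h + y ∑ log u_q`: the logarithmic height of the points of `Sm x y` -/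
noncomputable def CD.ht (D : CD H B) (x y : ℕ) : ℝ :=
  x * ∑ h ∈ D.U, log (D.r h) + y * ∑ q, log (D.u q)

end Pool.Agent.MP_f02ea4.QR
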