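import Mathlib
import Pool.Agent.Lib.MP_f02ea4_nt.QR.CDef

/-! Statement of the simultaneous lower bound (MP_f02ea4). -/

set_option autoImplicit false

namespace Pool.Agent.MP_f02ea4.QR

open Finset Real

/-- the simultaneous lower bound for linear forms in logarithms of primes, constant `C` -/
def SimulC (C : ℕ) : Prop := ∀ (H B : Type) [Fintype H] [Fintype B] [DecidableEq H] [DecidableEq B]
    (D : CD H B), D.OK → ∀ (E W Y Z : ℝ) (ρ : ℕ),
    (∀ h ∈ D.U, log (D.r h) ≤ E) → 1 ≤ E → (∀ h, log (D.r h) ≤ exp Y) →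
    (∀ q, log (D.u q) ≤ W) → 1 ≤ W → (∀ q h, |(D.F q h : ℝ)| ≤ exp Y) → 1 ≤ Y →
    (∀ q, |D.Lam q| ≤ 2 * exp (-Z)) → 1 ≤ Fintype.card B → Fintype.card H ≤ ρ * Fintype.card B →
    2 * (Fintype.card H - D.U.card) ≤ Fintype.card B →
    Z ≤ (((Fintype.card H : ℝ) + 1) * E * (Y + log W)) ^ (C * ρ) *
      W ^ (1 + 2 * ((Fintype.card H - D.U.card : ℕ) : ℝ) / Fintype.card B)

end Pool.Agent.MP_f02ea4.QR
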