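import Mathlib
import Pool.Agent.Lib.MP_f02ea4_nt.QR.SimDef

/-! The simultaneous lower bound applied to the numbers `q ^ n q - 1`. -/

set_option autoImplicit false

namespace Pool.Agent.MP_f02ea4.QR

open Finset Real

/-- the part of `q ^ n - 1` outside `H` -/
def uu (H : Finset ℕ) (q n : ℕ) : ℕ :=
  ∏ r ∈ (q ^ n - 1).primeFactors \ H, r ^ (q ^ n - 1).factorization r

lemma uu_pos (H : Finset ℕ) (q n : ℕ) : 1 ≤ uu H q n := by
  unfold uu
  apply Nat.one_le_iff_ne_zero.2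
  apply Finset.prod_ne_zero_iff.2
  intro r hr
  have := (Nat.prime_of_mem_primeFactors (mem_sdiff.1 hr).1).pos
  exact pow_ne_zero _ this.ne'

lemma uu_not_dvd (H : Finset ℕ) (q n r : ℕ) (hr : r.Prime) (hrH : r ∈ H) : ¬ r ∣ uu H q n := by
  unfold uu
  intro h
  obtain ⟨s, hs, hd⟩ := (Prime.dvd_finsetProd_iff hr.prime _).1 h
  have hsp := Nat.prime_of_mem_primeFactors (mem_sdiff.1 hs).1
  have h2 := (Nat.prime_dvd_prime_iff_eq hr hsp).1 (hr.dvd_of_dvd_pow hd)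
  exact (mem_sdiff.1 hs).2 (h2 ▸ hrH)

lemma uu_log (H : Finset ℕ) (q n : ℕ) : log (uu H q n : ℝ) =
    ∑ r ∈ (q ^ n - 1).primeFactors \ H, ((q ^ n - 1).factorization r : ℝ) * log r := by
  unfold uu
  push_cast
  rw [Real.log_prod]
  · refine sum_congr rfl fun r _ => ?_
    rw [Real.log_pow]
  · intro r hr
    have := (Nat.prime_of_mem_primeFactors (mem_sdiff.1 hr).1).pos
    have h1 : (r : ℝ) ≠ 0 := by exact_mod_cast this.ne'
    exact pow_ne_zero _ h1

lemma log_pred_eq (H : Finset ℕ) (q n : ℕ) : log ((q ^ n - 1 : ℕ) : ℝ) =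
    log (uu H q n : ℝ) + ∑ r ∈ H, ((q ^ n - 1).factorization r : ℝ) * log r := by
  rw [uu_log, Real.log_nat_eq_sum_factorization (q ^ n - 1), Finsupp.sum, Nat.support_factorization]
  have h1 : ∑ r ∈ H, ((q ^ n - 1).factorization r : ℝ) * log r =
      ∑ r ∈ (q ^ n - 1).primeFactors ∩ H, ((q ^ n - 1).factorization r : ℝ) * log r := by
    symm
    apply sum_subset inter_subset_right
    intro r hr hnot
    have h2 : r ∉ (q ^ n - 1).primeFactors := fun h => hnot (mem_inter.2 ⟨h, hr⟩)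
    rw [← Nat.support_factorization, Finsupp.notMem_support_iff] at h2
    rw [h2]
    simp
  rw [h1]
  have h3 := sum_union (s₁ := (q ^ n - 1).primeFactors \ H) (s₂ := (q ^ n - 1).primeFactors ∩ H)
    (f := fun r => ((q ^ n - 1).factorization r : ℝ) * log r) (disjoint_sdiff_inter _ _)
  rw [sdiff_union_inter] at h3
  exact h3

lemma log_one_sub_bound (x : ℝ) (hx0 : 0 ≤ x) (hx : x ≤ 1 / 2) : |log (1 - x)| ≤ 2 * x := by
  have h1 : 0 < 1 - x := by linarith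
  have h2 : log (1 - x) ≤ 0 := Real.log_nonpos h1.le (by linarith)
  have h3 := Real.one_sub_inv_le_log_of_pos h1
  rw [abs_of_nonpos h2]
  have h4 : (1 - x)⁻¹ ≤ 1 + 2 * x := by
    rw [inv_le_comm₀ h1 (by linarith), inv_le_iff_one_le_mul₀ (by linarith)]
    nlinarith
  linarith

lemma pred_log_close (q n : ℕ) (hq : q.Prime) (hn : 1 ≤ n) :
    |log ((q ^ n - 1 : ℕ) : ℝ) - n * log q| ≤ 2 * exp (-(n * log q)) := by
  have hq2 : (2 : ℝ) ≤ q := by exact_mod_cast hq.two_le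
  have hq0 : (0 : ℝ) < q := by linarith
  have hqn : 2 ≤ q ^ n := by
    calc 2 ≤ q := hq.two_le
      _ = q ^ 1 := (pow_one q).symm
      _ ≤ q ^ n := Nat.pow_le_pow_right hq.pos hn
  have hqnR : (2 : ℝ) ≤ (q : ℝ) ^ n := by exact_mod_cast hqn
  have hx : exp (-(n * log q)) = ((q : ℝ) ^ n)⁻¹ := by
    rw [Real.exp_neg, ← Real.log_pow, Real.exp_log (by positivity)]
  rw [hx]
  have h1 : ((q ^ n - 1 : ℕ) : ℝ) = (q : ℝ) ^ n * (1 - ((q : ℝ) ^ n)⁻¹) := by
    rw [Nat.cast_sub (by omega)]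
    push_cast
    field_simp
  have h2 : ((q : ℝ) ^ n)⁻¹ ≤ 1 / 2 := by
    rw [one_div]
    exact inv_anti₀ (by norm_num) hqnR
  have h3 : 0 < 1 - ((q : ℝ) ^ n)⁻¹ := by linarith
  rw [h1, Real.log_mul (by positivity) h3.ne', Real.log_pow]
  have h4 := log_one_sub_bound (((q : ℝ) ^ n)⁻¹) (by positivity) h2
  have h5 : (n : ℝ) * log q + log (1 - ((q : ℝ) ^ n)⁻¹) - n * log q =
      log (1 - ((q : ℝ) ^ n)⁻¹) := by ring
  rw [h5]
  exact h4

lemma self_fac (q n : ℕ) (hq : q.Prime) (hn : 1 ≤ n) : (q ^ n - 1).factorization q = 0 := by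
  apply Nat.factorization_eq_zero_of_not_dvd
  intro h
  have h1 : q ∣ q ^ n := dvd_pow_self q (by omega)
  have hpos : 1 ≤ q ^ n := Nat.one_le_pow _ _ hq.pos
  have h2 : q ∣ 1 := by
    have h3 := (Nat.dvd_sub h1 h)
    have h4 : q ^ n - (q ^ n - 1) = 1 := by omega
    rwa [h4] at h3
  exact hq.one_lt.ne' (Nat.dvd_one.1 h2)

lemma fac_le (q n r : ℕ) (hq : q.Prime) (hn : 1 ≤ n) (hr : r.Prime) :
    (((q ^ n - 1).factorization r : ℕ) : ℝ) ≤ 2 * (n * log q) := by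
  have hq2 : (2 : ℝ) ≤ q := by exact_mod_cast hq.two_le
  have hqn : 2 ≤ q ^ n := by
    calc 2 ≤ q := hq.two_le
      _ = q ^ 1 := (pow_one q).symm
      _ ≤ q ^ n := Nat.pow_le_pow_right hq.pos hn
  have h1 : r ^ (q ^ n - 1).factorization r ≤ q ^ n - 1 :=
    Nat.le_of_dvd (by omega) (Nat.ordProj_dvd _ _)
  have h2 : (r : ℝ) ^ (q ^ n - 1).factorization r ≤ (q : ℝ) ^ n := by
    exact_mod_cast h1.trans (by omega)
  have hr2 : (2 : ℝ) ≤ r := by exact_mod_cast hr.two_le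
  have h3 := Real.log_le_log (by positivity) h2
  rw [Real.log_pow, Real.log_pow] at h3
  have h4 : (1 : ℝ) / 2 ≤ log r := by
    have h5 := Real.log_two_gt_d9
    have h6 := Real.log_le_log (by norm_num) hr2
    linarith
  have h5 : (0 : ℝ) ≤ ((q ^ n - 1).factorization r : ℕ) := Nat.cast_nonneg _
  nlinarith

/-- strictly dominant diagonal -/
lemma dominant_zero (B : Finset ℕ) (n : ℕ → ℕ) (b : ℕ → ℕ → ℕ) (hb : ∀ q ∈ B, b q q = 0)
    (hdom : ∀ r ∈ B, ∑ q ∈ B.erase r, b q r < n r) (c : ℕ → ℚ)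
    (h : ∀ r ∈ B, ∑ q ∈ B, c q * ((((if r = q then (n q : ℤ) else 0) - b q r : ℤ)) : ℚ) = 0) :
    ∀ q ∈ B, c q = 0 := by
  rcases B.eq_empty_or_nonempty with hB | hB
  · intro q hq
    rw [hB] at hq
    exact absurd hq (notMem_empty q)
  obtain ⟨r, hr, hmax⟩ := exists_max_image B (fun q => |c q|) hB
  have h1 := h r hr
  have h2 : ∑ q ∈ B, c q * ((((if r = q then (n q : ℤ) else 0) - b q r : ℤ)) : ℚ) =
      c r * n r - ∑ q ∈ B.erase r, c q * b q r := by
    rw [← add_sum_erase B _ hr]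
    have h3 : ∀ q ∈ B.erase r, c q * ((((if r = q then (n q : ℤ) else 0) - b q r : ℤ)) : ℚ) =
        - (c q * b q r) := by
      intro q hq
      rw [if_neg (fun h => (ne_of_mem_erase hq) h.symm)]
      push_cast
      ring
    rw [sum_congr rfl h3, sum_neg_distrib, if_pos rfl, hb r hr]
    push_cast
    ring
  rw [h2] at h1
  have h3 : |c r| * (n r : ℚ) ≤ |c r| * ∑ q ∈ B.erase r, (b q r : ℚ) := by
    have h4 : c r * (n r : ℚ) = ∑ q ∈ B.erase r, c q * b q r := by linarith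
    calc |c r| * (n r : ℚ) = |c r * n r| := by rw [abs_mul, Nat.abs_cast]
      _ = |∑ q ∈ B.erase r, c q * b q r| := by rw [h4]
      _ ≤ ∑ q ∈ B.erase r, |c q * b q r| := abs_sum_le_sum_abs _ _
      _ ≤ ∑ q ∈ B.erase r, |c r| * b q r := by
          refine sum_le_sum fun q hq => ?_
          rw [abs_mul, Nat.abs_cast]
          exact mul_le_mul_of_nonneg_right (hmax q (mem_of_mem_erase hq)) (Nat.cast_nonneg _)
      _ = |c r| * ∑ q ∈ B.erase r, (b q r : ℚ) := by rw [mul_sum]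
  have h5 : (∑ q ∈ B.erase r, (b q r : ℚ)) < n r := by exact_mod_cast hdom r hr
  have h6 : |c r| = 0 := by
    by_contra hne
    have h7 : 0 < |c r| := lt_of_le_of_ne (abs_nonneg _) (Ne.symm hne)
    have h8 := mul_lt_mul_of_pos_left h5 h7
    linarith
  intro q hq
  have h7 := hmax q hq
  rw [h6] at h7
  exact abs_eq_zero.1 (le_antisymm h7 (abs_nonneg _))

/-- the data attached to the numbers `q ^ n q - 1`, `q ∈ B`, the primes `H`, the small primes `U` -/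
noncomputable def dat (H B U : Finset ℕ) (n : ℕ → ℕ) : CD H B where
  r i := i.1
  U := Finset.univ.filter (fun i => i.1 ∈ U)
  F k i := (if i.1 = k.1 then (n k.1 : ℤ) else 0) - ((k.1 ^ n k.1 - 1).factorization i.1 : ℕ)
  u k := uu H k.1 (n k.1)

lemma dat_ok (H B U : Finset ℕ) (hBH : B ⊆ H) (hH : ∀ r ∈ H, r.Prime) (n : ℕ → ℕ)
    (hn : ∀ q ∈ B, 1 ≤ n q)
    (hdom : ∀ r ∈ B, ∑ q ∈ B.erase r, (q ^ n q - 1).factorization r < n r) :
    (dat H B U n).OK where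
  r_prime i := hH i.1 i.2
  r_inj := Subtype.val_injective
  F_indep := by
    classical
    rw [Fintype.linearIndependent_iff]
    intro c hc k
    have h1 := dominant_zero B n (fun q r => (q ^ n q - 1).factorization r)
      (fun q hq => self_fac q (n q) (hH q (hBH hq)) (hn q hq)) hdom
      (fun q => if h : q ∈ B then c ⟨q, h⟩ else 0) (fun r hr => ?_)
    · have h2 := h1 k.1 k.2
      simp only [k.2, dif_pos] at h2
      exact h2
    · have h3 := congrFun hc ⟨r, hBH hr⟩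
      rw [Finset.sum_apply] at h3
      refine Eq.trans ?_ h3
      rw [← Finset.sum_coe_sort B]
      refine sum_congr rfl fun k _ => ?_
      simp only [k.2, dif_pos]
      rfl
  u_pos k := uu_pos H _ _
  u_coprime k i := by
    have h1 := uu_not_dvd H k.1 (n k.1) i.1 (hH i.1 i.2) i.2
    exact ((Nat.Prime.coprime_iff_not_dvd (hH i.1 i.2)).2 h1).symm

lemma dat_lam (H B U : Finset ℕ) (hBH : B ⊆ H) (hH : ∀ r ∈ H, r.Prime) (n : ℕ → ℕ)
    (hn : ∀ q ∈ B, 1 ≤ n q) (Z : ℝ) (hZ : ∀ q ∈ B, Z ≤ n q * log q) (k : B) :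
    |(dat H B U n).Lam k| ≤ 2 * exp (-Z) := by
  classical
  have h1 : ∑ i : H, (((if i.1 = k.1 then (n k.1 : ℤ) else 0) -
      ((k.1 ^ n k.1 - 1).factorization i.1 : ℕ) : ℤ) : ℝ) * log (i.1 : ℝ) =
      n k.1 * log k.1 - ∑ r ∈ H, ((k.1 ^ n k.1 - 1).factorization r : ℝ) * log r := by
    rw [Finset.sum_coe_sort H (fun r => (((if r = k.1 then (n k.1 : ℤ) else 0) -
      ((k.1 ^ n k.1 - 1).factorization r : ℕ) : ℤ) : ℝ) * log (r : ℝ))]
    have h2 : ∀ r ∈ H, (((if r = k.1 then (n k.1 : ℤ) else 0) -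
        ((k.1 ^ n k.1 - 1).factorization r : ℕ) : ℤ) : ℝ) * log (r : ℝ) =
        (if r = k.1 then (n k.1 : ℝ) * log k.1 else 0) -
          ((k.1 ^ n k.1 - 1).factorization r : ℝ) * log r := by
      intro r _
      push_cast
      split_ifs with h
      · rw [h]
        ring
      · ring
    rw [sum_congr rfl h2, sum_sub_distrib, sum_ite_eq' H k.1, if_pos (hBH k.2)]
  change |∑ i : H, (((if i.1 = k.1 then (n k.1 : ℤ) else 0) -
      ((k.1 ^ n k.1 - 1).factorization i.1 : ℕ) : ℤ) : ℝ) * log (i.1 : ℝ) -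
      log (uu H k.1 (n k.1) : ℝ)| ≤ _
  rw [h1]
  have h3 := log_pred_eq H k.1 (n k.1)
  have h4 := pred_log_close k.1 (n k.1) (hH _ (hBH k.2)) (hn _ k.2)
  have h5 : n k.1 * log k.1 - ∑ r ∈ H, ((k.1 ^ n k.1 - 1).factorization r : ℝ) * log r -
      log (uu H k.1 (n k.1) : ℝ) = -(log ((k.1 ^ n k.1 - 1 : ℕ) : ℝ) - n k.1 * log k.1) := by
    rw [h3]
    ring
  rw [h5, abs_neg]
  refine h4.trans ?_
  have h6 : exp (-(n k.1 * log k.1)) ≤ exp (-Z) := exp_le_exp.2 (by linarith [hZ _ k.2])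
  linarith

lemma dat_F (H B U : Finset ℕ) (hBH : B ⊆ H) (hH : ∀ r ∈ H, r.Prime) (n : ℕ → ℕ)
    (hn : ∀ q ∈ B, 1 ≤ n q) (Y : ℝ) (hF : ∀ q ∈ B, 2 * ((n q : ℝ) * log q) ≤ exp Y) (k : B)
    (i : H) : |((dat H B U n).F k i : ℝ)| ≤ exp Y := by
  have hkp := hH _ (hBH k.2)
  have h1 := fac_le k.1 (n k.1) i.1 hkp (hn _ k.2) (hH _ i.2)
  have h2 := hF _ k.2
  have h3 : (n k.1 : ℝ) ≤ 2 * (n k.1 * log k.1) := by
    have h4 : (1 : ℝ) / 2 ≤ log k.1 := by
      have h5 := Real.log_two_gt_d9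
      have h6 := Real.log_le_log (by norm_num) (by exact_mod_cast hkp.two_le : (2 : ℝ) ≤ k.1)
      linarith
    have h5 : (0 : ℝ) ≤ n k.1 := Nat.cast_nonneg _
    nlinarith
  have h4 : (0 : ℝ) ≤ ((k.1 ^ n k.1 - 1).factorization i.1 : ℕ) := Nat.cast_nonneg _
  have h5 : (0 : ℝ) ≤ n k.1 := Nat.cast_nonneg _
  change |((((if i.1 = k.1 then (n k.1 : ℤ) else 0) -
      ((k.1 ^ n k.1 - 1).factorization i.1 : ℕ) : ℤ)) : ℝ)| ≤ exp Y
  push_cast
  rw [abs_le]
  split_ifs <;> constructor <;> linarith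

/-- the simultaneous lower bound for the numbers `q ^ n q - 1`, `q ∈ B` -/
theorem simul_primes {C : ℕ} (hC : SimulC C) (H B U : Finset ℕ) (hBH : B ⊆ H) (hUH : U ⊆ H)
    (hBne : B.Nonempty) (hH : ∀ r ∈ H, r.Prime) (n : ℕ → ℕ) (hn : ∀ q ∈ B, 1 ≤ n q)
    (hdom : ∀ r ∈ B, ∑ q ∈ B.erase r, (q ^ n q - 1).factorization r < n r)
    (E W Y Z : ℝ) (ρ : ℕ) (hE : ∀ r ∈ U, log r ≤ E) (hE1 : 1 ≤ E) (hHY : ∀ r ∈ H, log r ≤ exp Y)
    (hW : ∀ q ∈ B, ∑ r ∈ (q ^ n q - 1).primeFactors \ H,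
      ((q ^ n q - 1).factorization r : ℝ) * log r ≤ W)
    (hW1 : 1 ≤ W) (hY : 1 ≤ Y) (hF : ∀ q ∈ B, 2 * ((n q : ℝ) * log q) ≤ exp Y)
    (hZ : ∀ q ∈ B, Z ≤ n q * log q) (hcard : H.card ≤ ρ * B.card) (m : ℕ)
    (hm : H.card = U.card + m) (hmB : 2 * m ≤ B.card) :
    Z ≤ (((H.card : ℝ) + 1) * E * (Y + log W)) ^ (C * ρ) * W ^ (1 + 2 * (m : ℝ) / B.card) := by
  classical
  have hU : (dat H B U n).U.card = U.card := by
    change (Finset.univ.filter (fun i : H => i.1 ∈ U)).card = U.card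
    rw [← Finset.card_map (Function.Embedding.subtype _)]
    congr 1
    ext r
    simp only [Finset.mem_map, Finset.mem_filter, Finset.mem_univ, true_and,
      Function.Embedding.subtype_apply, Subtype.exists, exists_and_left, exists_prop]
    constructor
    · rintro ⟨a, ha, -, rfl⟩
      exact ha
    · intro hr
      exact ⟨r, hr, hUH hr, rfl⟩
  have hmm : H.card - U.card = m := by omega
  have key := hC H B (dat H B U n) (dat_ok H B U hBH hH n hn hdom) E W Y Z ρ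
    (fun i hi => hE i.1 (Finset.mem_filter.1 hi).2) hE1 (fun i => hHY i.1 i.2)
    (fun k => by
      change log (uu H k.1 (n k.1) : ℝ) ≤ W
      rw [uu_log]
      exact hW k.1 k.2) hW1 (dat_F H B U hBH hH n hn Y hF) hY (dat_lam H B U hBH hH n hn Z hZ)
    (by rw [Fintype.card_coe]; exact hBne.card_pos)
    (by rw [Fintype.card_coe, Fintype.card_coe]; exact hcard)
    (by rw [Fintype.card_coe, Fintype.card_coe, hU, hmm]; exact hmB)
  rw [Fintype.card_coe, Fintype.card_coe, hU, hmm] at key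
  exact key

end Pool.Agent.MP_f02ea4.QR
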