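import Mathlib
import Pool.Agent.Lib.MP_f02ea4_nt.Mg.G023

/-! One level of the argument (MP_f02ea4). -/

set_option autoImplicit false

namespace Pool.Agent.MP_f02ea4.QR

open Finset Real
open Pool.Agent.Lib.MP_f02ea4_nt.Sm
open Pool.Agent.Lib.MP_f02ea4_nt.Ml (Lg s_prime s_ne_two s_sg s_aa_nonneg basics)
open Pool.Agent.Lib.MP_f02ea4_nt.AE (Vs hv fac_sum_le light_part col_le)

/-- the revealed mass -/
noncomputable def mss (N y : ℕ) (l : ℝ) (U : Finset ℕ) : ℝ :=
  ∑ q ∈ Vs N y \ U, (nn N q : ℝ) * log q + (Vs N y).card * l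

/-- the factor lost in one level -/
noncomputable def QQ (C N y h t m : ℕ) (W : ℝ) : ℝ :=
  exp (C * (((h : ℝ) / t + 2) *
    log (((h : ℝ) + m + 1) * log y * (2 + (log (log N) + log y) + log W))) +
      2 * (m : ℝ) / t * log W)

lemma QQ_mono (C N y h h' t m : ℕ) (W W' : ℝ) (hX1 : 1 ≤ log (N : ℝ)) (hy : 1 ≤ log (y : ℝ))
    (hh : h' ≤ h) (hW1 : 1 ≤ W) (hW : W ≤ W') : QQ C N y h' t m W ≤ QQ C N y h t m W' := by
  unfold QQ
  apply exp_le_exp.2
  have hL0 : 0 ≤ log (log (N : ℝ)) := Real.log_nonneg hX1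
  have hlW : 0 ≤ log W := Real.log_nonneg hW1
  have hlWW : log W ≤ log W' := Real.log_le_log (by linarith) hW
  have hhR : (h' : ℝ) ≤ h := by exact_mod_cast hh
  have hh0 : (0 : ℝ) ≤ h' := Nat.cast_nonneg _
  have hm0 : (0 : ℝ) ≤ m := Nat.cast_nonneg _
  have ht0 : (0 : ℝ) ≤ t := Nat.cast_nonneg _
  have hC0 : (0 : ℝ) ≤ C := Nat.cast_nonneg _
  have h1 : 2 * (m : ℝ) / t * log W ≤ 2 * (m : ℝ) / t * log W' :=
    mul_le_mul_of_nonneg_left hlWW (by positivity)
  have h2 : (h' : ℝ) / t ≤ (h : ℝ) / t := div_le_div_of_nonneg_right hhR ht0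
  have h3 : (1 : ℝ) ≤ ((h' : ℝ) + m + 1) * log y := by nlinarith
  have h4 : ((h' : ℝ) + m + 1) * log y ≤ ((h : ℝ) + m + 1) * log y :=
    mul_le_mul_of_nonneg_right (by linarith) (by linarith)
  have h5 : (1 : ℝ) ≤ 2 + (log (log N) + log y) + log W := by linarith
  have h6 : ((h' : ℝ) + m + 1) * log y * (2 + (log (log N) + log y) + log W) ≤
      ((h : ℝ) + m + 1) * log y * (2 + (log (log N) + log y) + log W') :=
    mul_le_mul h4 (by linarith) (by linarith) (by linarith)
  have h7 : (1 : ℝ) ≤ ((h' : ℝ) + m + 1) * log y * (2 + (log (log N) + log y) + log W) := by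
    nlinarith
  have h8 := Real.log_le_log (by linarith) h6
  have h9 := Real.log_nonneg h7
  have h10 : ((h' : ℝ) / t + 2) * log (((h' : ℝ) + m + 1) * log y *
      (2 + (log (log N) + log y) + log W)) ≤ ((h : ℝ) / t + 2) *
      log (((h : ℝ) + m + 1) * log y * (2 + (log (log N) + log y) + log W')) := by
    have : (0 : ℝ) ≤ (h : ℝ) / t := by positivity
    exact mul_le_mul (by linarith) h8 h9 (by linarith)
  have h11 := mul_le_mul_of_nonneg_left h10 hC0
  linarith

/-- one level -/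
theorem level_core {C : ℕ} (hC : SimulC C) (hC1 : 1 ≤ C) (N y : ℕ) (hodd : Odd N)
    (hN : Nat.Perfect N) (hy : 3 ≤ y) (T l : ℝ) (hT : 0 ≤ T)
    (hl0 : ∀ q ∈ Vs N y, log y + log 2 + (Vs N y).card * T + log (nn N q : ℝ) ≤ l)
    (hl1 : 4 * (((Vs N y).card : ℝ) + 1) * log y ≤ l) (U : Finset ℕ) (hUV : U ⊆ Vs N y) (s : ℝ)
    (hs : 0 < s) (hUs : (U.card : ℝ) ≤ s) (A' : Finset ℕ) (hA : (A'.card : ℝ) ≤ s / 2)
    (hAU : A' ⊆ U) (t h m : ℕ) (ht : 1 ≤ t) (hts : 3 * (t : ℝ) ≤ s / 8)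
    (hm : (Lg N y).card = m) (hmt : 2 * m ≤ t) (hth : t ≤ h)
    (hH : ∀ B ⊆ U \ A', B.card = t → ∃ H', B ⊆ H' ∧ H' ⊆ U ∧ H'.card ≤ h ∧
      ∀ q ∈ B, ∀ r ∈ U, hv N T q r → r ∈ H')
    (Wb : ℝ) (hWb : 16 * mss N y l U / s + l ≤ Wb) :
    ∃ U' ⊆ U, (U'.card : ℝ) ≤ 3 / 4 * s ∧
      mss N y l U' ≤ (1 + 17 * QQ C N y h t m Wb) * mss N y l U := by
  classical
  obtain ⟨hX1, -, -, -⟩ := basics N hodd hN
  have hL0 : 0 ≤ log (log (N : ℝ)) := Real.log_nonneg hX1
  have hyR : (3 : ℝ) ≤ y := by exact_mod_cast hy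
  have hlogy : 1 ≤ log (y : ℝ) := d15_log3 hyR
  obtain ⟨f, hf⟩ := exists_payer N hodd hN
  obtain ⟨k, hk⟩ : ∃ k : ℕ, k = (Vs N y).card := ⟨_, rfl⟩
  have hk0 : (0 : ℝ) ≤ k := Nat.cast_nonneg _
  rw [← hk] at hl1
  have hl4 : 4 ≤ l := by nlinarith
  have hl00 : 0 < l := by linarith
  have hZ0 : ∀ q ∈ Vs N y, 0 ≤ (nn N q : ℝ) * log q := fun q _ =>
    mul_nonneg (Nat.cast_nonneg _) (log_natCast_nonneg q)
  obtain ⟨μ, hμ⟩ : ∃ μ : ℝ, μ = mss N y l U := ⟨_, rfl⟩
  have hμdef : μ = ∑ q ∈ Vs N y \ U, (nn N q : ℝ) * log q + k * l := by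
    rw [hμ, mss, hk]
  have hkl : 0 ≤ (k : ℝ) * l := by positivity
  have hR0 : 0 ≤ ∑ q ∈ Vs N y \ U, (nn N q : ℝ) * log q :=
    sum_nonneg fun q hq => hZ0 q (mem_sdiff.1 hq).1
  have hμ0 : 0 ≤ μ := by linarith
  have hμk : (k : ℝ) * l ≤ μ := by linarith
  rw [← hμ] at hWb ⊢
  obtain ⟨W, hW⟩ : ∃ W : ℝ, W = 16 * μ / s + l := ⟨_, rfl⟩
  have hWl : l ≤ W := by
    rw [hW]
    have : 0 ≤ 16 * μ / s := by positivity
    linarith
  have hW1 : 1 ≤ W := by linarith
  obtain ⟨Q, hQ⟩ : ∃ Q : ℝ, Q = QQ C N y h t m Wb := ⟨_, rfl⟩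
  rw [← hQ]
  obtain ⟨w, hw⟩ : ∃ w : ℕ → ℝ, w = fun q => l + ∑ r ∈ Vs N y \ U, aa N q r := ⟨_, rfl⟩
  have hw0 : ∀ q, 0 ≤ w q := by
    intro q
    rw [hw]
    have : 0 ≤ ∑ r ∈ Vs N y \ U, aa N q r := sum_nonneg fun r _ => s_aa_nonneg N q r
    beta_reduce
    linarith
  have hwsum : ∑ q ∈ U, w q ≤ μ := by
    calc ∑ q ∈ U, w q ≤ ∑ q ∈ Vs N y, w q :=
          sum_le_sum_of_subset_of_nonneg hUV fun q _ _ => hw0 q
      _ = k * l + ∑ q ∈ Vs N y, ∑ r ∈ Vs N y \ U, aa N q r := by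
          rw [hw, sum_add_distrib, sum_const, nsmul_eq_mul, hk]
      _ = k * l + ∑ r ∈ Vs N y \ U, ∑ q ∈ Vs N y, aa N q r := by rw [sum_comm]
      _ ≤ k * l + ∑ r ∈ Vs N y \ U, (nn N r : ℝ) * log r := by
          have := sum_le_sum fun r (hr : r ∈ Vs N y \ U) =>
            col_le N y r hodd hN (mem_filter.1 (mem_sdiff.1 hr).1).1
          linarith
      _ = μ := by rw [hμdef]; ring
  -- size of Q
  have hC1R : (1 : ℝ) ≤ C := by exact_mod_cast hC1
  have htR : (1 : ℝ) ≤ t := by exact_mod_cast ht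
  have ht0R : (0 : ℝ) < t := by linarith
  have hm0R : (0 : ℝ) ≤ m := Nat.cast_nonneg _
  have hthR : (t : ℝ) ≤ h := by exact_mod_cast hth
  have hWWb : W ≤ Wb := by rw [hW]; exact hWb
  have hlWb : 0 ≤ log Wb := Real.log_nonneg (by linarith)
  have hlW : 0 ≤ log W := Real.log_nonneg hW1
  have hQbig : ((t : ℝ) + m + 1) ^ 2 * log y ≤ Q := by
    rw [hQ, QQ]
    obtain ⟨A, hA⟩ : ∃ A : ℝ, A = ((h : ℝ) + m + 1) * log y *
      (2 + (log (log N) + log y) + log Wb) := ⟨_, rfl⟩
    rw [← hA]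
    have h1 : ((t : ℝ) + m + 1) * log y ≤ A := by
      rw [hA]
      have h2 : ((t : ℝ) + m + 1) * log y ≤ ((h : ℝ) + m + 1) * log y :=
        mul_le_mul_of_nonneg_right (by linarith) (by linarith)
      have h3 : 0 ≤ ((h : ℝ) + m + 1) * log y := by
        apply mul_nonneg <;> linarith
      nlinarith
    have h2 : ((t : ℝ) + m + 1) ^ 2 * log y ≤ (((t : ℝ) + m + 1) * log y) ^ 2 := by
      have h3 : 0 ≤ ((t : ℝ) + m + 1) ^ 2 := by positivity
      nlinarith
    have h4 : 1 ≤ ((t : ℝ) + m + 1) * log y := by nlinarith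
    have hA1 : 1 ≤ A := by linarith
    have h5 : A ^ 2 = exp (2 * log A) := by
      have h6 : exp (((2 : ℕ) : ℝ) * log A) = exp (log A) ^ 2 := Real.exp_nat_mul _ 2
      rw [Real.exp_log (by linarith)] at h6
      rw [← h6]
      norm_num
    have h6 : A ^ 2 ≤ exp (C * (((h : ℝ) / t + 2) * log A) + 2 * (m : ℝ) / t * log Wb) := by
      rw [h5]
      apply exp_le_exp.2
      have h7 : 0 ≤ log A := Real.log_nonneg hA1
      have h8 : 0 ≤ (h : ℝ) / t := by positivity
      have h9 : 2 * log A ≤ ((h : ℝ) / t + 2) * log A := by nlinarith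
      have h10 : ((h : ℝ) / t + 2) * log A ≤ C * (((h : ℝ) / t + 2) * log A) :=
        le_mul_of_one_le_left (by positivity) hC1R
      have h11 : 0 ≤ 2 * (m : ℝ) / t * log Wb := by positivity
      linarith
    have h7 : (((t : ℝ) + m + 1) * log y) ^ 2 ≤ A ^ 2 := pow_le_pow_left₀ (by linarith) h1 2
    linarith
  have hQ0 : 0 < Q := by
    rw [hQ, QQ]
    exact exp_pos _
  obtain ⟨X, hX⟩ : ∃ X : Finset ℕ, X = (U \ A').filter
    (fun q => w q ≤ W ∧ Q * W < (nn N q : ℝ) * log q) := ⟨_, rfl⟩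
  obtain ⟨G, hG⟩ : ∃ G : Finset ℕ, G = U.filter (fun q => W < w q) := ⟨_, rfl⟩
  have hXU : X ⊆ U := by
    rw [hX]
    exact (filter_subset _ _).trans sdiff_subset
  have hGU : G ⊆ U := by
    rw [hG]
    exact filter_subset _ _
  -- `G` is small
  have hGcard : (G.card : ℝ) ≤ s / 16 := by
    have h1 : (G.card : ℝ) * W ≤ μ := by
      calc (G.card : ℝ) * W = ∑ _q ∈ G, W := by rw [sum_const, nsmul_eq_mul]
        _ ≤ ∑ q ∈ G, w q := by
            refine sum_le_sum fun q hq => ?_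
            rw [hG, mem_filter] at hq
            exact hq.2.le
        _ ≤ ∑ q ∈ U, w q := sum_le_sum_of_subset_of_nonneg hGU fun q _ _ => hw0 q
        _ ≤ μ := hwsum
    by_contra hcon
    rw [not_le] at hcon
    have h2 : s / 16 * W < G.card * W := mul_lt_mul_of_pos_right hcon (by linarith)
    have h3 : μ ≤ s / 16 * W := by
      rw [hW]
      have h4 : s / 16 * (16 * μ / s + l) = μ + s / 16 * l := by field_simp
      rw [h4]
      have : 0 ≤ s / 16 * l := by positivity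
      linarith
    linarith
  -- `X` is small
  have hXcard : (X.card : ℝ) ≤ s / 8 := by
    by_contra hcon
    rw [not_le] at hcon
    have h3t : 3 * t ≤ X.card := by
      have : (3 * t : ℝ) < X.card := by linarith
      have h1 : ((3 * t : ℕ) : ℝ) < X.card := by push_cast; exact this
      exact_mod_cast h1.le
    obtain ⟨B, hBX, hBt, hBi⟩ := payer_indep f X
      (fun r hr => (hf r (mem_filter.1 (hUV (hXU hr))).1).2.1) t h3t
    have hBUA : B ⊆ U \ A' := by
      refine hBX.trans ?_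
      rw [hX]
      exact filter_subset _ _
    obtain ⟨H', hBH, hHU, hHh, hHheavy⟩ := hH B hBUA hBt
    have hBne : B.Nonempty := by
      rw [← card_pos, hBt]
      omega
    obtain ⟨q0, hq0, hmin⟩ := exists_min_image B (fun q => (nn N q : ℝ) * log q) hBne
    have hBprop : ∀ q ∈ B, w q ≤ W ∧ Q * W < (nn N q : ℝ) * log q := by
      intro q hq
      have h1 := hBX hq
      rw [hX, mem_filter] at h1
      exact h1.2
    have hcards : N.primeFactors.card = k + m := by
      have h1 : (Vs N y).card + (N.primeFactors.filter (fun p => ¬ p ≤ y)).card =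
          N.primeFactors.card := Finset.card_filter_add_card_filter_not _
      have h2 : N.primeFactors.filter (fun p => ¬ p ≤ y) = Lg N y := by
        apply Finset.filter_congr
        intro p _
        exact not_le
      rw [h2, hm, ← hk] at h1
      omega
    have hZ2 : ((N.primeFactors.card : ℝ) * B.card * log y + 1) * log y ≤
        (nn N q0 : ℝ) * log q0 := by
      refine le_trans ?_ (hBprop q0 hq0).2.le
      rw [hcards, hBt]
      push_cast
      have h1 : 4 * ((k : ℝ) + 1) * log y ≤ W := hl1.trans hWl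
      have h2 : ((t : ℝ) + m + 1) ^ 2 * log y * (4 * ((k : ℝ) + 1) * log y) ≤ Q * W := by
        apply mul_le_mul hQbig h1 (by positivity) hQ0.le
      refine le_trans ?_ h2
      have h3 : (((k : ℝ) + m) * t * log y + 1) * log y ≤
          (((k : ℝ) + m) * t + 1) * (log y * log y) := by
        have h4 : (((k : ℝ) + m) * t * log y + 1) ≤ (((k : ℝ) + m) * t + 1) * log y := by
          nlinarith
        calc (((k : ℝ) + m) * t * log y + 1) * log y ≤
              ((((k : ℝ) + m) * t + 1) * log y) * log y :=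
              mul_le_mul_of_nonneg_right h4 (by linarith)
          _ = _ := by ring
      refine h3.trans ?_
      have h5 : ((k : ℝ) + m) * t + 1 ≤ ((t : ℝ) + m + 1) ^ 2 * (4 * ((k : ℝ) + 1)) := by
        have h6 : ((k : ℝ) + m) * t ≤ (k + 1) * ((t + m + 1) * (t + m + 1)) := by
          have h7 : ((k : ℝ) + m) ≤ (k + 1) * (t + m + 1) := by nlinarith
          have h8 : (t : ℝ) ≤ t + m + 1 := by linarith
          calc ((k : ℝ) + m) * t ≤ ((k + 1) * (t + m + 1)) * (t + m + 1) :=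
                mul_le_mul h7 h8 (by linarith) (by positivity)
            _ = _ := by ring
        have h7 : (1 : ℝ) ≤ (k + 1) * ((t + m + 1) * (t + m + 1)) := by
          have h8 : (1 : ℝ) ≤ (t + m + 1) * (t + m + 1) := by nlinarith
          nlinarith
        nlinarith
      have h6 : 0 ≤ log (y : ℝ) * log y := by positivity
      calc (((k : ℝ) + m) * t + 1) * (log y * log y) ≤
            (((t : ℝ) + m + 1) ^ 2 * (4 * ((k : ℝ) + 1))) * (log y * log y) :=
            mul_le_mul_of_nonneg_right h5 h6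
        _ = _ := by ring
    have hblock := one_block hC N y hodd hN hy f hf T hT U H' B hUV hBH hHU hHheavy hBi hBne W
      ((nn N q0 : ℝ) * log q0) m hm (by rw [hBt]; exact hmt) hW1
      (fun q hq => by
        have h1 := hl0 q (hUV (hHU (hBH hq)))
        have h2 := (hBprop q hq).1
        rw [hw] at h2
        beta_reduce at h2
        linarith) hmin hZ2
    have h1 : (nn N q0 : ℝ) * log q0 ≤ QQ C N y H'.card t m W * W := by
      unfold QQ
      rw [hBt] at hblock
      exact hblock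
    have h2 := QQ_mono C N y h H'.card t m W Wb hX1 hlogy hHh hW1 hWWb
    have h3 : QQ C N y H'.card t m W * W ≤ Q * W := by
      rw [hQ]
      exact mul_le_mul_of_nonneg_right h2 (by linarith)
    have h4 := (hBprop q0 hq0).2
    linarith
  refine ⟨A' ∪ (G ∪ X), union_subset hAU (union_subset hGU hXU), ?_, ?_⟩
  · have h1 : ((A' ∪ (G ∪ X)).card : ℝ) ≤ A'.card + (G.card + X.card) := by
      have h2 := card_union_le A' (G ∪ X)
      have h3 := card_union_le G X
      exact_mod_cast h2.trans (Nat.add_le_add_left h3 _)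
    linarith
  · obtain ⟨U', hU'⟩ : ∃ U' : Finset ℕ, U' = A' ∪ (G ∪ X) := ⟨_, rfl⟩
    rw [← hU']
    have hU'U : U' ⊆ U := by
      rw [hU']
      exact union_subset hAU (union_subset hGU hXU)
    have hsplit : Vs N y \ U' = (Vs N y \ U) ∪ (U \ U') := by
      ext q
      simp only [mem_sdiff, mem_union]
      constructor
      · rintro ⟨h1, h2⟩
        by_cases h3 : q ∈ U
        · exact Or.inr ⟨h3, h2⟩
        · exact Or.inl ⟨h1, h3⟩
      · rintro (⟨h1, h2⟩ | ⟨h1, h2⟩)
        · exact ⟨h1, fun h3 => h2 (hU'U h3)⟩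
        · exact ⟨hUV h1, h2⟩
    have hdisj : Disjoint (Vs N y \ U) (U \ U') := by
      rw [Finset.disjoint_left]
      intro q h1 h2
      exact (mem_sdiff.1 h1).2 (mem_sdiff.1 h2).1
    have h1 : mss N y l U' = μ + ∑ q ∈ U \ U', (nn N q : ℝ) * log q := by
      rw [mss, hsplit, sum_union hdisj, hμdef, hk]
      ring
    rw [h1]
    have h2 : ∑ q ∈ U \ U', (nn N q : ℝ) * log q ≤ (U \ U').card * (Q * W) := by
      rw [← nsmul_eq_mul]
      apply sum_le_card_nsmul
      intro q hq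
      have h3 := mem_sdiff.1 hq
      by_contra hcon
      rw [not_le] at hcon
      apply h3.2
      rw [hU', mem_union, mem_union]
      by_cases h4 : q ∈ A'
      · exact Or.inl h4
      · right
        by_cases h5 : w q ≤ W
        · right
          rw [hX, mem_filter]
          exact ⟨mem_sdiff.2 ⟨h3.1, h4⟩, h5, hcon⟩
        · left
          rw [hG, mem_filter]
          exact ⟨h3.1, not_le.1 h5⟩
    have hc0 : (0 : ℝ) ≤ (U \ U').card := Nat.cast_nonneg _
    have hc1 : ((U \ U').card : ℝ) ≤ s := by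
      refine le_trans ?_ hUs
      exact_mod_cast card_le_card sdiff_subset
    have hc2 : ((U \ U').card : ℝ) ≤ k := by
      rw [hk]
      exact_mod_cast card_le_card (sdiff_subset.trans hUV)
    have h3 : ((U \ U').card : ℝ) * W ≤ 17 * μ := by
      rw [hW, mul_add]
      have h4 : ((U \ U').card : ℝ) * (16 * μ / s) ≤ 16 * μ := by
        have h5 : ((U \ U').card : ℝ) * (16 * μ / s) ≤ s * (16 * μ / s) :=
          mul_le_mul_of_nonneg_right hc1 (by positivity)
        have h6 : s * (16 * μ / s) = 16 * μ := by field_simp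
        linarith
      have h5 : ((U \ U').card : ℝ) * l ≤ k * l := mul_le_mul_of_nonneg_right hc2 hl00.le
      linarith
    have h4 : ((U \ U').card : ℝ) * (Q * W) ≤ Q * (17 * μ) := by
      calc ((U \ U').card : ℝ) * (Q * W) = Q * (((U \ U').card : ℝ) * W) := by ring
        _ ≤ Q * (17 * μ) := mul_le_mul_of_nonneg_left h3 hQ0.le
    nlinarith

end Pool.Agent.MP_f02ea4.QR
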