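import Mathlib
import Pool.Agent.Lib.MP_f02ea4_nt.QR.Level

/-! The two kinds of levels with numbers (MP_f02ea4). -/

set_option autoImplicit false

namespace Pool.Agent.MP_f02ea4.QR

open Finset Real
open Pool.Agent.Lib.MP_f02ea4_nt.Sm
open Pool.Agent.Lib.MP_f02ea4_nt.Ml (Lg s_prime s_ne_two s_sg s_aa_nonneg basics)
open Pool.Agent.Lib.MP_f02ea4_nt.AE (Vs hv fac_sum_le light_part col_le nn_le_log)

/-- the light part per prime -/
noncomputable def ll (N y : ℕ) : ℝ :=
  (((Vs N y).card : ℝ) + 1) * (log (N : ℝ) ^ (1 / 4 : ℝ) * log y) + log y + 1 + log (3 * log (N : ℝ))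

/-- the bound of `W` -/
noncomputable def Wbd (N y : ℕ) : ℝ := 16 * log (N : ℝ) ^ 3 * log y

section

variable {N y : ℕ} (hodd : Odd N) (hN : Nat.Perfect N) (hy : 3 ≤ y) (hX : 256 ≤ log (N : ℝ))

include hX in
lemma X4_ge : 4 ≤ log (N : ℝ) ^ (1 / 4 : ℝ) := by
  have h1 : (256 : ℝ) ^ (1 / 4 : ℝ) ≤ log (N : ℝ) ^ (1 / 4 : ℝ) :=
    Real.rpow_le_rpow (by norm_num) hX (by norm_num)
  have h2 : (256 : ℝ) ^ (1 / 4 : ℝ) = 4 := by
    have h3 : (256 : ℝ) = 4 ^ (4 : ℝ) := by norm_num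
    rw [h3, ← Real.rpow_mul (by norm_num)]
    norm_num
  linarith

include hX in
lemma X4_le : log (N : ℝ) ^ (1 / 4 : ℝ) ≤ log (N : ℝ) := by
  have h1 : log (N : ℝ) ^ (1 / 4 : ℝ) ≤ log (N : ℝ) ^ (1 : ℝ) :=
    Real.rpow_le_rpow_of_exponent_le (by linarith) (by norm_num)
  rwa [Real.rpow_one] at h1

include hodd hN in
lemma nn_log_V (q : ℕ) : log (nn N q : ℝ) ≤ log (3 * log (N : ℝ)) := by
  obtain ⟨hX1, hV, -, -⟩ := basics N hodd hN
  apply Real.log_le_log
  · exact_mod_cast (by unfold nn; omega : 0 < nn N q)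
  · refine le_trans ?_ hV
    exact_mod_cast nn_le_log N q

include hodd hN hX hy in
lemma ll_T : ∀ q ∈ Vs N y, log y + log 2 +
    (Vs N y).card * (log (N : ℝ) ^ (1 / 4 : ℝ) * log y) + log (nn N q : ℝ) ≤ ll N y := by
  intro q _
  have h1 := nn_log_V hodd hN q
  have h2 := Real.log_two_lt_d9
  have h3 := X4_ge hX
  have hyR : (3 : ℝ) ≤ y := by exact_mod_cast hy
  have hlogy : 1 ≤ log (y : ℝ) := d15_log3 hyR
  have h4 : 0 ≤ log (N : ℝ) ^ (1 / 4 : ℝ) * log y := by positivity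
  unfold ll
  linarith

include hodd hN hX hy in
lemma ll_0 : ∀ q ∈ Vs N y, log y + log 2 + (Vs N y).card * (0 : ℝ) + log (nn N q : ℝ) ≤
    ll N y := by
  intro q hq
  have h1 := ll_T hodd hN hy hX q hq
  have h3 := X4_ge hX
  have hyR : (3 : ℝ) ≤ y := by exact_mod_cast hy
  have hlogy : 1 ≤ log (y : ℝ) := d15_log3 hyR
  have h4 : 0 ≤ (Vs N y).card * (log (N : ℝ) ^ (1 / 4 : ℝ) * log y) := by positivity
  linarith

include hX hy in
lemma ll_1 : 4 * (((Vs N y).card : ℝ) + 1) * log y ≤ ll N y := by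
  have h3 := X4_ge hX
  have hyR : (3 : ℝ) ≤ y := by exact_mod_cast hy
  have hlogy : 1 ≤ log (y : ℝ) := d15_log3 hyR
  have h5 : 0 ≤ log (3 * log (N : ℝ)) := Real.log_nonneg (by linarith)
  have h6 : (((Vs N y).card : ℝ) + 1) * (4 * log y) ≤
      (((Vs N y).card : ℝ) + 1) * (log (N : ℝ) ^ (1 / 4 : ℝ) * log y) := by
    apply mul_le_mul_of_nonneg_left _ (by positivity)
    exact mul_le_mul_of_nonneg_right h3 (by linarith)
  unfold ll
  linarith

include hodd hN hX hy in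
lemma mass_le (U : Finset ℕ) (s : ℝ) (hs : 16 ≤ s) :
    16 * mss N y (ll N y) U / s + ll N y ≤ Wbd N y := by
  obtain ⟨hX1, hV, hom, -⟩ := basics N hodd hN
  set X : ℝ := log (N : ℝ) with hXdef
  have hyR : (3 : ℝ) ≤ y := by exact_mod_cast hy
  have hlogy : 1 ≤ log (y : ℝ) := d15_log3 hyR
  obtain ⟨k, hk⟩ : ∃ k : ℕ, k = (Vs N y).card := ⟨_, rfl⟩
  have hkX : (k : ℝ) ≤ X := by
    refine le_trans ?_ hom
    rw [hk]
    exact_mod_cast Finset.card_filter_le _ _
  have hk0 : (0 : ℝ) ≤ k := Nat.cast_nonneg _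
  -- bound of the sum
  have h1 : ∑ q ∈ Vs N y \ U, (nn N q : ℝ) * log q ≤ 2 * X := by
    have h2 : ∑ q ∈ Vs N y \ U, (nn N q : ℝ) * log q ≤
        ∑ q ∈ N.primeFactors, (nn N q : ℝ) * log q :=
      sum_le_sum_of_subset_of_nonneg (sdiff_subset.trans (filter_subset _ _))
        fun q _ _ => mul_nonneg (Nat.cast_nonneg _) (log_natCast_nonneg q)
    have h3 : ∑ q ∈ N.primeFactors, (nn N q : ℝ) * log q ≤
        ∑ q ∈ N.primeFactors, 2 * mass N q := by
      refine sum_le_sum fun q hq => ?_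
      have hqp := s_prime hq
      have h4 : 1 ≤ N.factorization q :=
        hqp.factorization_pos_of_dvd hN.2.ne' (Nat.dvd_of_mem_primeFactors hq)
      have h5 : (nn N q : ℝ) ≤ 2 * N.factorization q := by
        have : nn N q ≤ 2 * N.factorization q := by unfold nn; omega
        exact_mod_cast this
      unfold mass
      have h6 := log_natCast_nonneg q
      nlinarith
    rw [← mul_sum, ← log_eq_sum N hN.2.ne'] at h3
    exact h2.trans h3
  have hT : X ^ (1 / 4 : ℝ) ≤ X := X4_le hX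
  have hT0 : 0 ≤ X ^ (1 / 4 : ℝ) := Real.rpow_nonneg (by linarith) _
  have hl3 : log (3 * X) ≤ 3 * X := by
    have := Real.log_le_sub_one_of_pos (by linarith : 0 < 3 * X)
    linarith
  have hll : ll N y ≤ (X + 1) * (X * log y) + log y + 1 + 3 * X := by
    unfold ll
    rw [← hk]
    have h4 : ((k : ℝ) + 1) * (X ^ (1 / 4 : ℝ) * log y) ≤ (X + 1) * (X * log y) := by
      apply mul_le_mul (by linarith) _ (by positivity) (by linarith)
      exact mul_le_mul_of_nonneg_right hT (by linarith)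
    rw [← hXdef]
    linarith
  have hll2 : ll N y ≤ 2 * X ^ 2 * log y := by
    refine hll.trans ?_
    nlinarith [mul_nonneg (by linarith : (0 : ℝ) ≤ X - 256) (by linarith : (0 : ℝ) ≤ log (y : ℝ)),
      mul_nonneg (by linarith : (0 : ℝ) ≤ X - 256) (by linarith : (0 : ℝ) ≤ log (y : ℝ) - 1),
      mul_nonneg (mul_nonneg (by linarith : (0 : ℝ) ≤ X - 256) (by linarith : (0 : ℝ) ≤ X))
        (by linarith : (0 : ℝ) ≤ log (y : ℝ))]
  have hll0 : 0 ≤ ll N y := by
    have h5 := ll_1 (N := N) hy hX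
    have h6 : 0 ≤ 4 * (((Vs N y).card : ℝ) + 1) * log y := by positivity
    linarith
  have hm : mss N y (ll N y) U ≤ 2 * X + X * (2 * X ^ 2 * log y) := by
    unfold mss
    rw [← hk]
    have h4 : (k : ℝ) * ll N y ≤ X * (2 * X ^ 2 * log y) :=
      mul_le_mul hkX hll2 hll0 (by linarith)
    linarith
  have hm0 : 0 ≤ mss N y (ll N y) U := by
    unfold mss
    have h4 : 0 ≤ ∑ q ∈ Vs N y \ U, (nn N q : ℝ) * log q :=
      sum_nonneg fun q _ => mul_nonneg (Nat.cast_nonneg _) (log_natCast_nonneg q)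
    positivity
  have h5 : 16 * mss N y (ll N y) U / s ≤ mss N y (ll N y) U := by
    rw [div_le_iff₀ (by linarith)]
    nlinarith
  unfold Wbd
  rw [← hXdef]
  have h6 : 2 * X ≤ X ^ 3 * log y := by
    have h7 : 2 * X ≤ X ^ 3 := by nlinarith [sq_nonneg X]
    have h8 : (0 : ℝ) ≤ X ^ 3 := by positivity
    nlinarith
  have h7 : 2 * X ^ 2 * log y ≤ X ^ 3 * log y := by
    apply mul_le_mul_of_nonneg_right _ (by linarith)
    nlinarith [sq_nonneg X]
  have h8 : X * (2 * X ^ 2 * log y) = 2 * (X ^ 3 * log y) := by ring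
  have h9 : 0 ≤ X ^ 3 * log y := by positivity
  linarith

include hX hy in
lemma logWbd : log (Wbd N y) ≤ 3 + 3 * log (log (N : ℝ)) + log (log y) ∧ 0 ≤ log (Wbd N y) := by
  have hyR : (3 : ℝ) ≤ y := by exact_mod_cast hy
  have hlogy : 1 ≤ log (y : ℝ) := d15_log3 hyR
  set X : ℝ := log (N : ℝ) with hXdef
  have h1 : log (Wbd N y) = log 16 + 3 * log X + log (log y) := by
    unfold Wbd
    rw [← hXdef, Real.log_mul (by positivity) (by positivity),
      Real.log_mul (by norm_num) (by positivity), Real.log_pow]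
    norm_num
  have h2 : log (16 : ℝ) ≤ 3 := by
    have h3 : log ((2 : ℝ) ^ 4) = 4 * log 2 := by
      rw [Real.log_pow]
      norm_num
    have h4 : (16 : ℝ) = 2 ^ 4 := by norm_num
    rw [h4, h3]
    have := Real.log_two_lt_d9
    linarith
  have h3 : 0 ≤ log (16 : ℝ) := Real.log_nonneg (by norm_num)
  have h4 : 0 ≤ log X := Real.log_nonneg (by linarith)
  have h5 : 0 ≤ log (log (y : ℝ)) := Real.log_nonneg hlogy
  rw [h1]
  constructor <;> linarith

end

/-- numbers: the factor of a level is at most `exp (...)` -/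
lemma QQ_le (C N y h t m : ℕ) (D P : ℝ) (hy : 3 ≤ y) (hX : 256 ≤ log (N : ℝ))
    (hly : log (log (y : ℝ)) ≤ log (log (N : ℝ))) (ht : 1 ≤ t)
    (hD : (h : ℝ) / t + 2 ≤ D) (hP : (h : ℝ) + m + 1 ≤ P) :
    1 + 17 * QQ C N y h t m (Wbd N y) ≤
      exp (3 + C * (D * (log P + 3 + 2 * log (2 + log (log (N : ℝ)) + log y))) +
        (m : ℝ) * log (log (N : ℝ)) * 10 / t) := by
  have hyR : (3 : ℝ) ≤ y := by exact_mod_cast hy
  have hlogy : 1 ≤ log (y : ℝ) := d15_log3 hyR
  obtain ⟨hW1, hW0⟩ := logWbd (N := N) hy hX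
  set X : ℝ := log (N : ℝ) with hXdef
  set L : ℝ := log X with hL
  have hL5 : 3 ≤ L := by
    rw [hL, Real.le_log_iff_exp_le (by linarith)]
    have h1 := Real.exp_one_lt_d9
    have h2 : exp (3 : ℝ) = exp 1 * exp 1 * exp 1 := by
      rw [← Real.exp_add, ← Real.exp_add]
      norm_num
    rw [h2]
    have h3 : exp 1 * exp 1 ≤ (2.8 : ℝ) * 2.8 := by
      apply mul_le_mul <;> linarith [Real.exp_pos (1 : ℝ)]
    have h4 : exp 1 * exp 1 * exp 1 ≤ (2.8 * 2.8 : ℝ) * 2.8 := by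
      apply mul_le_mul h3 (by linarith) (Real.exp_pos _).le (by norm_num)
    linarith
  have hll0 : 0 ≤ log (log (y : ℝ)) := Real.log_nonneg hlogy
  have hlly : log (log (y : ℝ)) ≤ log y := by
    have := Real.log_le_sub_one_of_pos (by linarith : 0 < log (y : ℝ))
    linarith
  set G : ℝ := 2 + L + log y with hG
  have hG0 : 0 < G := by linarith
  have hG1 : 1 ≤ G := by linarith
  have hlogG : 0 ≤ log G := Real.log_nonneg hG1
  have hP1 : 1 ≤ P := by
    have h1 : (0 : ℝ) ≤ h := Nat.cast_nonneg _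
    have h2 : (0 : ℝ) ≤ m := Nat.cast_nonneg _
    linarith
  have htR : (1 : ℝ) ≤ t := by exact_mod_cast ht
  have hm0 : (0 : ℝ) ≤ m := Nat.cast_nonneg _
  have hh0 : (0 : ℝ) ≤ h := Nat.cast_nonneg _
  have hC0 : (0 : ℝ) ≤ C := Nat.cast_nonneg _
  -- the argument of the logarithm
  have h1 : ((h : ℝ) + m + 1) * log y * (2 + (L + log y) + log (Wbd N y)) ≤ P * (5 * G * G) := by
    have h2 : 2 + (L + log y) + log (Wbd N y) ≤ 5 * G := by
      rw [hG]
      linarith
    have h3 : log (y : ℝ) ≤ G := by linarith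
    calc ((h : ℝ) + m + 1) * log y * (2 + (L + log y) + log (Wbd N y)) ≤ (P * G) * (5 * G) := by
          apply mul_le_mul _ h2 (by linarith) (by positivity)
          exact mul_le_mul hP h3 (by linarith) (by linarith)
      _ = P * (5 * G * G) := by ring
  have h1' : 1 ≤ ((h : ℝ) + m + 1) * log y * (2 + (L + log y) + log (Wbd N y)) := by
    have h2 : 1 ≤ ((h : ℝ) + m + 1) * log y := by nlinarith
    nlinarith
  have h2 : log (((h : ℝ) + m + 1) * log y * (2 + (L + log y) + log (Wbd N y))) ≤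
      log P + 3 + 2 * log G := by
    refine (Real.log_le_log (by linarith) h1).trans ?_
    rw [Real.log_mul (by linarith) (by positivity), Real.log_mul (by positivity) hG0.ne',
      Real.log_mul (by norm_num) hG0.ne']
    have h3 : log (5 : ℝ) ≤ 3 := by
      have h4 := Real.log_le_sub_one_of_pos (by norm_num : (0 : ℝ) < 5 / 2)
      have h5 : log (5 : ℝ) = log (5 / 2) + log 2 := by
        rw [← Real.log_mul (by norm_num) (by norm_num)]
        norm_num
      have h6 := Real.log_two_lt_d9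
      linarith
    linarith
  have h3 : 0 ≤ log (((h : ℝ) + m + 1) * log y * (2 + (L + log y) + log (Wbd N y))) :=
    Real.log_nonneg h1'
  have hD0 : 0 ≤ D := by
    have : 0 ≤ (h : ℝ) / t := by positivity
    linarith
  have h4 : ((h : ℝ) / t + 2) * log (((h : ℝ) + m + 1) * log y *
      (2 + (L + log y) + log (Wbd N y))) ≤ D * (log P + 3 + 2 * log G) :=
    mul_le_mul hD h2 h3 hD0
  have h5 : 2 * (m : ℝ) / t * log (Wbd N y) ≤ (m : ℝ) * L * 10 / t := by
    have h6 : log (Wbd N y) ≤ 5 * L := by linarith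
    have h7 : 2 * (m : ℝ) / t * log (Wbd N y) ≤ 2 * (m : ℝ) / t * (5 * L) :=
      mul_le_mul_of_nonneg_left h6 (by positivity)
    have h8 : 2 * (m : ℝ) / t * (5 * L) = (m : ℝ) * L * 10 / t := by ring
    linarith
  have h6 : QQ C N y h t m (Wbd N y) ≤
      exp (C * (D * (log P + 3 + 2 * log G)) + (m : ℝ) * L * 10 / t) := by
    unfold QQ
    apply exp_le_exp.2
    have := mul_le_mul_of_nonneg_left h4 hC0
    linarith
  have h7 : 0 ≤ C * (D * (log P + 3 + 2 * log G)) + (m : ℝ) * L * 10 / t := by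
    have h8 : 0 ≤ log P := Real.log_nonneg hP1
    have h9 : 0 ≤ (m : ℝ) * L * 10 / t := by
      have : 0 ≤ L := by linarith
      positivity
    have h10 : 0 ≤ D * (log P + 3 + 2 * log G) := by
      apply mul_nonneg hD0
      linarith
    have h11 := mul_nonneg hC0 h10
    linarith
  obtain ⟨w, hw⟩ : ∃ w : ℝ, w = C * (D * (log P + 3 + 2 * log G)) + (m : ℝ) * L * 10 / t :=
    ⟨_, rfl⟩
  rw [← hw] at h6 h7
  have h8 : 1 ≤ exp w := Real.one_le_exp h7
  have h9 : (18 : ℝ) ≤ exp 3 := by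
    have h10 := Real.exp_one_gt_d9
    have h11 : exp (3 : ℝ) = exp 1 * exp 1 * exp 1 := by
      rw [← Real.exp_add, ← Real.exp_add]
      norm_num
    rw [h11]
    have h12 : (2.7 : ℝ) * 2.7 ≤ exp 1 * exp 1 := by
      apply mul_le_mul <;> linarith
    have h13 : (2.7 * 2.7 : ℝ) * 2.7 ≤ exp 1 * exp 1 * exp 1 := by
      apply mul_le_mul h12 (by linarith) (by norm_num) (by positivity)
    linarith
  have h10 : exp (3 + C * (D * (log P + 3 + 2 * log G)) + (m : ℝ) * L * 10 / t) =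
      exp 3 * exp w := by
    rw [← Real.exp_add, hw]
    congr 1
    ring
  rw [h10]
  nlinarith

end Pool.Agent.MP_f02ea4.QR
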