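import Mathlib
import Pool.Agent.Lib.MP_f02ea4_nt.QR.StepA

/-! The two kinds of levels (MP_f02ea4). -/

set_option autoImplicit false

namespace Pool.Agent.MP_f02ea4.QR

open Finset Real
open Pool.Agent.Lib.MP_f02ea4_nt.Sm
open Pool.Agent.Lib.MP_f02ea4_nt.Ml (Lg s_prime s_ne_two s_sg s_aa_nonneg basics)
open Pool.Agent.Lib.MP_f02ea4_nt.AE (Vs hv fac_sum_le light_part col_le nn_le_log)

/-- number of independent forms in a level -/
lemma exists_t (s : ℝ) (hs : 64 ≤ s) : ∃ t : ℕ, 1 ≤ t ∧ (t : ℝ) ≤ s / 32 ∧ s / 64 ≤ t := by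
  refine ⟨⌊s / 32⌋₊, ?_, Nat.floor_le (by linarith), ?_⟩
  · rw [Nat.one_le_floor_iff]
    linarith
  · have := Nat.lt_floor_add_one (s / 32)
    linarith

lemma mss_nonneg (N y : ℕ) (l : ℝ) (hl : 0 ≤ l) (U : Finset ℕ) : 0 ≤ mss N y l U := by
  unfold mss
  have h4 : 0 ≤ ∑ q ∈ Vs N y \ U, (nn N q : ℝ) * log q :=
    sum_nonneg fun q _ => mul_nonneg (Nat.cast_nonneg _) (log_natCast_nonneg q)
  positivity

lemma ll_nonneg (N y : ℕ) (hy : 3 ≤ y) (hX : 256 ≤ log (N : ℝ)) : 0 ≤ ll N y := by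
  have h5 := ll_1 (N := N) hy hX
  have hlogy := log_natCast_nonneg y
  have h6 : 0 ≤ 4 * (((Vs N y).card : ℝ) + 1) * log y := by positivity
  linarith

lemma L_ge_three (X : ℝ) (hX : 256 ≤ X) : 3 ≤ log X := by
  rw [Real.le_log_iff_exp_le (by linarith)]
  have h1 := Real.exp_one_lt_d9
  have h2 : exp (3 : ℝ) = exp 1 * exp 1 * exp 1 := by
    rw [← Real.exp_add, ← Real.exp_add]
    norm_num
  rw [h2]
  have h3 : exp 1 * exp 1 ≤ (2.8 : ℝ) * 2.8 := by
    apply mul_le_mul <;> linarith [Real.exp_pos (1 : ℝ)]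
  have h4 : exp 1 * exp 1 * exp 1 ≤ (2.8 * 2.8 : ℝ) * 2.8 := by
    apply mul_le_mul h3 (by linarith) (Real.exp_pos _).le (by norm_num)
  linarith

/-- level of the first kind: all unrevealed primes are used -/
theorem stepA {C : ℕ} (hC : SimulC C) (hC1 : 1 ≤ C) (N y : ℕ) (hodd : Odd N)
    (hN : Nat.Perfect N) (hy : 3 ≤ y) (hX : 256 ≤ log (N : ℝ))
    (hly : log (log (y : ℝ)) ≤ log (log (N : ℝ))) (m : ℕ) (hm : (Lg N y).card = m) (s : ℝ)
    (hs : 64 ≤ s) (hms : 128 * (m : ℝ) ≤ s) (U : Finset ℕ) (hUV : U ⊆ Vs N y)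
    (hUs : (U.card : ℝ) ≤ s) : ∃ U' ⊆ U, (U'.card : ℝ) ≤ 3 / 4 * s ∧
      mss N y (ll N y) U' ≤ exp ((3 + C * (66 * (log ((Vs N y).card + m + 1) + 3 +
        2 * log (2 + log (log (N : ℝ)) + log y)))) + 640 * m * log (log (N : ℝ)) / s) *
          mss N y (ll N y) U := by
  classical
  have hyR : (3 : ℝ) ≤ y := by exact_mod_cast hy
  have hlogy : 1 ≤ log (y : ℝ) := d15_log3 hyR
  have hL3 := L_ge_three _ hX
  have hll := ll_nonneg N y hy hX
  have hM0 := mss_nonneg N y (ll N y) hll U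
  have hG : 0 ≤ log (2 + log (log (N : ℝ)) + log y) := Real.log_nonneg (by linarith)
  have hk0 : (0 : ℝ) ≤ (Vs N y).card := Nat.cast_nonneg _
  have hm0 : (0 : ℝ) ≤ m := Nat.cast_nonneg _
  have hC0 : (0 : ℝ) ≤ C := Nat.cast_nonneg _
  have hlk : 0 ≤ log ((Vs N y).card + m + 1 : ℝ) := Real.log_nonneg (by linarith)
  have hmL : 0 ≤ 640 * m * log (log (N : ℝ)) / s := by
    have : 0 ≤ log (log (N : ℝ)) := by linarith
    positivity
  by_cases hc : (U.card : ℝ) ≤ 3 / 4 * s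
  · refine ⟨U, Subset.refl _, hc, ?_⟩
    apply le_mul_of_one_le_left hM0
    apply Real.one_le_exp
    positivity
  rw [not_le] at hc
  obtain ⟨t, ht1, ht2, ht3⟩ := exists_t s hs
  have ht0 : (0 : ℝ) < t := by exact_mod_cast ht1
  have hmt : 2 * m ≤ t := by
    have : ((2 * m : ℕ) : ℝ) ≤ t := by push_cast; linarith
    exact_mod_cast this
  have hth : t ≤ U.card := by
    have : (t : ℝ) ≤ U.card := by linarith
    exact_mod_cast this
  obtain ⟨U', hU', hc', hm'⟩ := level_core hC hC1 N y hodd hN hy 0 (ll N y) le_rfl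
    (ll_0 hodd hN hy hX) (ll_1 hy hX) U hUV s (by linarith) hUs ∅ (by simp; linarith)
    (empty_subset _) t U.card m ht1 (by linarith) hm hmt hth
    (fun B hB _ => ⟨U, hB.trans sdiff_subset, Subset.refl _, le_rfl, fun q _ r hr _ => hr⟩)
    (Wbd N y) (mass_le hodd hN hy hX U s (by linarith))
  refine ⟨U', hU', hc', hm'.trans ?_⟩
  apply mul_le_mul_of_nonneg_right _ hM0
  have hUk : (U.card : ℝ) ≤ (Vs N y).card := by exact_mod_cast card_le_card hUV
  have h1 : ((U.card : ℕ) : ℝ) / t + 2 ≤ 66 := by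
    have : ((U.card : ℕ) : ℝ) / t ≤ 64 := by
      rw [div_le_iff₀ ht0]
      linarith
    linarith
  refine (QQ_le C N y U.card t m 66 ((Vs N y).card + m + 1) hy hX hly ht1 h1
    (by linarith)).trans ?_
  apply exp_le_exp.2
  have h2 : (m : ℝ) * log (log (N : ℝ)) * 10 / t ≤ 640 * m * log (log (N : ℝ)) / s := by
    rw [div_le_div_iff₀ ht0 (by linarith)]
    have h3 : 0 ≤ (m : ℝ) * log (log (N : ℝ)) := mul_nonneg hm0 (by linarith)
    nlinarith
  linarith

open Classical in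
/-- few elements have more than `g` targets in `U` -/
lemma half_bad (hvv : ℕ → ℕ → Prop) (g : ℕ) (V U : Finset ℕ) (hUV : U ⊆ V) (a s : ℝ)
    (hI : ∀ r ∈ V, ((V.filter (fun q => hvv q r)).card : ℝ) ≤ a) (ha : 0 ≤ a) (hs : 0 ≤ s)
    (hUs : (U.card : ℝ) ≤ s) (hg : 2 * a ≤ g) :
    ((U.filter fun q => ¬ (U.filter fun r => hvv q r).card ≤ g).card : ℝ) ≤ s / 2 := by
  obtain ⟨A, hA⟩ : ∃ A : Finset ℕ, A = U.filter fun q => ¬ (U.filter fun r => hvv q r).card ≤ g :=
    ⟨_, rfl⟩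
  rw [← hA]
  have h1 : ∑ q ∈ U, (U.filter fun r => hvv q r).card = ∑ r ∈ U, (U.filter fun q => hvv q r).card :=
    sum_card_bipartiteAbove_eq_sum_card_bipartiteBelow hvv
  have h2 : ∑ r ∈ U, ((U.filter fun q => hvv q r).card : ℝ) ≤ s * a := by
    have h3 : ∑ r ∈ U, ((U.filter fun q => hvv q r).card : ℝ) ≤ ∑ _r ∈ U, a := by
      refine sum_le_sum fun r hr => ?_
      refine le_trans ?_ (hI r (hUV hr))
      exact_mod_cast card_le_card (filter_subset_filter _ hUV)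
    rw [sum_const, nsmul_eq_mul] at h3
    exact h3.trans (mul_le_mul_of_nonneg_right hUs ha)
  have h3 : A.card * (g + 1) ≤ ∑ q ∈ U, (U.filter fun r => hvv q r).card := by
    calc A.card * (g + 1) = ∑ _q ∈ A, (g + 1) := by rw [sum_const, smul_eq_mul]
      _ ≤ ∑ q ∈ A, (U.filter fun r => hvv q r).card := by
          refine sum_le_sum fun q hq => ?_
          rw [hA] at hq
          have := (mem_filter.1 hq).2
          omega
      _ ≤ ∑ q ∈ U, (U.filter fun r => hvv q r).card := by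
          rw [hA]
          exact sum_le_sum_of_subset (filter_subset _ _)
  rw [h1] at h3
  have h4 : (A.card : ℝ) * (g + 1) ≤ s * a := by
    refine le_trans ?_ h2
    exact_mod_cast h3
  have hg0 : (0 : ℝ) ≤ g := Nat.cast_nonneg g
  have h5 : (A.card : ℝ) * (g + 1) ≤ s / 2 * (g + 1) := by
    refine h4.trans ?_
    nlinarith
  exact le_of_mul_le_mul_right h5 (by linarith)

open Classical in
/-- level of the second kind: few primes and their heavy targets are used -/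
theorem stepB {C : ℕ} (hC : SimulC C) (hC1 : 1 ≤ C) (N y : ℕ) (hodd : Odd N)
    (hN : Nat.Perfect N) (hy : 3 ≤ y) (hX : 256 ≤ log (N : ℝ))
    (hly : log (log (y : ℝ)) ≤ log (log (N : ℝ))) (a : ℝ)
    (ha : a = 1 + 16 * (log y / (1 + log (log (N : ℝ)))))
    (hI : ∀ r ∈ Vs N y, (((Vs N y).filter (fun q => hv N (log (N : ℝ) ^ (1 / 4 : ℝ) * log y) q
      r)).card : ℝ) ≤ a) (m : ℕ) (hm : (Lg N y).card = m)
    (hmL : 10 * (m : ℝ) ≤ log (log (N : ℝ))) (s : ℝ)
    (hs : 64 ≤ s) (hms : 128 * (m : ℝ) ≤ s) (U : Finset ℕ) (hUV : U ⊆ Vs N y)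
    (hUs : (U.card : ℝ) ≤ s) : ∃ U' ⊆ U, (U'.card : ℝ) ≤ 3 / 4 * s ∧
      mss N y (ll N y) U' ≤ exp ((4 + 72 * C * a * log (2 + log (log (N : ℝ)) + log y)) +
        640 * m * log (log (N : ℝ)) / s) * mss N y (ll N y) U := by
  have hyR : (3 : ℝ) ≤ y := by exact_mod_cast hy
  have hlogy : 1 ≤ log (y : ℝ) := d15_log3 hyR
  have hL3 := L_ge_three _ hX
  have hll := ll_nonneg N y hy hX
  have hM0 := mss_nonneg N y (ll N y) hll U
  obtain ⟨L, hL⟩ : ∃ L : ℝ, L = log (log (N : ℝ)) := ⟨_, rfl⟩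
  rw [← hL] at hL3 ha hmL hly ⊢
  obtain ⟨G, hG⟩ : ∃ G : ℝ, G = 2 + L + log y := ⟨_, rfl⟩
  rw [← hG]
  have hG5 : 5 ≤ G := by linarith
  have hlG : 1 ≤ log G := by
    rw [Real.le_log_iff_exp_le (by linarith)]
    have := Real.exp_one_lt_d9
    linarith
  have hm0 : (0 : ℝ) ≤ m := Nat.cast_nonneg _
  have hC0 : (0 : ℝ) ≤ C := Nat.cast_nonneg _
  have hyL : 0 ≤ log (y : ℝ) / (1 + L) := by positivity
  have ha1 : 1 ≤ a := by linarith
  have haG : a ≤ 6 * G := by
    have h1 : log (y : ℝ) / (1 + L) ≤ log y / 4 :=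
      div_le_div_of_nonneg_left (by linarith) (by norm_num) (by linarith)
    linarith
  obtain ⟨g, hg⟩ : ∃ g : ℕ, g = ⌈2 * a⌉₊ := ⟨_, rfl⟩
  have hg1 : 2 * a ≤ g := by rw [hg]; exact Nat.le_ceil _
  have hg2 : (g : ℝ) ≤ 2 * a + 1 := by
    rw [hg]
    exact (Nat.ceil_lt_add_one (by linarith)).le
  obtain ⟨T, hT⟩ : ∃ T : ℝ, T = log (N : ℝ) ^ (1 / 4 : ℝ) * log y := ⟨_, rfl⟩
  have hT0 : 0 ≤ T := by
    rw [hT]
    have := Real.rpow_nonneg (by linarith : 0 ≤ log (N : ℝ)) (1 / 4 : ℝ)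
    positivity
  rw [← hT] at hI
  obtain ⟨A', hA'⟩ : ∃ A' : Finset ℕ,
      A' = U.filter fun q => ¬ (U.filter fun r => hv N T q r).card ≤ g := ⟨_, rfl⟩
  have hAU : A' ⊆ U := by
    rw [hA']
    exact filter_subset _ _
  have hAc : (A'.card : ℝ) ≤ s / 2 := by
    rw [hA']
    exact half_bad (fun q r => hv N T q r) g (Vs N y) U hUV a s hI (by linarith) (by linarith)
      hUs hg1
  obtain ⟨t0, ht1, ht2, ht3⟩ := exists_t s hs
  obtain ⟨t, ht⟩ : ∃ t : ℕ, t = min t0 ⌈L ^ 2⌉₊ := ⟨_, rfl⟩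
  have hLL : 0 < L ^ 2 := by positivity
  have htpos : 1 ≤ t := by
    rw [ht]
    exact le_min ht1 (Nat.one_le_iff_ne_zero.2 (by
      intro h0
      rw [Nat.ceil_eq_zero] at h0
      linarith))
  have ht0 : (0 : ℝ) < t := by exact_mod_cast htpos
  have htt0 : t ≤ t0 := by rw [ht]; exact min_le_left _ _
  have htt0R : (t : ℝ) ≤ t0 := by exact_mod_cast htt0
  have htL : (t : ℝ) ≤ L ^ 2 + 1 := by
    have h1 : t ≤ ⌈L ^ 2⌉₊ := by rw [ht]; exact min_le_right _ _
    have h2 : (t : ℝ) ≤ ⌈L ^ 2⌉₊ := by exact_mod_cast h1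
    have h3 := (Nat.ceil_lt_add_one hLL.le).le
    linarith
  have hL2 : 3 * L ≤ L ^ 2 := by nlinarith
  have hmt : 2 * m ≤ t := by
    rw [ht]
    apply le_min
    · have : ((2 * m : ℕ) : ℝ) ≤ t0 := by push_cast; linarith
      exact_mod_cast this
    · have h1 : ((2 * m : ℕ) : ℝ) ≤ ⌈L ^ 2⌉₊ := by
        push_cast
        have := Nat.le_ceil (L ^ 2)
        linarith
      exact_mod_cast h1
  obtain ⟨U', hU', hc', hm'⟩ := level_core hC hC1 N y hodd hN hy T (ll N y) hT0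
    (by rw [hT]; exact ll_T hodd hN hy hX) (ll_1 hy hX) U hUV s (by linarith) hUs A' hAc
    hAU t (t * (g + 1)) m htpos (by linarith) hm hmt (Nat.le_mul_of_pos_right t (by omega))
    (fun B hB hBt => by
      have hBU : B ⊆ U := hB.trans sdiff_subset
      refine ⟨B ∪ B.biUnion (fun q => U.filter (fun r => hv N T q r)), subset_union_left, ?_, ?_,
        ?_⟩
      · apply union_subset hBU
        intro r hr
        obtain ⟨q, -, hr⟩ := mem_biUnion.1 hr
        exact (mem_filter.1 hr).1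
      · have h1 := Finset.card_union_le B (B.biUnion (fun q => U.filter (fun r => hv N T q r)))
        have h2 := Finset.card_biUnion_le_card_mul B (fun q => U.filter (fun r => hv N T q r)) g
          (fun q hq => by
            have h3 := mem_sdiff.1 (hB hq)
            by_contra h4
            exact h3.2 (by rw [hA', mem_filter]; exact ⟨h3.1, h4⟩))
        rw [hBt] at h2 h1
        have h3 : t * (g + 1) = t + t * g := by ring
        rw [h3]
        omega
      · intro q hq r hr hh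
        exact mem_union_right _ (mem_biUnion.2 ⟨q, hq, mem_filter.2 ⟨hr, hh⟩⟩))
    (Wbd N y) (mass_le hodd hN hy hX U s (by linarith))
  refine ⟨U', hU', hc', hm'.trans ?_⟩
  apply mul_le_mul_of_nonneg_right _ hM0
  have h1 : ((t * (g + 1) : ℕ) : ℝ) / t + 2 ≤ g + 3 := by
    push_cast
    rw [mul_div_assoc, mul_div_cancel₀ _ ht0.ne']
    linarith
  have h2 : ((t * (g + 1) : ℕ) : ℝ) + m + 1 ≤ 15 * G ^ 3 := by
    push_cast
    have hLG : L ≤ G - 3 := by linarith
    have h3 : (g : ℝ) + 1 ≤ 14 * G := by linarith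
    have h4 : (t : ℝ) ≤ G ^ 2 := by nlinarith
    have h5 : (t : ℝ) * (g + 1) ≤ G ^ 2 * (14 * G) :=
      mul_le_mul h4 h3 (by positivity) (by positivity)
    have h6 : (m : ℝ) + 1 ≤ G ^ 3 := by
      have h7 : (1 : ℝ) ≤ G ^ 2 := by nlinarith
      have h8 : G ≤ G ^ 3 := by nlinarith
      linarith
    have h7 : G ^ 2 * (14 * G) = 14 * G ^ 3 := by ring
    linarith
  refine (QQ_le C N y (t * (g + 1)) t m (g + 3) (15 * G ^ 3) hy hX (by rw [← hL]; exact hly)
    htpos h1 h2).trans ?_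
  rw [← hL, ← hG]
  apply exp_le_exp.2
  have h3 : log (15 * G ^ 3) ≤ 3 + 3 * log G := by
    rw [Real.log_mul (by norm_num) (by positivity), Real.log_pow]
    have h4 : log (15 : ℝ) ≤ 3 := by
      have h5 : log ((2 : ℝ) ^ 4) = 4 * log 2 := by
        rw [Real.log_pow]
        norm_num
      have h6 : log (15 : ℝ) ≤ log (2 ^ 4) := Real.log_le_log (by norm_num) (by norm_num)
      have := Real.log_two_lt_d9
      linarith
    push_cast
    linarith
  have h4 : ((g : ℝ) + 3) * (log (15 * G ^ 3) + 3 + 2 * log G) ≤ 72 * (a * log G) := by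
    have h5 : (g : ℝ) + 3 ≤ 6 * a := by linarith
    have h6 : log (15 * G ^ 3) + 3 + 2 * log G ≤ 12 * log G := by linarith
    have h7 : 0 ≤ log (15 * G ^ 3) := Real.log_nonneg (by nlinarith [sq_nonneg G, pow_pos (by linarith : (0 : ℝ) < G) 3])
    calc ((g : ℝ) + 3) * (log (15 * G ^ 3) + 3 + 2 * log G) ≤ (6 * a) * (12 * log G) :=
          mul_le_mul h5 h6 (by linarith) (by linarith)
      _ = 72 * (a * log G) := by ring
  have h5 : (C : ℝ) * (((g : ℝ) + 3) * (log (15 * G ^ 3) + 3 + 2 * log G)) ≤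
      72 * C * a * log G := by
    calc (C : ℝ) * (((g : ℝ) + 3) * (log (15 * G ^ 3) + 3 + 2 * log G)) ≤
          C * (72 * (a * log G)) := mul_le_mul_of_nonneg_left h4 hC0
      _ = _ := by ring
  have h6 : (m : ℝ) * L * 10 / t ≤ 640 * m * L / s + 1 := by
    have hmLn : 0 ≤ (m : ℝ) * L := mul_nonneg hm0 (by linarith)
    have hs0 : 0 < s := by linarith
    have h7 : 0 ≤ 640 * m * L / s := by positivity
    rcases min_choice t0 ⌈L ^ 2⌉₊ with h8 | h8
    · rw [h8] at ht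
      have h9 : (m : ℝ) * L * 10 / t ≤ 640 * m * L / s := by
        rw [div_le_div_iff₀ ht0 hs0, ht]
        nlinarith
      linarith
    · rw [h8] at ht
      have h9 : L ^ 2 ≤ t := by
        rw [ht]
        exact Nat.le_ceil _
      have h10 : (m : ℝ) * L * 10 / t ≤ 1 := by
        rw [div_le_one ht0]
        nlinarith
      linarith
  linarith

end Pool.Agent.MP_f02ea4.QR
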