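import Mathlib

/-! Numbers for the third version of the theorem on many large primes. -/

set_option autoImplicit false

namespace Pool.Agent.MP_f02ea4.QR

open Finset Real

/-- Absorption of a power of `1 + log X`. -/
lemma nv3_absorb (ε G : ℝ) (hε : 0 < ε) (hG : 1 ≤ G) (c : ℕ) : ∃ C : ℕ, 1 ≤ C ∧
    ∀ (X y L : ℝ) (k j : ℕ), 3 ≤ X → L = log X → 3 ≤ y → (k : ℝ) ≤ y →
      X ≤ G ^ (j + 1) * (1 + L) ^ c * ((k + 1) * y ^ (1 + ε / 2)) →
      X ≤ (C : ℝ) ^ (j + 1) * ((k + 1) * y ^ (1 + ε)) := by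
  set e : ℝ := c * (4 / ε + 2) + 1 with he
  have he1 : 1 ≤ e := by
    have : 0 ≤ (c : ℝ) * (4 / ε + 2) := by positivity
    linarith
  set C4 : ℝ := 2 * exp (1 / 2) * (2 * e) ^ e with hC4
  have hC41 : 1 ≤ C4 := by
    have h1 : (1 : ℝ) ≤ exp (1 / 2) := one_le_exp (by norm_num)
    have h2 : (1 : ℝ) ≤ (2 * e) ^ e := one_le_rpow (by linarith) (by linarith)
    have h3 : 1 ≤ 2 * exp (1 / 2) := by linarith
    exact one_le_mul_of_one_le_of_one_le h3 h2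
  have hGG : G ≤ C4 ^ 2 * G ^ 2 := by
    have h1 : 1 ≤ C4 ^ 2 := one_le_pow₀ hC41
    have h2 : G ≤ G ^ 2 := le_self_pow₀ hG (by norm_num)
    have h3 : G ^ 2 ≤ C4 ^ 2 * G ^ 2 := le_mul_of_one_le_left (by positivity) h1
    exact h2.trans h3
  refine ⟨⌈C4 ^ 2 * G ^ 2⌉₊, ?_, ?_⟩
  · rw [Nat.one_le_iff_ne_zero, Ne, Nat.ceil_eq_zero, not_le]
    linarith
  intro X y L k j hX hL hy hk h
  have hCC : C4 ^ 2 * G ^ 2 ≤ (⌈C4 ^ 2 * G ^ 2⌉₊ : ℝ) := Nat.le_ceil _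
  have hy0 : 0 < y := by linarith
  have hy1 : 1 ≤ y := by linarith
  have hX0 : 0 < X := by linarith
  have hL0 : 0 ≤ L := by rw [hL]; exact log_nonneg (by linarith)
  have hM1 : 1 ≤ (1 + L) ^ c := one_le_pow₀ (by linarith)
  have hk0 : (0 : ℝ) ≤ k := Nat.cast_nonneg _
  have hj0 : 0 ≤ G ^ (j + 1) := by positivity
  have hyy : 1 ≤ y ^ (1 + ε) := one_le_rpow hy1 (by linarith)
  rcases le_or_gt ((1 + L) ^ c) (y ^ (ε / 2)) with hc | hc
  · -- the power is absorbed by `y`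
    have h1 : G ^ (j + 1) * (1 + L) ^ c * ((k + 1) * y ^ (1 + ε / 2)) ≤
        G ^ (j + 1) * ((k + 1) * y ^ (1 + ε)) := by
      have h2 : y ^ (1 + ε) = y ^ (ε / 2) * y ^ (1 + ε / 2) := by
        rw [← rpow_add hy0]
        congr 1
        ring
      rw [h2]
      have h3 : (1 + L) ^ c * ((k + 1) * y ^ (1 + ε / 2)) ≤
          y ^ (ε / 2) * ((k + 1) * y ^ (1 + ε / 2)) :=
        mul_le_mul_of_nonneg_right hc (by positivity)
      calc G ^ (j + 1) * (1 + L) ^ c * ((k + 1) * y ^ (1 + ε / 2))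
          = G ^ (j + 1) * ((1 + L) ^ c * ((k + 1) * y ^ (1 + ε / 2))) := by ring
        _ ≤ G ^ (j + 1) * (y ^ (ε / 2) * ((k + 1) * y ^ (1 + ε / 2))) :=
            mul_le_mul_of_nonneg_left h3 hj0
        _ = G ^ (j + 1) * ((k + 1) * (y ^ (ε / 2) * y ^ (1 + ε / 2))) := by ring
    refine (h.trans h1).trans ?_
    refine mul_le_mul_of_nonneg_right ?_ (by positivity)
    exact pow_le_pow_left₀ (by linarith) (hGG.trans hCC) _
  · -- `y` is small
    have h1 : y ^ (1 + ε / 2) * (k + 1) ≤ 2 * ((1 + L) ^ c) ^ (4 / ε + 1) := by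
      have h2 : (k : ℝ) + 1 ≤ 2 * y := by linarith
      have h3 : y ^ (1 + ε / 2) * (2 * y) = 2 * (y ^ (ε / 2)) ^ (4 / ε + 1) := by
        rw [← rpow_mul hy0.le]
        have h4 : ε / 2 * (4 / ε + 1) = (1 + ε / 2) + 1 := by
          field_simp
          ring
        rw [h4, rpow_add hy0 (1 + ε / 2) 1, rpow_one]
        ring
      calc y ^ (1 + ε / 2) * (k + 1) ≤ y ^ (1 + ε / 2) * (2 * y) :=
            mul_le_mul_of_nonneg_left h2 (by positivity)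
        _ = 2 * (y ^ (ε / 2)) ^ (4 / ε + 1) := h3
        _ ≤ 2 * ((1 + L) ^ c) ^ (4 / ε + 1) := by
            have := rpow_le_rpow (by positivity : 0 ≤ y ^ (ε / 2)) hc.le
              (by positivity : 0 ≤ 4 / ε + 1)
            linarith
    have h2 : (1 + L) ^ c * ((k + 1) * y ^ (1 + ε / 2)) ≤ 2 * (1 + L) ^ e := by
      have h3 : (1 + L) ^ c * ((1 + L) ^ c) ^ (4 / ε + 1) ≤ (1 + L) ^ e := by
        have h4 : (1 + L) ^ c * ((1 + L) ^ c) ^ (4 / ε + 1) = (1 + L) ^ ((c : ℝ) * (4 / ε + 2)) := by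
          rw [← rpow_natCast, ← rpow_mul (by linarith), ← rpow_add (by linarith)]
          congr 1
          ring
        rw [h4]
        exact rpow_le_rpow_of_exponent_le (by linarith) (by linarith)
      calc (1 + L) ^ c * ((k + 1) * y ^ (1 + ε / 2)) = (1 + L) ^ c * (y ^ (1 + ε / 2) * (k + 1)) := by
            ring
        _ ≤ (1 + L) ^ c * (2 * ((1 + L) ^ c) ^ (4 / ε + 1)) :=
            mul_le_mul_of_nonneg_left h1 (by linarith)
        _ = 2 * ((1 + L) ^ c * ((1 + L) ^ c) ^ (4 / ε + 1)) := by ring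
        _ ≤ 2 * (1 + L) ^ e := by linarith
    -- `(1 + L) ^ e ≤ (2 e) ^ e * exp (1 / 2) * X ^ (1 / 2)`
    have hsq : exp (L / 2) * exp (L / 2) = X := by
      rw [← exp_add, add_halves, hL, exp_log hX0]
    have h3 : (1 + L) ^ e ≤ (2 * e) ^ e * (exp (1 / 2) * exp (L / 2)) := by
      have h4 : (1 + L) / (2 * e) ≤ exp ((1 + L) / (2 * e)) := by
        have := add_one_le_exp ((1 + L) / (2 * e))
        linarith
      have h5 : 1 + L = 2 * e * ((1 + L) / (2 * e)) := by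
        field_simp
      calc (1 + L) ^ e = (2 * e * ((1 + L) / (2 * e))) ^ e := by rw [← h5]
        _ = (2 * e) ^ e * ((1 + L) / (2 * e)) ^ e := by
            rw [mul_rpow (by linarith) (by positivity)]
        _ ≤ (2 * e) ^ e * (exp ((1 + L) / (2 * e))) ^ e := by
            apply mul_le_mul_of_nonneg_left _ (by positivity)
            exact rpow_le_rpow (by positivity) h4 (by linarith)
        _ = (2 * e) ^ e * (exp (1 / 2) * exp (L / 2)) := by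
            rw [← exp_mul, ← exp_add]
            congr 2
            field_simp
    have h4 : X ≤ G ^ (j + 1) * (C4 * exp (L / 2)) := by
      calc X ≤ G ^ (j + 1) * (1 + L) ^ c * ((k + 1) * y ^ (1 + ε / 2)) := h
        _ = G ^ (j + 1) * ((1 + L) ^ c * ((k + 1) * y ^ (1 + ε / 2))) := by ring
        _ ≤ G ^ (j + 1) * (2 * ((2 * e) ^ e * (exp (1 / 2) * exp (L / 2)))) := by
            apply mul_le_mul_of_nonneg_left _ hj0
            linarith
        _ = G ^ (j + 1) * (C4 * exp (L / 2)) := by rw [hC4]; ring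
    have hexp : 0 < exp (L / 2) := exp_pos _
    have h5 : exp (L / 2) ≤ G ^ (j + 1) * C4 := by
      have h6 : exp (L / 2) * exp (L / 2) ≤ (G ^ (j + 1) * C4) * exp (L / 2) := by
        rw [hsq]
        linarith
      exact le_of_mul_le_mul_right h6 hexp
    have h6 : X ≤ (G ^ (j + 1) * C4) ^ 2 := by
      rw [← hsq, sq]
      exact mul_le_mul h5 h5 hexp.le (by positivity)
    have h7 : (G ^ (j + 1) * C4) ^ 2 ≤ (C4 ^ 2 * G ^ 2) ^ (j + 1) := by
      have h8 : C4 ^ 2 ≤ (C4 ^ 2) ^ (j + 1) := le_self_pow₀ (one_le_pow₀ hC41) (by omega)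
      calc (G ^ (j + 1) * C4) ^ 2 = C4 ^ 2 * (G ^ 2) ^ (j + 1) := by
            rw [mul_pow, ← pow_mul, ← pow_mul, mul_comm, mul_comm (j + 1) 2]
        _ ≤ (C4 ^ 2) ^ (j + 1) * (G ^ 2) ^ (j + 1) := mul_le_mul_of_nonneg_right h8 (by positivity)
        _ = (C4 ^ 2 * G ^ 2) ^ (j + 1) := (mul_pow (C4 ^ 2) (G ^ 2) (j + 1)).symm
    have h8 : (C4 ^ 2 * G ^ 2) ^ (j + 1) ≤ (⌈C4 ^ 2 * G ^ 2⌉₊ : ℝ) ^ (j + 1) :=
      pow_le_pow_left₀ (by positivity) hCC _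
    have h9 : 1 ≤ (k + 1) * y ^ (1 + ε) := one_le_mul_of_one_le_of_one_le (by linarith) hyy
    calc X ≤ (⌈C4 ^ 2 * G ^ 2⌉₊ : ℝ) ^ (j + 1) := (h6.trans h7).trans h8
      _ ≤ (⌈C4 ^ 2 * G ^ 2⌉₊ : ℝ) ^ (j + 1) * ((k + 1) * y ^ (1 + ε)) :=
          le_mul_of_one_le_right (by positivity) h9

theorem numbers_v3 (ε : ℝ) (hε : 0 < ε) : ∃ (η : ℝ) (A : ℕ), 0 < η ∧ η ≤ 1 / 2 ∧ 2 ≤ A ∧
    ∀ (C0 : ℕ) (K1 : ℝ), 1 ≤ C0 → 1 ≤ K1 → ∃ C : ℕ, 1 ≤ C ∧
    ∀ (X y L w Zs : ℝ) (k j t : ℕ), 3 ≤ X → L = log X → 3 ≤ y → y ≤ X → (k : ℝ) ≤ y →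
      (j : ℝ) ≤ L → t = A * (j + 1) → w = K1 * y ^ (1 + 2 * η) * (1 + L) →
      Zs = exp (C0 * (3 * log (((t : ℝ) + j + 1) * log y * (2 + (L + log y) + log w))) +
        2 * (j : ℝ) / t * log w) * w →
      X ≤ 2 ^ (2 * j + t) * (k * log y + k * Zs + log (4 * X)) →
      X ≤ (C : ℝ) ^ (j + 1) * ((k + 1) * y ^ (1 + ε)) := by
  refine ⟨min (1 / 2) (ε / 16), ⌈16 / ε⌉₊ + 2, ?_, min_le_left _ _, by omega, ?_⟩
  · exact lt_min (by norm_num) (by linarith)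
  set η := min (1 / 2 : ℝ) (ε / 16) with hη
  set A := ⌈16 / ε⌉₊ + 2 with hA
  have hη0 : 0 < η := lt_min (by norm_num) (by linarith)
  have hη1 : η ≤ 1 / 2 := min_le_left _ _
  have hη2 : η ≤ ε / 16 := min_le_right _ _
  have hAR : 16 / ε ≤ (A : ℝ) := by
    rw [hA]
    push_cast
    have := Nat.le_ceil (16 / ε)
    linarith
  have hA2 : (2 : ℝ) ≤ A := by
    rw [hA]
    push_cast
    have : (0 : ℝ) ≤ (⌈16 / ε⌉₊ : ℝ) := Nat.cast_nonneg _
    linarith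
  have hexpo : (1 + 2 * η) * (1 + 2 / (A : ℝ)) ≤ 1 + ε / 2 := by
    have h1 : 2 / (A : ℝ) ≤ ε / 8 := by
      rw [div_le_div_iff₀ (by linarith) (by norm_num)]
      rw [div_le_iff₀ hε] at hAR
      linarith
    have h2 : 0 ≤ 2 / (A : ℝ) := by positivity
    have h3 : 2 * η * (2 / (A : ℝ)) ≤ 1 * (2 / (A : ℝ)) :=
      mul_le_mul_of_nonneg_right (by linarith) h2
    have h4 : (1 + 2 * η) * (1 + 2 / (A : ℝ)) = 1 + 2 * η + 2 / (A : ℝ) + 2 * η * (2 / (A : ℝ)) := by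
      ring
    linarith
  intro C0 K1 hC0 hK1
  set c1 : ℝ := (A + 1) * (7 + K1) with hc1
  have hc11 : 1 ≤ c1 := one_le_mul_of_one_le_of_one_le (by linarith) (by linarith)
  set c2 : ℝ := 4 * K1 ^ 2 * c1 ^ (3 * C0) with hc2
  have hc21 : 1 ≤ c2 := by
    have h1 : 1 ≤ K1 ^ 2 := one_le_pow₀ hK1
    have h2 : 1 ≤ c1 ^ (3 * C0) := one_le_pow₀ hc11
    have h3 : (1 : ℝ) ≤ 4 * K1 ^ 2 := by linarith
    exact one_le_mul_of_one_le_of_one_le h3 h2
  set G : ℝ := 2 ^ (A + 2) * 2 ^ (3 * C0) * c2 with hG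
  have hG1 : 1 ≤ G := by
    have h1 : (1 : ℝ) ≤ 2 ^ (A + 2) := one_le_pow₀ (by norm_num)
    have h2 : (1 : ℝ) ≤ 2 ^ (3 * C0) := one_le_pow₀ (by norm_num)
    exact one_le_mul_of_one_le_of_one_le (one_le_mul_of_one_le_of_one_le h1 h2) hc21
  obtain ⟨C, hC1, hC⟩ := nv3_absorb ε G hε hG1 (6 * C0 + 2)
  refine ⟨C, hC1, ?_⟩
  intro X y L w Zs k j t hX hL hy hyX hk hjL ht hw hZs h
  refine hC X y L k j hX hL hy hk (h.trans ?_)
  have hX0 : 0 < X := by linarith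
  have hy0 : 0 < y := by linarith
  have hly : log y ≤ L := by rw [hL]; exact log_le_log hy0 hyX
  have hly0 : 0 < log y := log_pos (by linarith)
  have hL0 : 0 ≤ L := hly0.le.trans hly
  have hk0 : (0 : ℝ) ≤ k := Nat.cast_nonneg _
  have hj0 : (0 : ℝ) ≤ j := Nat.cast_nonneg _
  have htR : (t : ℝ) = A * (j + 1) := by rw [ht]; push_cast; ring
  -- `w`
  have hyη1 : 1 ≤ y ^ (1 + 2 * η) := one_le_rpow (by linarith) (by linarith)
  have hw1 : 1 ≤ w := by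
    rw [hw]
    exact one_le_mul_of_one_le_of_one_le (one_le_mul_of_one_le_of_one_le hK1 hyη1) (by linarith)
  have hw0 : 0 < w := by linarith
  have hlw : log w ≤ K1 + 3 * L := by
    rw [hw, log_mul (by positivity) (by positivity), log_mul (by positivity) (by positivity),
      log_rpow hy0]
    have h1 : log K1 ≤ K1 - 1 := log_le_sub_one_of_pos (by linarith)
    have h2 : log (1 + L) ≤ (1 + L) - 1 := log_le_sub_one_of_pos (by linarith)
    have h3 : (1 + 2 * η) * log y ≤ 2 * L :=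
      mul_le_mul (by linarith) hly hly0.le (by norm_num)
    linarith
  have hlw0 : 0 ≤ log w := log_nonneg hw1
  -- `S`
  set S := ((t : ℝ) + j + 1) * log y * (2 + (L + log y) + log w) with hS
  have hS0 : 0 < S := by
    rw [hS]
    positivity
  set S1 := c1 * (j + 1) * (1 + L) ^ 2 with hS1
  have hSS1 : S ≤ S1 := by
    have h1 : (t : ℝ) + j + 1 = (A + 1) * (j + 1) := by rw [htR]; ring
    have h2 : 2 + (L + log y) + log w ≤ (7 + K1) * (1 + L) := by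
      have h4 : 0 ≤ K1 * L := by positivity
      have h5 : (7 + K1) * (1 + L) = 7 + K1 + 7 * L + K1 * L := by ring
      linarith
    have h3 : log y ≤ 1 + L := by linarith
    rw [hS, hS1, h1]
    calc ((A : ℝ) + 1) * (j + 1) * log y * (2 + (L + log y) + log w)
        ≤ ((A : ℝ) + 1) * (j + 1) * (1 + L) * ((7 + K1) * (1 + L)) := by
          apply mul_le_mul _ h2 (by positivity) (by positivity)
          exact mul_le_mul_of_nonneg_left h3 (by positivity)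
      _ = c1 * (j + 1) * (1 + L) ^ 2 := by rw [hc1]; ring
  have hS11 : 1 ≤ S1 := by
    rw [hS1]
    exact one_le_mul_of_one_le_of_one_le
      (one_le_mul_of_one_le_of_one_le hc11 (by linarith)) (one_le_pow₀ (by linarith))
  -- `Zs`
  have hZs' : Zs ≤ S1 ^ (3 * C0) * (K1 ^ 2 * (1 + L) ^ 2 * y ^ (1 + ε / 2)) := by
    rw [hZs, exp_add]
    have h1 : exp (C0 * (3 * log S)) = S ^ (3 * C0) := by
      rw [show (C0 : ℝ) * (3 * log S) = ((3 * C0 : ℕ) : ℝ) * log S by push_cast; ring,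
        exp_nat_mul, exp_log hS0]
    have h2 : exp (2 * (j : ℝ) / t * log w) * w ≤ w ^ (1 + 2 / (A : ℝ)) := by
      have h3 : w ^ (1 + 2 / (A : ℝ)) = exp (2 / (A : ℝ) * log w) * w := by
        rw [rpow_add hw0, rpow_one, rpow_def_of_pos hw0, mul_comm w, mul_comm (log w)]
      rw [h3]
      apply mul_le_mul_of_nonneg_right _ hw0.le
      apply exp_le_exp.2
      apply mul_le_mul_of_nonneg_right _ hlw0
      rw [htR, div_le_div_iff₀ (by positivity) (by positivity)]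
      have h4 : 2 * ((A : ℝ) * (j + 1)) = 2 * j * A + 2 * A := by ring
      linarith
    have h3 : w ^ (1 + 2 / (A : ℝ)) ≤ K1 ^ 2 * (1 + L) ^ 2 * y ^ (1 + ε / 2) := by
      have hq1 : 0 ≤ 2 / (A : ℝ) := by positivity
      have hq2 : 1 + 2 / (A : ℝ) ≤ 2 := by
        have : 2 / (A : ℝ) ≤ 1 := by rw [div_le_one (by linarith)]; exact hA2
        linarith
      have h4 : (K1 * (1 + L)) ^ (1 + 2 / (A : ℝ)) ≤ (K1 * (1 + L)) ^ (2 : ℝ) :=
        rpow_le_rpow_of_exponent_le (one_le_mul_of_one_le_of_one_le hK1 (by linarith)) hq2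
      have h5 : (K1 * (1 + L)) ^ (2 : ℝ) = K1 ^ 2 * (1 + L) ^ 2 := by
        rw [rpow_two, mul_pow]
      have h6 : (y ^ (1 + 2 * η)) ^ (1 + 2 / (A : ℝ)) ≤ y ^ (1 + ε / 2) := by
        rw [← rpow_mul hy0.le]
        exact rpow_le_rpow_of_exponent_le (by linarith) hexpo
      calc w ^ (1 + 2 / (A : ℝ)) = ((K1 * (1 + L)) * y ^ (1 + 2 * η)) ^ (1 + 2 / (A : ℝ)) := by
            rw [hw]
            congr 1
            ring
        _ = (K1 * (1 + L)) ^ (1 + 2 / (A : ℝ)) * (y ^ (1 + 2 * η)) ^ (1 + 2 / (A : ℝ)) := by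
            rw [mul_rpow (by positivity) (by positivity)]
        _ ≤ (K1 ^ 2 * (1 + L) ^ 2) * y ^ (1 + ε / 2) := by
            apply mul_le_mul (h4.trans h5.le) h6 (by positivity) (by positivity)
    rw [h1, mul_assoc]
    exact mul_le_mul (pow_le_pow_left₀ hS0.le hSS1 _) (h2.trans h3) (by positivity) (by positivity)
  -- the bracket
  have hyε1 : 1 ≤ y ^ (1 + ε / 2) := one_le_rpow (by linarith) (by linarith)
  have hlog4 : log (4 * X) ≤ 2 + L := by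
    rw [log_mul (by norm_num) hX0.ne', hL]
    have h1 : log (4 : ℝ) = 2 * log 2 := by
      rw [show (4 : ℝ) = 2 ^ 2 by norm_num, log_pow]
      push_cast
      ring
    have := log_two_lt_d9
    linarith
  set Q := S1 ^ (3 * C0) * (K1 ^ 2 * (1 + L) ^ 2 * y ^ (1 + ε / 2)) with hQ
  have hQ1 : 1 + L ≤ Q := by
    have h1 : 1 ≤ S1 ^ (3 * C0) := one_le_pow₀ hS11
    have h2 : 1 ≤ K1 ^ 2 := one_le_pow₀ hK1
    have h3 : 1 + L ≤ (1 + L) ^ 2 := le_self_pow₀ (by linarith) (by norm_num)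
    have h4 : (1 + L) ^ 2 ≤ K1 ^ 2 * (1 + L) ^ 2 := le_mul_of_one_le_left (by positivity) h2
    have h5 : K1 ^ 2 * (1 + L) ^ 2 ≤ K1 ^ 2 * (1 + L) ^ 2 * y ^ (1 + ε / 2) :=
      le_mul_of_one_le_right (by positivity) hyε1
    have h6 : K1 ^ 2 * (1 + L) ^ 2 * y ^ (1 + ε / 2) ≤ Q := le_mul_of_one_le_left (by positivity) h1
    linarith
  have hbr : k * log y + k * Zs + log (4 * X) ≤ 4 * Q * (k + 1) := by
    have h1 : k * log y ≤ k * Q := mul_le_mul_of_nonneg_left (by linarith) hk0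
    have h2 : k * Zs ≤ k * Q := mul_le_mul_of_nonneg_left hZs' hk0
    have h3 : 0 ≤ k * Q := by
      have : 0 ≤ Q := by linarith
      positivity
    have h4 : 4 * Q * (k + 1) = 4 * (k * Q) + 4 * Q := by ring
    linarith
  -- powers of constants
  have hj2 : ((j : ℝ) + 1) ≤ 2 ^ (j + 1) := by
    have := (Nat.lt_two_pow_self (n := j + 1)).le
    exact_mod_cast this
  have hpow1 : (2 : ℝ) ^ (2 * j + t) ≤ (2 ^ (A + 2)) ^ (j + 1) := by
    rw [← pow_mul]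
    apply pow_le_pow_right₀ (by norm_num)
    rw [ht]
    have h1 : (A + 2) * (j + 1) = A * (j + 1) + 2 * j + 2 := by ring
    linarith
  have hpow2 : S1 ^ (3 * C0) ≤ c1 ^ (3 * C0) * (2 ^ (3 * C0)) ^ (j + 1) * (1 + L) ^ (6 * C0) := by
    rw [hS1, mul_pow, mul_pow, ← pow_mul (1 + L)]
    have h1 : ((j : ℝ) + 1) ^ (3 * C0) ≤ (2 ^ (3 * C0)) ^ (j + 1) := by
      calc ((j : ℝ) + 1) ^ (3 * C0) ≤ (2 ^ (j + 1)) ^ (3 * C0) :=
            pow_le_pow_left₀ (by positivity) hj2 _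
        _ = (2 ^ (3 * C0)) ^ (j + 1) := by rw [← pow_mul, ← pow_mul, mul_comm]
    rw [show 2 * (3 * C0) = 6 * C0 by ring]
    apply mul_le_mul_of_nonneg_right _ (by positivity)
    exact mul_le_mul_of_nonneg_left h1 (by positivity)
  have hc2j : c2 ≤ c2 ^ (j + 1) := le_self_pow₀ hc21 (by omega)
  have hLpow : (1 + L) ^ (6 * C0 + 2) = (1 + L) ^ (6 * C0) * (1 + L) ^ 2 := pow_add _ _ _
  calc (2 : ℝ) ^ (2 * j + t) * (k * log y + k * Zs + log (4 * X))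
      ≤ (2 ^ (A + 2)) ^ (j + 1) * (4 * Q * (k + 1)) := by
        apply mul_le_mul hpow1 hbr _ (by positivity)
        have h1 : 0 ≤ Zs := by rw [hZs]; positivity
        have h2 : 0 ≤ log (4 * X) := log_nonneg (by linarith)
        positivity
    _ ≤ (2 ^ (A + 2)) ^ (j + 1) * (4 * ((c1 ^ (3 * C0) * (2 ^ (3 * C0)) ^ (j + 1) *
          (1 + L) ^ (6 * C0)) * (K1 ^ 2 * (1 + L) ^ 2 * y ^ (1 + ε / 2))) * (k + 1)) := by
        rw [hQ]
        gcongr
    _ = (2 ^ (A + 2)) ^ (j + 1) * (2 ^ (3 * C0)) ^ (j + 1) * c2 * (1 + L) ^ (6 * C0 + 2) *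
          ((k + 1) * y ^ (1 + ε / 2)) := by
        rw [hLpow, hc2]
        ring
    _ ≤ (2 ^ (A + 2)) ^ (j + 1) * (2 ^ (3 * C0)) ^ (j + 1) * c2 ^ (j + 1) *
          (1 + L) ^ (6 * C0 + 2) * ((k + 1) * y ^ (1 + ε / 2)) := by
        gcongr
    _ = G ^ (j + 1) * (1 + L) ^ (6 * C0 + 2) * ((k + 1) * y ^ (1 + ε / 2)) := by
        rw [hG, mul_pow (2 ^ (A + 2) * 2 ^ (3 * C0)) c2 (j + 1),
          mul_pow (2 ^ (A + 2) : ℝ) (2 ^ (3 * C0)) (j + 1)]

end Pool.Agent.MP_f02ea4.QR
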