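import Mathlib

/-! The dichotomy (MP_f02ea4). -/

set_option autoImplicit false

namespace Pool.Agent.MP_f02ea4.QR

open Finset Real

/-- `log L ≤ √L` -/
lemma dich_log (L : ℝ) (hL : 0 < L) : log L ≤ √L := by
  have hs : 0 < √L := Real.sqrt_pos.2 hL
  have h1 : log (√L / 2) ≤ √L / 2 - 1 := Real.log_le_sub_one_of_pos (by linarith)
  rw [Real.log_div hs.ne' (by norm_num), Real.log_sqrt hL.le] at h1
  have h2 := Real.log_two_lt_d9
  linarith

/-- numbers of the dichotomy -/
lemma dich_num (C0 C' : ℕ) (hC0 : 1 ≤ C0) (hC' : 40 * C0 ≤ C') (L w m l lam Y x : ℝ)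
    (hL : 1 ≤ L) (hx1 : 1 ≤ x) (hxs : x ≤ √L / C') (hw0 : 0 ≤ w) (hw : w ≤ exp x)
    (hl : l = 1 + log (1 + w / L)) (hY1 : 1 ≤ Y) (hY : Y ≤ exp (L / (C' * x)))
    (hlam : lam = log (L + Y))
    (h : L ≤ C0 * (m + l * (lam + min l (lam * Y / L)))) : L ≤ 2 * C0 * m := by
  have hC0R : (1 : ℝ) ≤ C0 := by exact_mod_cast hC0
  have hC'R : 40 * (C0 : ℝ) ≤ C' := by exact_mod_cast hC'
  have hC'1 : (40 : ℝ) ≤ C' := by linarith
  have hC'p : 0 < (C' : ℝ) := by linarith
  have hL0 : 0 < L := by linarith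
  have hs0 : 0 ≤ √L := Real.sqrt_nonneg _
  have hss : √L * √L = L := Real.mul_self_sqrt hL0.le
  have hCx : x * C' ≤ √L := (le_div_iff₀ hC'p).1 hxs
  have hCx0 : 0 < C' * x := by positivity
  obtain ⟨v, hv⟩ : ∃ v : ℝ, v = L / (C' * x) := ⟨_, rfl⟩
  rw [← hv] at hY
  have hvx : v * (C' * x) = L := by rw [hv]; field_simp
  have hvs : √L ≤ v := by
    rw [hv, le_div_iff₀ hCx0]
    nlinarith
  have hs1 : 1 ≤ √L := by nlinarith
  have hv1 : 1 ≤ v := by linarith
  have hlog2 : log (2 : ℝ) ≤ 1 := by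
    have := Real.log_two_lt_d9
    linarith
  have hexpx : 1 ≤ exp x := Real.one_le_exp (by linarith)
  -- l
  have hwL : w / L ≤ exp x := by
    rw [div_le_iff₀ hL0]
    nlinarith [exp_pos x]
  have hwL0 : 0 ≤ w / L := by positivity
  have hl2 : l ≤ 3 * x := by
    have h1 : log (1 + w / L) ≤ log (2 * exp x) := Real.log_le_log (by linarith) (by linarith)
    rw [Real.log_mul (by norm_num) (exp_pos _).ne', Real.log_exp] at h1
    rw [hl]
    linarith
  have hl1 : 1 ≤ l := by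
    rw [hl]
    have := Real.log_nonneg (by linarith : 1 ≤ 1 + w / L)
    linarith
  -- lam
  have hLv : L ≤ exp v := by
    have h1 := dich_log L hL0
    rw [← Real.log_le_iff_le_exp hL0]
    linarith
  have hlam2 : lam ≤ 2 * v := by
    have h1 : L + Y ≤ 2 * exp v := by linarith
    have h2 := Real.log_le_log (by linarith) h1
    rw [Real.log_mul (by norm_num) (exp_pos _).ne', Real.log_exp] at h2
    rw [hlam]
    linarith
  have hlam0 : 0 ≤ lam := by
    rw [hlam]
    exact Real.log_nonneg (by linarith)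
  have h2 : min l (lam * Y / L) ≤ 3 * x := (min_le_left _ _).trans hl2
  have h3 : 0 ≤ min l (lam * Y / L) := le_min (by linarith) (by positivity)
  have h4 : l * (lam + min l (lam * Y / L)) ≤ (3 * x) * (2 * v + 3 * x) :=
    mul_le_mul hl2 (by linarith) (by linarith) (by linarith)
  have h5 : (C0 : ℝ) * ((3 * x) * (2 * v + 3 * x)) ≤ L / 2 := by
    have h6 : 40 * (C0 : ℝ) * (x * v) ≤ L := by
      have h7 : 0 ≤ x * v := by positivity
      have h8 : 40 * (C0 : ℝ) * (x * v) ≤ C' * (x * v) := mul_le_mul_of_nonneg_right hC'R h7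
      have h9 : (C' : ℝ) * (x * v) = v * (C' * x) := by ring
      linarith
    have h7 : x ≤ v := by
      have h8 : x * 1 ≤ x * C' := mul_le_mul_of_nonneg_left (by linarith) (by linarith)
      linarith
    have h8 : 40 * (C0 : ℝ) * (x * x) ≤ L := by
      have h9 : 40 * (C0 : ℝ) * (x * x) ≤ 40 * (C0 : ℝ) * (x * v) := by
        apply mul_le_mul_of_nonneg_left _ (by linarith)
        exact mul_le_mul_of_nonneg_left h7 (by linarith)
      linarith
    have h9 : (C0 : ℝ) * ((3 * x) * (2 * v + 3 * x)) =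
        6 * (C0 * (x * v)) + 9 * (C0 * (x * x)) := by ring
    rw [h9]
    linarith
  have h6 : (C0 : ℝ) * (m + l * (lam + min l (lam * Y / L))) ≤ C0 * m + L / 2 := by
    rw [mul_add]
    have := mul_le_mul_of_nonneg_left h4 (by linarith : (0 : ℝ) ≤ C0)
    linarith
  linarith

/-- few prime factors are impossible -/
lemma dich_two (C0 : ℕ) (hC0 : 1 ≤ C0) (L w m l lam : ℝ) (hL : 1600 * (C0 : ℝ) ^ 2 ≤ L)
    (hw0 : 0 ≤ w) (hw : w ≤ 2) (hm : m ≤ 2)
    (hl : l = 1 + log (1 + w / L)) (hlam : lam = log (L + log 3))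
    (h : L ≤ C0 * (m + l * (lam + min l (lam * log 3 / L)))) : False := by
  have hC0R : (1 : ℝ) ≤ C0 := by exact_mod_cast hC0
  have hC1 : (1 : ℝ) ≤ (C0 : ℝ) ^ 2 := one_le_pow₀ hC0R
  have hL1 : 1600 ≤ L := by linarith
  have hL0 : 0 < L := by linarith
  have hss : √L * √L = L := Real.mul_self_sqrt hL0.le
  have hs40 : 40 * (C0 : ℝ) ≤ √L := by
    apply Real.le_sqrt_of_sq_le
    nlinarith
  have hlog3 : log (3 : ℝ) ≤ 2 := by
    have := Real.log_le_sub_one_of_pos (by norm_num : (0 : ℝ) < 3)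
    linarith
  have hlog30 : 0 ≤ log (3 : ℝ) := Real.log_nonneg (by norm_num)
  have hwL0 : 0 ≤ w / L := by positivity
  have hwL : w / L ≤ 1 := by
    rw [div_le_one hL0]
    linarith
  have hl2 : l ≤ 2 := by
    have h1 := Real.log_le_sub_one_of_pos (by linarith : 0 < 1 + w / L)
    rw [hl]
    linarith
  have hl1 : 1 ≤ l := by
    rw [hl]
    have := Real.log_nonneg (by linarith : 1 ≤ 1 + w / L)
    linarith
  have hlam2 : lam ≤ √L + 1 := by
    have h1 : L + log 3 ≤ L * 2 := by linarith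
    have h2 := Real.log_le_log (by linarith) h1
    rw [Real.log_mul hL0.ne' (by norm_num)] at h2
    have h3 := dich_log L hL0
    have h4 := Real.log_two_lt_d9
    rw [hlam]
    linarith
  have hlam0 : 0 ≤ lam := by
    rw [hlam]
    exact Real.log_nonneg (by linarith)
  have h2 : min l (lam * log 3 / L) ≤ 2 := (min_le_left _ _).trans hl2
  have h3 : 0 ≤ min l (lam * log 3 / L) := le_min (by linarith) (by positivity)
  have h4 : l * (lam + min l (lam * log 3 / L)) ≤ 2 * (√L + 3) :=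
    mul_le_mul hl2 (by linarith) (by linarith) (by linarith)
  have h5 : (C0 : ℝ) * (m + l * (lam + min l (lam * log 3 / L))) ≤ C0 * (2 + 2 * (√L + 3)) :=
    mul_le_mul_of_nonneg_left (by linarith) (by linarith)
  nlinarith

/-- THE DICHOTOMY from the final inequality -/
theorem dich (C0 : ℕ) (hC0 : 1 ≤ C0) (h : ∀ N : ℕ, Odd N → Nat.Perfect N →
    ∀ (y m : ℕ) (l lam : ℝ), 3 ≤ y → m = (N.primeFactors.filter (y < ·)).card →
      l = 1 + log (1 + (N.primeFactors.filter (· ≤ y)).card / log (log (N : ℝ))) →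
      lam = log (log (log (N : ℝ)) + log y) →
      log (log (N : ℝ)) ≤ C0 * (m + l * (lam + min l (lam * log y / log (log N))))) :
    ∃ C : ℕ, 1 ≤ C ∧ ∀ C1 : ℕ, C ≤ C1 → ∀ N : ℕ, Odd N → Nat.Perfect N → C1 ≤ N →
      exp (√(log (log (N : ℝ))) / C1) ≤ N.primeFactors.card ∨
      log (log (N : ℝ)) ≤ C1 * (N.primeFactors.filter
        (fun p : ℕ => exp (exp (log (log (N : ℝ)) / (C1 * log N.primeFactors.card))) < p)).card := by
  obtain ⟨C', hC'⟩ : ∃ C' : ℕ, C' = 40 * C0 := ⟨_, rfl⟩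
  obtain ⟨K, hK⟩ : ∃ K : ℕ, K = ⌈exp (exp (1600 * (C0 : ℝ) ^ 2))⌉₊ := ⟨_, rfl⟩
  refine ⟨C' + K, by omega, ?_⟩
  intro C1 hC1 N hodd hN hCN
  have hC0R : (1 : ℝ) ≤ C0 := by exact_mod_cast hC0
  have hKN : exp (exp (1600 * (C0 : ℝ) ^ 2)) ≤ N := by
    have h1 : exp (exp (1600 * (C0 : ℝ) ^ 2)) ≤ K := by rw [hK]; exact Nat.le_ceil _
    have h2 : (K : ℝ) ≤ N := by exact_mod_cast (by omega : K ≤ N)
    linarith
  have hL : 1600 * (C0 : ℝ) ^ 2 ≤ log (log (N : ℝ)) := by
    have h1 := Real.log_le_log (exp_pos _) hKN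
    rw [Real.log_exp] at h1
    have h2 := Real.log_le_log (exp_pos _) h1
    rwa [Real.log_exp] at h2
  obtain ⟨L, hLd⟩ : ∃ L : ℝ, L = log (log (N : ℝ)) := ⟨_, rfl⟩
  have hC'1 : 40 ≤ C' := by omega
  have hC'R : (40 : ℝ) ≤ C' := by exact_mod_cast hC'1
  have hC1R : (C' : ℝ) ≤ C1 := by exact_mod_cast (by omega : C' ≤ C1)
  have hC02 : (1 : ℝ) ≤ (C0 : ℝ) ^ 2 := one_le_pow₀ hC0R
  rw [← hLd] at hL ⊢
  have hL1 : 1 ≤ L := by linarith
  have hs0 : 0 ≤ √L := Real.sqrt_nonneg _
  have hsC : √L / C1 ≤ √L / C' := div_le_div_of_nonneg_left hs0 (by linarith) hC1R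
  by_cases hc : exp (√L / C1) ≤ N.primeFactors.card
  · exact Or.inl hc
  right
  rw [not_le] at hc
  -- at least three prime factors
  have hω3 : 3 ≤ N.primeFactors.card := by
    by_contra hlt
    have hk2 : (N.primeFactors.filter (· ≤ 3)).card ≤ 2 := by
      have := Finset.card_filter_le N.primeFactors (· ≤ 3)
      omega
    have hm2 : (N.primeFactors.filter (3 < ·)).card ≤ 2 := by
      have := Finset.card_filter_le N.primeFactors (3 < ·)
      omega
    have h1 := h N hodd hN 3 _ _ _ le_rfl rfl rfl rfl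
    rw [← hLd] at h1
    push_cast at h1
    exact dich_two C0 hC0 L _ _ _ _ hL (Nat.cast_nonneg _) (by exact_mod_cast hk2)
      (by exact_mod_cast hm2) rfl rfl h1
  have hω3R : (3 : ℝ) ≤ N.primeFactors.card := by exact_mod_cast hω3
  obtain ⟨x, hx⟩ : ∃ x : ℝ, x = log (N.primeFactors.card : ℝ) := ⟨_, rfl⟩
  rw [← hx]
  have hx1 : 1 ≤ x := by
    rw [hx, Real.le_log_iff_exp_le (by linarith)]
    have := Real.exp_one_lt_d9
    linarith
  have hxs : x ≤ √L / C' := by
    have h1 := Real.log_le_log (by linarith) hc.le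
    rw [Real.log_exp] at h1
    linarith
  obtain ⟨Z, hZ⟩ : ∃ Z : ℝ, Z = exp (exp (L / (C' * x))) := ⟨_, rfl⟩
  have hCx0 : 0 < C' * x := by nlinarith
  have hLx : 1 ≤ L / (C' * x) := by
    rw [le_div_iff₀ hCx0]
    have h1 : x * C' ≤ √L := (le_div_iff₀ (by linarith)).1 hxs
    have hss : √L * √L = L := Real.mul_self_sqrt (by linarith)
    have h2 : 1 ≤ √L := by
      by_contra h3
      rw [not_le] at h3
      nlinarith
    nlinarith
  have hZ3 : 3 ≤ Z := by
    have h1 : 2 ≤ exp (L / (C' * x)) := by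
      have := Real.add_one_le_exp (L / (C' * x))
      linarith
    have h2 := Real.add_one_le_exp (exp (L / (C' * x)))
    rw [hZ]
    linarith
  obtain ⟨y, hy⟩ : ∃ y : ℕ, y = ⌊Z⌋₊ := ⟨_, rfl⟩
  have hy3 : 3 ≤ y := by
    rw [hy]
    exact Nat.le_floor (by exact_mod_cast hZ3)
  have hy3R : (3 : ℝ) ≤ y := by exact_mod_cast hy3
  have hyZ : (y : ℝ) ≤ Z := by rw [hy]; exact Nat.floor_le (by linarith)
  have hlogy : log (y : ℝ) ≤ exp (L / (C' * x)) := by
    have h1 := Real.log_le_log (by linarith) hyZ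
    rw [hZ, Real.log_exp] at h1
    exact h1
  have hlogy1 : 1 ≤ log (y : ℝ) := by
    rw [Real.le_log_iff_exp_le (by linarith)]
    have := Real.exp_one_lt_d9
    linarith
  have hmain := h N hodd hN y _ _ _ hy3 rfl rfl rfl
  rw [← hLd] at hmain
  have key := dich_num C0 C' hC0 (by omega) L ((N.primeFactors.filter (· ≤ y)).card)
    ((N.primeFactors.filter (y < ·)).card) _ _ (log y) x hL1 hx1 hxs (Nat.cast_nonneg _)
    (by
      have h1 : ((N.primeFactors.filter (· ≤ y)).card : ℝ) ≤ N.primeFactors.card := by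
        exact_mod_cast Finset.card_filter_le _ _
      have h2 : (N.primeFactors.card : ℝ) = exp x := by
        rw [hx, Real.exp_log (by linarith)]
      linarith) rfl hlogy1 hlogy rfl hmain
  have hsub : (N.primeFactors.filter (y < ·)) ⊆
      (N.primeFactors.filter (fun p : ℕ => exp (exp (L / (C1 * x))) < p)) := by
    intro p hp
    rw [Finset.mem_filter] at hp ⊢
    refine ⟨hp.1, ?_⟩
    have h1 : Z < p := by
      have h2 := hp.2
      rw [hy] at h2
      exact (Nat.floor_lt (by linarith)).1 h2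
    have h2 : exp (exp (L / (C1 * x))) ≤ Z := by
      rw [hZ]
      apply exp_le_exp.2
      apply exp_le_exp.2
      apply div_le_div_of_nonneg_left (by linarith) hCx0
      exact mul_le_mul_of_nonneg_right hC1R (by linarith)
    linarith
  have hcard : ((N.primeFactors.filter (y < ·)).card : ℝ) ≤
      (N.primeFactors.filter (fun p : ℕ => exp (exp (L / (C1 * x))) < p)).card := by
    exact_mod_cast Finset.card_le_card hsub
  have hcR : 2 * (C0 : ℝ) ≤ C1 := by
    have : 2 * C0 ≤ C1 := by omega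
    exact_mod_cast this
  have h0 : (0 : ℝ) ≤ ((N.primeFactors.filter (y < ·)).card : ℝ) := Nat.cast_nonneg _
  have h1 : 2 * (C0 : ℝ) * ((N.primeFactors.filter (y < ·)).card : ℝ) ≤
      C1 * (N.primeFactors.filter (fun p : ℕ => exp (exp (L / (C1 * x))) < p)).card :=
    mul_le_mul hcR hcard h0 (by linarith)
  linarith

end Pool.Agent.MP_f02ea4.QR
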