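import Mathlib
import Pool.Agent.Lib.MP_f02ea4_nt.Mg.G026
import Pool.Agent.Lib.MP_f02ea4_nt.Mg.G025
import Pool.Agent.Lib.MP_f02ea4_nt.Mg.G020

/-! The final inequality (MP_f02ea4). -/

set_option autoImplicit false

namespace Pool.Agent.MP_f02ea4.QR

open Finset Real
open Pool.Agent.Lib.MP_f02ea4_nt.Sm
open Pool.Agent.Lib.MP_f02ea4_nt.Ml (Lg basics loglog_ge)
open Pool.Agent.Lib.MP_f02ea4_nt.AE (Vs)

/-- `log (2 + z) ≤ 13 log z` for `z ≥ 1 + 1/6` -/
lemma log_two_add (z : ℝ) (hz : 7 / 6 ≤ z) : log (2 + z) ≤ 13 * log z := by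
  have hz0 : 0 < z := by linarith
  have h1 : 1 - z⁻¹ ≤ log z := Real.one_sub_inv_le_log_of_pos hz0
  have h2 : 2 + z = z * (1 + 2 / z) := by field_simp; ring
  have h3 : 0 < 2 / z := by positivity
  rw [h2, Real.log_mul hz0.ne' (by positivity)]
  have h4 : log (1 + 2 / z) ≤ 2 / z := by
    have := Real.log_le_sub_one_of_pos (by linarith : 0 < 1 + 2 / z)
    linarith
  have h5 : z⁻¹ ≤ 6 / 7 := by
    rw [inv_le_comm₀ hz0 (by norm_num)]
    norm_num
    linarith
  have h6 : 2 / z = 2 * z⁻¹ := by ring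
  have h7 : log (1 + 2 / z) ≤ 2 * z⁻¹ := h4.trans h6.le
  linarith

/-- THE FINAL THEOREM from the simultaneous lower bound -/
theorem final_of {C : ℕ} (hC : SimulC C) (hC1 : 1 ≤ C) : ∃ C' : ℕ, 1 ≤ C' ∧ ∀ N : ℕ, Odd N →
    Nat.Perfect N →
    log (log (N : ℝ)) ≤ C' * log (log ((∏ p ∈ N.primeFactors, p : ℕ) : ℝ)) ^ 2 ∧
    ∀ (y m : ℕ) (l lam : ℝ), 3 ≤ y → m = (N.primeFactors.filter (y < ·)).card →
      l = 1 + log (1 + (N.primeFactors.filter (· ≤ y)).card / log (log (N : ℝ))) →
      lam = log (log (log (N : ℝ)) + log y) →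
      log (log (N : ℝ)) ≤ C' * (m + l * (lam + min l (lam * log y / log (log N)))) := by
  obtain ⟨C1, hC11, hA⟩ := main_A hC hC1
  obtain ⟨C2, hC21, hB⟩ := main_B hC hC1 heavy_count4
  obtain ⟨C3, hC31, hR⟩ := rad_cor C1 (fun N y hodd hN hy => by
    refine (hA N y hodd hN hy).trans ?_
    have hyR : (3 : ℝ) ≤ y := by exact_mod_cast hy
    have hlogy : 1 ≤ log (y : ℝ) := d15_log3 hyR
    have hL0 : 0 ≤ log (log (N : ℝ)) := Real.log_nonneg (basics N hodd hN).1
    have h0 : 0 ≤ ((Vs N y).card : ℝ) / (1 + log (log (N : ℝ))) := by positivity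
    have h1 := Real.log_nonneg (by linarith :
      1 ≤ 1 + ((Vs N y).card : ℝ) / (1 + log (log (N : ℝ))))
    have h2 := Real.log_nonneg (by linarith : 1 ≤ 2 + log (log (N : ℝ)) + log (y : ℝ))
    obtain ⟨l, hl⟩ : ∃ l : ℝ, l = 1 + log (1 + ((Vs N y).card : ℝ) / (1 + log (log (N : ℝ)))) :=
      ⟨_, rfl⟩
    rw [← hl]
    have hl1 : 1 ≤ l := by linarith
    have hm0 : (0 : ℝ) ≤ (Lg N y).card := Nat.cast_nonneg _
    rw [mul_assoc]
    apply mul_le_mul_of_nonneg_left _ (Nat.cast_nonneg _)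
    nlinarith)
  refine ⟨208 * (C1 + C2) + C3, by omega, ?_⟩
  intro N hodd hN
  have hLpos : 1 / 12 ≤ log (log (N : ℝ)) := by
    have := loglog_ge N hodd hN
    linarith
  have hC1R : (1 : ℝ) ≤ C1 := by exact_mod_cast hC11
  have hC2R : (1 : ℝ) ≤ C2 := by exact_mod_cast hC21
  have hC3R : (1 : ℝ) ≤ C3 := by exact_mod_cast hC31
  obtain ⟨L, hL⟩ : ∃ L : ℝ, L = log (log (N : ℝ)) := ⟨_, rfl⟩
  refine ⟨?_, ?_⟩
  · refine (hR N hodd hN).trans ?_
    apply mul_le_mul_of_nonneg_right _ (sq_nonneg _)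
    push_cast
    linarith
  · intro y m l lam hy hm hl hlam
    have hyR : (3 : ℝ) ≤ y := by exact_mod_cast hy
    have hlogy : 1 ≤ log (y : ℝ) := d15_log3 hyR
    have hlogy2 : (13 / 12 : ℝ) ≤ log (y : ℝ) := by
      have h1 : log (3 : ℝ) ≤ log y := Real.log_le_log (by norm_num) hyR
      have h2 : (13 / 12 : ℝ) ≤ log 3 := by
        have h3 : log ((3 : ℝ) ^ 12) = 12 * log 3 := by rw [Real.log_pow]; norm_num
        have h4 : log ((2 : ℝ) ^ 19) = 19 * log 2 := by rw [Real.log_pow]; norm_num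
        have h5 : log ((2 : ℝ) ^ 19) ≤ log ((3 : ℝ) ^ 12) :=
          Real.log_le_log (by norm_num) (by norm_num)
        have := Real.log_two_gt_d9
        linarith
      linarith
    have hA' := hA N y hodd hN hy
    have hB' := hB N y hodd hN hy
    rw [← hL] at hA' hB' hl hlam hLpos ⊢
    have hmL : ((Lg N y).card : ℝ) = m := by rw [hm]
    rw [hmL] at hA' hB'
    obtain ⟨k, hk⟩ : ∃ k : ℝ, k = ((Vs N y).card : ℝ) := ⟨_, rfl⟩
    have hk' : ((N.primeFactors.filter (· ≤ y)).card : ℝ) = k := by rw [hk]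
    rw [hk'] at hl
    rw [← hk] at hA' hB'
    have hk0 : 0 ≤ k := by rw [hk]; exact Nat.cast_nonneg _
    have hm0 : (0 : ℝ) ≤ m := Nat.cast_nonneg _
    have hL0 : 0 < L := by linarith
    obtain ⟨l', hl'⟩ : ∃ l' : ℝ, l' = 1 + log (1 + k / (1 + L)) := ⟨_, rfl⟩
    rw [← hl'] at hA' hB'
    have hkl : 0 ≤ k / (1 + L) := by positivity
    have hl'1 : 1 ≤ l' := by
      rw [hl']
      have := Real.log_nonneg (by linarith : 1 ≤ 1 + k / (1 + L))
      linarith
    have hll : l' ≤ l := by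
      rw [hl, hl']
      have h1 : k / (1 + L) ≤ k / L := div_le_div_of_nonneg_left hk0 hL0 (by linarith)
      have h2 := Real.log_le_log (by linarith) (by linarith : 1 + k / (1 + L) ≤ 1 + k / L)
      linarith
    obtain ⟨Λ, hΛ⟩ : ∃ Λ : ℝ, Λ = log (2 + L + log y) := ⟨_, rfl⟩
    rw [← hΛ] at hA' hB'
    have hΛ0 : 0 ≤ Λ := by rw [hΛ]; exact Real.log_nonneg (by linarith)
    have hΛl : Λ ≤ 13 * lam := by
      rw [hΛ, hlam]
      have := log_two_add (L + log y) (by linarith)
      rw [← add_assoc] at this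
      exact this
    have hlam0 : 0 ≤ lam := by linarith
    have hl1 : 1 ≤ l := by linarith
    push_cast
    have hmin0 : 0 ≤ min l (lam * log y / L) := by
      apply le_min (by linarith)
      positivity
    obtain ⟨S, hS⟩ : ∃ S : ℝ, S = m + l * (lam + min l (lam * log y / L)) := ⟨_, rfl⟩
    have hS0 : 0 ≤ S := by
      rw [hS]
      positivity
    rw [← hS]
    have hfin : L ≤ 208 * (C1 + C2) * S := by
      rcases min_choice l (lam * log y / L) with hc | hc
      · rw [hc] at hS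
        have h1 : l' * (l' + Λ) ≤ l * (l + 13 * lam) :=
          mul_le_mul hll (by linarith) (by linarith) (by linarith)
        have h2 : m + l' * (l' + Λ) ≤ 13 * S := by
          have h3 : 0 ≤ l * l := by positivity
          rw [hS]
          nlinarith
        have h3 : (C1 : ℝ) * (m + l' * (l' + Λ)) ≤ C1 * (13 * S) :=
          mul_le_mul_of_nonneg_left h2 (by linarith)
        have h4 : 0 ≤ (C1 : ℝ) * S := by positivity
        have h5 : 0 ≤ (C2 : ℝ) * S := by positivity
        linarith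
      · rw [hc] at hS
        have hy0 : 0 ≤ log (y : ℝ) / L := by positivity
        have h0 : log (y : ℝ) / (1 + L) ≤ log y / L :=
          div_le_div_of_nonneg_left (by linarith) hL0 (by linarith)
        have h1 : l' * ((1 + 16 * (log y / (1 + L))) * Λ) ≤
            l * ((1 + 16 * (log y / L)) * (13 * lam)) := by
          apply mul_le_mul hll _ (by positivity) (by linarith)
          exact mul_le_mul (by linarith) hΛl hΛ0 (by linarith)
        have h2 : m + l' * ((1 + 16 * (log y / (1 + L))) * Λ) ≤ 208 * S := by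
          have h3 : l * ((1 + 16 * (log y / L)) * (13 * lam)) =
              13 * (l * lam) + 208 * (l * (lam * log y / L)) := by ring
          have h4 : 0 ≤ l * lam := by positivity
          have h5 : 0 ≤ l * (lam * log y / L) := by positivity
          rw [h3] at h1
          rw [hS, mul_add l lam]
          linarith
        have h3 : (C2 : ℝ) * (m + l' * ((1 + 16 * (log y / (1 + L))) * Λ)) ≤ C2 * (208 * S) :=
          mul_le_mul_of_nonneg_left h2 (by linarith)
        have h4 : 0 ≤ (C1 : ℝ) * S := by positivity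
        linarith
    have h6 : 0 ≤ (C3 : ℝ) * S := by positivity
    linarith

end Pool.Agent.MP_f02ea4.QR
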