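import Mathlib

/-! # The parameters: numbers -/

set_option autoImplicit false

namespace Pool.Agent.MP_f02ea4.QR

open Finset Real

/-- The numbers on which the parameters depend. -/
structure SP where
  h : ℕ
  Q : ℝ
  D0 : ℝ
  hh : 1 ≤ h
  hQ : (h : ℝ) + 1 ≤ Q
  hD1 : 1 ≤ D0
  hD : log D0 ≤ 121 * Q ^ 2

namespace SP

variable (p : SP)

noncomputable def Yc : ℕ := ⌈140 * p.Q ^ 2⌉₊
noncomputable def S : ℕ := 16 * p.h ^ 2 * p.Yc
noncomputable def S' : ℕ := 4 * p.S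
noncomputable def N1 : ℕ := p.h + 1 + p.S'
noncomputable def Om : ℝ := 4 * p.h * p.N1 * p.D0 + 1
noncomputable def m : ℕ := ⌈324 * p.Om⌉₊
noncomputable def K : ℕ := 2 * p.h * p.m
noncomputable def K' : ℕ := p.K - p.m
noncomputable def T0 : ℕ := p.S' * (p.h * p.K)

lemma h1 : (1 : ℝ) ≤ p.h := by exact_mod_cast p.hh
lemma Q2 : 2 ≤ p.Q := by
  have := p.h1
  have := p.hQ
  linarith
lemma hQ' : (p.h : ℝ) ≤ p.Q := by
  have := p.hQ
  linarith

lemma Yc_ge : 140 * p.Q ^ 2 ≤ p.Yc := Nat.le_ceil _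

lemma Yc_le : (p.Yc : ℝ) ≤ 141 * p.Q ^ 2 := by
  have h := (Nat.ceil_lt_add_one (show 0 ≤ 140 * p.Q ^ 2 by positivity)).le
  have hQ := p.Q2
  have : (p.Yc : ℝ) ≤ 140 * p.Q ^ 2 + 1 := h
  nlinarith

lemma Yc1 : 1 ≤ p.Yc := by
  have h := p.Yc_ge
  have hQ := p.Q2
  have : (1 : ℝ) ≤ p.Yc := by nlinarith
  exact_mod_cast this

lemma S1 : 1 ≤ p.S := by
  have h1 := p.hh
  have h2 := p.Yc1
  have h3 : 1 ≤ p.h ^ 2 := Nat.one_le_pow _ _ h1
  unfold S
  nlinarith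

lemma S_le : (p.S : ℝ) ≤ 2256 * p.Q ^ 4 := by
  have h1 := p.Yc_le
  have h2 := p.hQ'
  have h3 := p.h1
  have hQ := p.Q2
  have h4 : (p.h : ℝ) ^ 2 ≤ p.Q ^ 2 := pow_le_pow_left₀ (by linarith) h2 2
  have : (p.S : ℝ) = 16 * (p.h : ℝ) ^ 2 * p.Yc := by
    unfold S
    push_cast
    ring
  rw [this]
  calc 16 * (p.h : ℝ) ^ 2 * p.Yc ≤ 16 * p.Q ^ 2 * (141 * p.Q ^ 2) := by
        apply mul_le_mul (by linarith) h1 (by positivity) (by positivity)
    _ = 2256 * p.Q ^ 4 := by ring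

lemma S'_eq : (p.S' : ℝ) = 4 * p.S := by
  unfold S'
  push_cast
  ring

lemma N1_le : (p.N1 : ℝ) ≤ 9025 * p.Q ^ 4 := by
  have h1 := p.S_le
  have h2 := p.hQ
  have hQ := p.Q2
  have h3 : (p.N1 : ℝ) = p.h + 1 + 4 * p.S := by
    unfold N1
    push_cast
    rw [p.S'_eq]
  have h4 : p.Q ≤ p.Q ^ 4 := by
    calc p.Q = p.Q ^ 1 := (pow_one _).symm
      _ ≤ p.Q ^ 4 := pow_le_pow_right₀ (by linarith) (by norm_num)
  rw [h3]
  linarith

lemma N1_pos : (1 : ℝ) ≤ p.N1 := by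
  have : 1 ≤ p.N1 := by
    unfold N1
    omega
  exact_mod_cast this

lemma Om1 : 1 ≤ p.Om := by
  unfold Om
  have h1 := p.h1
  have h2 := p.N1_pos
  have h3 := p.hD1
  have : 0 ≤ 4 * (p.h : ℝ) * p.N1 * p.D0 := by positivity
  linarith

lemma Om_le : p.Om ≤ 36101 * p.Q ^ 5 * p.D0 := by
  unfold Om
  have h1 := p.h1
  have h2 := p.N1_pos
  have h3 := p.hD1
  have h4 := p.N1_le
  have h5 := p.hQ'
  have hQ := p.Q2
  have h6 : 4 * (p.h : ℝ) * p.N1 * p.D0 ≤ 4 * p.Q * (9025 * p.Q ^ 4) * p.D0 := by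
    apply mul_le_mul_of_nonneg_right _ (by linarith)
    apply mul_le_mul (by linarith) h4 (by linarith) (by linarith)
  have h7 : 1 ≤ p.Q ^ 5 * p.D0 := by
    have : 1 ≤ p.Q ^ 5 := one_le_pow₀ (by linarith)
    nlinarith
  calc 4 * (p.h : ℝ) * p.N1 * p.D0 + 1 ≤ 4 * p.Q * (9025 * p.Q ^ 4) * p.D0 + p.Q ^ 5 * p.D0 :=
        add_le_add h6 h7
    _ = 36101 * p.Q ^ 5 * p.D0 := by ring

lemma m_ge : 324 * p.Om ≤ p.m := Nat.le_ceil _

lemma m_le : (p.m : ℝ) ≤ 11732825 * p.Q ^ 5 * p.D0 := by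
  have h1 := p.Om1
  have h2 := p.Om_le
  have h : (p.m : ℝ) ≤ 324 * p.Om + 1 :=
    (Nat.ceil_lt_add_one (show 0 ≤ 324 * p.Om by linarith)).le
  linarith

lemma m_ge' : (324 : ℝ) ≤ p.m := by
  have h1 := p.Om1
  have h2 := p.m_ge
  linarith

lemma m1 : 1 ≤ p.m := by
  have h := p.m_ge'
  have : (1 : ℝ) ≤ p.m := by linarith
  exact_mod_cast this

lemma K_eq : (p.K : ℝ) = 2 * p.h * p.m := by
  unfold K
  push_cast
  ring

lemma m_le_K : 2 * p.m ≤ p.K := by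
  unfold K
  have h1 := p.hh
  have h2 := p.m1
  nlinarith

lemma K'1 : 1 ≤ p.K' := by
  have h1 := p.m_le_K
  have h2 := p.m1
  unfold K'
  omega

lemma hKm : p.K' + p.m ≤ p.K := by
  have h1 := p.m_le_K
  unfold K'
  omega

lemma K'_eq : (p.K' : ℝ) = p.K - p.m := by
  have h1 := p.m_le_K
  unfold K'
  rw [Nat.cast_sub (by omega)]

lemma hrows : 2 * (p.K ^ p.h * p.S) ≤ p.S' * p.K' ^ p.h := by
  have hK : (p.K' : ℝ) = p.K * (1 + (-(1 / (2 * (p.h : ℝ))))) := by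
    rw [p.K'_eq, p.K_eq]
    have := p.h1
    have h0 : (p.h : ℝ) ≠ 0 := by linarith
    field_simp
    ring
  have hb : (1 / 2 : ℝ) ≤ (1 + (-(1 / (2 * (p.h : ℝ))))) ^ p.h := by
    have h1 := p.h1
    have h2 : (1 / (2 * (p.h : ℝ))) ≤ 1 / 2 := by
      apply one_div_le_one_div_of_le (by norm_num)
      linarith
    have h3 := one_add_mul_le_pow (show (-2 : ℝ) ≤ -(1 / (2 * (p.h : ℝ))) by linarith) p.h
    have h4 : (1 : ℝ) + p.h * (-(1 / (2 * (p.h : ℝ)))) = 1 / 2 := by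
      have h0 : (p.h : ℝ) ≠ 0 := by linarith
      field_simp
      ring
    rwa [h4] at h3
  have hreal : (2 * ((p.K : ℝ) ^ p.h * p.S)) ≤ p.S' * (p.K' : ℝ) ^ p.h := by
    rw [hK, mul_pow, p.S'_eq]
    have h0 : 0 ≤ (p.K : ℝ) ^ p.h * p.S := by positivity
    have h1 := mul_le_mul_of_nonneg_left hb h0
    nlinarith
  exact_mod_cast hreal

lemma hmS : 81 * ((p.S' : ℝ) * p.Om) ≤ p.m * p.S := by
  have h1 := p.m_ge
  have h2 : (0 : ℝ) ≤ p.S := by positivity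
  rw [p.S'_eq]
  nlinarith [mul_le_mul_of_nonneg_right h1 h2]

lemma T0_le : (p.T0 : ℝ) ≤ p.Q ^ 49 * p.D0 := by
  have h1 : (p.T0 : ℝ) = 8 * (p.h : ℝ) ^ 2 * p.S * p.m := by
    unfold T0
    push_cast
    rw [p.S'_eq, p.K_eq]
    ring
  have h2 := p.hQ'
  have h3 := p.h1
  have hQ := p.Q2
  have h4 : (p.h : ℝ) ^ 2 ≤ p.Q ^ 2 := pow_le_pow_left₀ (by linarith) h2 2
  have h5 := p.S_le
  have h6 := p.m_le
  have h7 := p.hD1
  rw [h1]
  calc 8 * (p.h : ℝ) ^ 2 * p.S * p.m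
      ≤ 8 * p.Q ^ 2 * (2256 * p.Q ^ 4) * (11732825 * p.Q ^ 5 * p.D0) := by
        apply mul_le_mul _ h6 (by positivity) (by positivity)
        apply mul_le_mul (by linarith) h5 (by positivity) (by positivity)
    _ = 211754025600 * (p.Q ^ 11 * p.D0) := by ring
    _ ≤ p.Q ^ 38 * (p.Q ^ 11 * p.D0) := by
        apply mul_le_mul_of_nonneg_right _ (by positivity)
        calc (211754025600 : ℝ) ≤ 2 ^ 38 := by norm_num
          _ ≤ p.Q ^ 38 := pow_le_pow_left₀ (by norm_num) hQ 38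
    _ = p.Q ^ 49 * p.D0 := by ring

lemma hT1 : p.S' * (p.h * p.K') < p.T0 := by
  unfold T0
  have h1 := p.hh
  have h2 := p.m_le_K
  have h3 := p.m1
  have h4 : p.K' < p.K := by
    unfold K'
    omega
  have h5 : 0 < p.S' := by
    have := p.S1
    unfold S'
    omega
  exact Nat.mul_lt_mul_of_pos_left (Nat.mul_lt_mul_of_pos_left h4 (by omega)) h5

lemma D0_le_m : 4 * p.D0 ≤ p.m := by
  have h1 := p.m_ge
  have h2 : p.D0 ≤ p.Om := by
    unfold Om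
    have h1 := p.h1
    have h2 := p.N1_pos
    have h3 := p.hD1
    have h4 : 1 ≤ (p.h : ℝ) * p.N1 := by nlinarith
    have h5 : p.D0 ≤ (p.h : ℝ) * p.N1 * p.D0 := by nlinarith
    nlinarith
  have := p.Om1
  have := p.hD1
  linarith

lemma two_D0_le_T0 : 2 * p.D0 ≤ p.T0 := by
  have h1 := p.D0_le_m
  have h2 : p.m ≤ p.T0 := by
    unfold T0
    have h1 := p.hh
    have h2 := p.m_le_K
    have h3 : 1 ≤ p.S' := by
      have := p.S1
      unfold S'
      omega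
    calc p.m ≤ p.K := by omega
      _ = 1 * (1 * p.K) := by ring
      _ ≤ p.S' * (p.h * p.K) := Nat.mul_le_mul h3 (Nat.mul_le_mul h1 le_rfl)
  have h3 : (p.m : ℝ) ≤ p.T0 := by exact_mod_cast h2
  have := p.hD1
  linarith

lemma log_le_self' {x : ℝ} (hx : 0 < x) : log x ≤ x := by
  have := log_le_sub_one_of_pos hx
  linarith

/-- the bound of the coordinates -/
lemma Zc_le (Y : ℝ) (hY0 : 0 ≤ Y) (hY : Y ≤ p.Q) :
    (p.N1 : ℝ) * p.D0 * (1 + p.h * exp Y) ≤ exp p.Yc := by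
  have hQ := p.Q2
  have h1 := p.N1_le
  have h3 := p.hD1
  have h4 := p.hQ
  have hN := p.N1_pos
  have hle : (p.N1 : ℝ) * p.D0 * (1 + p.h * exp Y) ≤ (9025 * p.Q ^ 5) * p.D0 * exp p.Q := by
    have h5 : 1 + p.h * exp Y ≤ p.Q * exp p.Q := by
      have h6 : 1 ≤ exp Y := one_le_exp hY0
      have h7 : exp Y ≤ exp p.Q := exp_le_exp.2 hY
      have h8 := p.h1
      calc 1 + p.h * exp Y ≤ exp Y + p.h * exp Y := by linarith
        _ = (p.h + 1) * exp Y := by ring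
        _ ≤ p.Q * exp p.Q := mul_le_mul h4 h7 (exp_pos _).le (by linarith)
    calc (p.N1 : ℝ) * p.D0 * (1 + p.h * exp Y) ≤ (9025 * p.Q ^ 4) * p.D0 * (p.Q * exp p.Q) := by
          apply mul_le_mul _ h5 (by positivity) (by positivity)
          exact mul_le_mul_of_nonneg_right h1 (by linarith)
      _ = (9025 * p.Q ^ 5) * p.D0 * exp p.Q := by ring
  refine hle.trans ?_
  have h9 : p.D0 ≤ exp (121 * p.Q ^ 2) := by
    rw [← exp_log (show 0 < p.D0 by linarith)]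
    exact exp_le_exp.2 p.hD
  have h10 : (9025 : ℝ) ≤ exp 10 := by
    have h11 : (2.7 : ℝ) ≤ exp 1 := by
      have := exp_one_gt_d9
      linarith
    calc (9025 : ℝ) ≤ 2.7 ^ 10 := by norm_num
      _ ≤ (exp 1) ^ 10 := pow_le_pow_left₀ (by norm_num) h11 10
      _ = exp 10 := by rw [← exp_nat_mul]; norm_num
  have h11 : p.Q ^ 5 ≤ exp (5 * p.Q) := by
    have h12 : p.Q ≤ exp p.Q := by
      have := add_one_le_exp p.Q
      linarith
    calc p.Q ^ 5 ≤ (exp p.Q) ^ 5 := pow_le_pow_left₀ (by linarith) h12 5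
      _ = exp (5 * p.Q) := by rw [← exp_nat_mul]; norm_num
  calc (9025 * p.Q ^ 5) * p.D0 * exp p.Q
      ≤ (exp 10 * exp (5 * p.Q)) * exp (121 * p.Q ^ 2) * exp p.Q := by
        apply mul_le_mul_of_nonneg_right _ (exp_pos _).le
        apply mul_le_mul _ h9 (by linarith) (by positivity)
        apply mul_le_mul h10 h11 (by positivity) (by positivity)
    _ = exp (10 + 5 * p.Q + 121 * p.Q ^ 2 + p.Q) := by rw [exp_add, exp_add, exp_add]
    _ ≤ exp p.Yc := by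
        apply exp_le_exp.2
        have := p.Yc_ge
        nlinarith

/-- the first main inequality -/
lemma hC (Z : ℝ) (hZ1 : 1 ≤ Z) (hZ : Z ≤ exp p.Yc) :
    (2 * ((p.K : ℝ) ^ p.h * p.S) : ℝ) * (2 * ((p.K : ℝ) ^ p.h * p.S) *
      (Z ^ (p.h * p.K) * exp (p.S * p.Om))) * Z ^ (p.h * p.K) ≤ exp (p.m * p.S) := by
  have h1 : (p.K : ℝ) ^ p.h ≤ exp (p.h * p.K) := by
    have h2 : (p.K : ℝ) ≤ exp p.K := by
      have := add_one_le_exp (p.K : ℝ)
      linarith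
    calc (p.K : ℝ) ^ p.h ≤ (exp p.K) ^ p.h := pow_le_pow_left₀ (by positivity) h2 _
      _ = exp (p.h * p.K) := (exp_nat_mul _ _).symm
  have h2 : (2 : ℝ) * p.S ≤ exp (2 * p.S) := by
    have := add_one_le_exp (2 * (p.S : ℝ))
    linarith
  have h3 : (2 * ((p.K : ℝ) ^ p.h * p.S) : ℝ) ≤ exp (p.h * p.K + 2 * p.S) := by
    rw [exp_add]
    calc (2 * ((p.K : ℝ) ^ p.h * p.S) : ℝ) = (p.K : ℝ) ^ p.h * (2 * p.S) := by ring
      _ ≤ exp (p.h * p.K) * exp (2 * p.S) := mul_le_mul h1 h2 (by positivity) (exp_pos _).le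
  have h4 : Z ^ (p.h * p.K) ≤ exp ((p.h * p.K) * p.Yc) := by
    calc Z ^ (p.h * p.K) ≤ (exp p.Yc) ^ (p.h * p.K) := pow_le_pow_left₀ (by linarith) hZ _
      _ = exp ((p.h * p.K) * p.Yc) := by
          rw [← exp_nat_mul]
          push_cast
          rfl
  have hZ0 : 0 ≤ Z ^ (p.h * p.K) := by positivity
  calc (2 * ((p.K : ℝ) ^ p.h * p.S) : ℝ) * (2 * ((p.K : ℝ) ^ p.h * p.S) *
      (Z ^ (p.h * p.K) * exp (p.S * p.Om))) * Z ^ (p.h * p.K)
      ≤ exp (p.h * p.K + 2 * p.S) * (exp (p.h * p.K + 2 * p.S) *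
        (exp ((p.h * p.K) * p.Yc) * exp (p.S * p.Om))) * exp ((p.h * p.K) * p.Yc) := by
        apply mul_le_mul _ h4 hZ0 (by positivity)
        apply mul_le_mul h3 _ (by positivity) (by positivity)
        apply mul_le_mul h3 _ (by positivity) (by positivity)
        apply mul_le_mul h4 le_rfl (by positivity) (by positivity)
    _ = exp (2 * (p.h * p.K) + 4 * p.S + 2 * ((p.h * p.K) * p.Yc) + p.S * p.Om) := by
        rw [← exp_add, ← exp_add, ← exp_add, ← exp_add]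
        congr 1
        ring
    _ ≤ exp (p.m * p.S) := by
        apply exp_le_exp.2
        have hS : (p.S : ℝ) = 16 * (p.h : ℝ) ^ 2 * p.Yc := by
          unfold S
          push_cast
          ring
        have hhK : (p.h : ℝ) * p.K = 2 * (p.h : ℝ) ^ 2 * p.m := by
          rw [p.K_eq]
          ring
        have hY1 : (1 : ℝ) ≤ p.Yc := by exact_mod_cast p.Yc1
        have hm0 : (0 : ℝ) ≤ p.m := by positivity
        have hS0 : (0 : ℝ) ≤ p.S := by positivity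
        have e1 : 2 * ((p.h : ℝ) * p.K) ≤ p.m * p.S / 4 := by
          rw [hhK, hS]
          have : 0 ≤ (p.h : ℝ) ^ 2 * p.m := by positivity
          nlinarith [mul_le_mul_of_nonneg_left hY1 this]
        have e2 : 2 * (((p.h : ℝ) * p.K) * p.Yc) = p.m * p.S / 4 := by
          rw [hhK, hS]
          ring
        have e3 : 4 * (p.S : ℝ) ≤ p.m * p.S / 81 := by
          have := p.m_ge'
          nlinarith
        have e4 : (p.S : ℝ) * p.Om ≤ p.m * p.S / 324 := by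
          have := p.m_ge
          nlinarith
        have e5 : 0 ≤ (p.m : ℝ) * p.S := by positivity
        linarith

/-- the sum of the exponents in the second main inequality -/
lemma total_le (t : ℕ) (y1 : ℝ) (ht : (t : ℝ) ≤ p.h) (hy1 : y1 ≤ p.N1 * p.D0) (hy0 : 0 ≤ y1) :
    (p.m * p.S * (140 * p.Q ^ 2) + 4 * p.Q * p.m + p.m * p.S + 2 * p.S' * p.Om +
      16 * p.S' * (t * y1) : ℝ) ≤ p.Q ^ 53 * p.D0 := by
  have hQ := p.Q2
  have h5 := p.S_le
  have h6 := p.m_le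
  have h7 := p.hD1
  have h8 := p.Om_le
  have h9 := p.N1_le
  have h10 := p.hQ'
  have h11 := p.Om1
  have hD0 : 0 < p.D0 := by linarith
  have hQ0 : 0 < p.Q := by linarith
  have hmS : (p.m * p.S : ℝ) ≤ 26469253200 * (p.Q ^ 9 * p.D0) := by
    calc (p.m * p.S : ℝ) ≤ (11732825 * p.Q ^ 5 * p.D0) * (2256 * p.Q ^ 4) := by
          apply mul_le_mul h6 h5 (by positivity) (by positivity)
      _ = 26469253200 * (p.Q ^ 9 * p.D0) := by ring
  have e1 : (p.m * p.S * (140 * p.Q ^ 2) : ℝ) ≤ 3705695448000 * (p.Q ^ 11 * p.D0) := by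
    calc (p.m * p.S * (140 * p.Q ^ 2) : ℝ) ≤ 26469253200 * (p.Q ^ 9 * p.D0) * (140 * p.Q ^ 2) := by
          apply mul_le_mul_of_nonneg_right hmS (by positivity)
      _ = 3705695448000 * (p.Q ^ 11 * p.D0) := by ring
  have hpow : ∀ k : ℕ, k ≤ 11 → p.Q ^ k * p.D0 ≤ p.Q ^ 11 * p.D0 := by
    intro k hk
    apply mul_le_mul_of_nonneg_right _ hD0.le
    exact pow_le_pow_right₀ (by linarith) hk
  have e2 : (4 * p.Q * p.m : ℝ) ≤ 46931300 * (p.Q ^ 11 * p.D0) := by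
    calc (4 * p.Q * p.m : ℝ) ≤ 4 * p.Q * (11732825 * p.Q ^ 5 * p.D0) := by
          apply mul_le_mul_of_nonneg_left h6 (by positivity)
      _ = 46931300 * (p.Q ^ 6 * p.D0) := by ring
      _ ≤ 46931300 * (p.Q ^ 11 * p.D0) := by
          apply mul_le_mul_of_nonneg_left (hpow 6 (by norm_num)) (by norm_num)
  have e3 : (p.m * p.S : ℝ) ≤ 26469253200 * (p.Q ^ 11 * p.D0) :=
    hmS.trans (mul_le_mul_of_nonneg_left (hpow 9 (by norm_num)) (by norm_num))
  have e4 : (2 * p.S' * p.Om : ℝ) ≤ 651550848 * (p.Q ^ 11 * p.D0) := by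
    rw [p.S'_eq]
    calc (2 * (4 * p.S) * p.Om : ℝ) ≤ (2 * (4 * (2256 * p.Q ^ 4))) * (36101 * p.Q ^ 5 * p.D0) := by
          apply mul_le_mul _ h8 (by linarith) (by positivity)
          linarith
      _ = 651550848 * (p.Q ^ 9 * p.D0) := by ring
      _ ≤ 651550848 * (p.Q ^ 11 * p.D0) := by
          apply mul_le_mul_of_nonneg_left (hpow 9 (by norm_num)) (by norm_num)
  have e5 : (16 * p.S' * (t * y1) : ℝ) ≤ 1303065600 * (p.Q ^ 11 * p.D0) := by
    rw [p.S'_eq]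
    have h12 : (t : ℝ) * y1 ≤ p.Q * (9025 * p.Q ^ 4 * p.D0) := by
      apply mul_le_mul (ht.trans h10) _ hy0 hQ0.le
      exact hy1.trans (mul_le_mul_of_nonneg_right h9 hD0.le)
    calc (16 * (4 * p.S) * (t * y1) : ℝ) ≤ (16 * (4 * (2256 * p.Q ^ 4))) * (p.Q * (9025 * p.Q ^ 4 * p.D0)) := by
          apply mul_le_mul _ h12 (by positivity) (by positivity)
          linarith
      _ = 1303065600 * (p.Q ^ 9 * p.D0) := by ring
      _ ≤ 1303065600 * (p.Q ^ 11 * p.D0) := by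
          apply mul_le_mul_of_nonneg_left (hpow 9 (by norm_num)) (by norm_num)
  have e6 : (4398046511104 : ℝ) * (p.Q ^ 11 * p.D0) ≤ p.Q ^ 53 * p.D0 := by
    calc (4398046511104 : ℝ) * (p.Q ^ 11 * p.D0) ≤ p.Q ^ 42 * (p.Q ^ 11 * p.D0) := by
          apply mul_le_mul_of_nonneg_right _ (by positivity)
          calc (4398046511104 : ℝ) = 2 ^ 42 := by norm_num
            _ ≤ p.Q ^ 42 := pow_le_pow_left₀ (by norm_num) hQ 42
      _ = p.Q ^ 53 * p.D0 := by ring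
  have e7 : 0 ≤ p.Q ^ 11 * p.D0 := by positivity
  linarith

/-- the quantity `4 S' (m + 1)` -/
lemma base_le : (4 * (p.S' : ℝ) * (p.m + 1)) ≤ exp (140 * p.Q ^ 2) := by
  have hQ := p.Q2
  have h5 := p.S_le
  have h6 := p.m_le
  have h7 := p.hD1
  have hD0 : 0 < p.D0 := by linarith
  have h8 : (p.m : ℝ) + 1 ≤ 11732826 * p.Q ^ 5 * p.D0 := by
    have : 1 ≤ p.Q ^ 5 * p.D0 := by
      have : 1 ≤ p.Q ^ 5 := one_le_pow₀ (by linarith)
      nlinarith
    linarith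
  have h9 : (4 * (p.S' : ℝ) * (p.m + 1)) ≤ 423508087296 * (p.Q ^ 9 * p.D0) := by
    rw [p.S'_eq]
    calc (4 * (4 * (p.S : ℝ)) * (p.m + 1)) ≤ (4 * (4 * (2256 * p.Q ^ 4))) * (11732826 * p.Q ^ 5 * p.D0) := by
          apply mul_le_mul _ h8 (by positivity) (by positivity)
          linarith
      _ = 423508087296 * (p.Q ^ 9 * p.D0) := by ring
  refine h9.trans ?_
  have h10 : p.D0 ≤ exp (121 * p.Q ^ 2) := by
    rw [← exp_log hD0]
    exact exp_le_exp.2 p.hD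
  have h11 : (423508087296 : ℝ) ≤ exp 28 := by
    have h11 : (2.7 : ℝ) ≤ exp 1 := by
      have := exp_one_gt_d9
      linarith
    calc (423508087296 : ℝ) ≤ 2.7 ^ 28 := by norm_num
      _ ≤ (exp 1) ^ 28 := pow_le_pow_left₀ (by norm_num) h11 28
      _ = exp 28 := by rw [← exp_nat_mul]; norm_num
  have h12 : p.Q ^ 9 ≤ exp (9 * p.Q) := by
    have h12 : p.Q ≤ exp p.Q := by
      have := add_one_le_exp p.Q
      linarith
    calc p.Q ^ 9 ≤ (exp p.Q) ^ 9 := pow_le_pow_left₀ (by linarith) h12 9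
      _ = exp (9 * p.Q) := by rw [← exp_nat_mul]; norm_num
  calc 423508087296 * (p.Q ^ 9 * p.D0) ≤ exp 28 * (exp (9 * p.Q) * exp (121 * p.Q ^ 2)) := by
        apply mul_le_mul h11 _ (by positivity) (exp_pos _).le
        apply mul_le_mul h12 h10 hD0.le (exp_pos _).le
    _ = exp (28 + (9 * p.Q + 121 * p.Q ^ 2)) := by rw [← exp_add, ← exp_add]
    _ ≤ exp (140 * p.Q ^ 2) := by
        apply exp_le_exp.2
        nlinarith

/-- the second main inequality -/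
lemma hL (Z Th Cz : ℝ) (t : ℕ) (y1 : ℝ) (ht : (t : ℝ) ≤ p.h) (hy1 : y1 ≤ p.N1 * p.D0)
    (hy0 : 0 ≤ y1) (hZ : p.Q ^ 53 * p.D0 ≤ Z) (hTh0 : 0 ≤ Th) (hTh : p.h * Th + 1 ≤ exp (4 * p.Q))
    (hCz0 : 0 ≤ Cz) (hCz : Cz ≤ exp (p.m * p.S)) :
    (4 * p.S' * (p.m + 1) : ℝ) ^ (p.m * p.S) * (p.h * Th + 1) ^ p.m * Cz *
      exp (2 * p.S' * p.Om) * (2 * p.S' * (t * y1 * (2 * exp (-Z)))) ≤ 1 / 4 := by
  have h1 : (4 * p.S' * (p.m + 1) : ℝ) ^ (p.m * p.S) ≤ exp (p.m * p.S * (140 * p.Q ^ 2)) := by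
    calc (4 * p.S' * (p.m + 1) : ℝ) ^ (p.m * p.S) ≤ (exp (140 * p.Q ^ 2)) ^ (p.m * p.S) :=
          pow_le_pow_left₀ (by positivity) p.base_le _
      _ = exp (p.m * p.S * (140 * p.Q ^ 2)) := by
          rw [← exp_nat_mul]
          push_cast
          rfl
  have h2 : (p.h * Th + 1 : ℝ) ^ p.m ≤ exp (4 * p.Q * p.m) := by
    calc (p.h * Th + 1 : ℝ) ^ p.m ≤ (exp (4 * p.Q)) ^ p.m :=
          pow_le_pow_left₀ (by positivity) hTh _
      _ = exp (4 * p.Q * p.m) := by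
          rw [← exp_nat_mul]
          congr 1
          ring
  have h3 : (2 * p.S' * (t * y1 * (2 * exp (-Z))) : ℝ) ≤ 1 / 4 * (exp (16 * p.S' * (t * y1)) * exp (-Z)) := by
    have h4 : (16 * p.S' * (t * y1) : ℝ) ≤ exp (16 * p.S' * (t * y1)) := by
      have := add_one_le_exp (16 * p.S' * (t * y1) : ℝ)
      linarith
    have h5 := mul_le_mul_of_nonneg_right h4 (exp_pos (-Z)).le
    calc (2 * p.S' * (t * y1 * (2 * exp (-Z))) : ℝ) = 1 / 4 * (16 * p.S' * (t * y1) * exp (-Z)) := by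
          ring
      _ ≤ 1 / 4 * (exp (16 * p.S' * (t * y1)) * exp (-Z)) :=
          mul_le_mul_of_nonneg_left h5 (by norm_num)
  have hpos : 0 ≤ (2 * p.S' * (t * y1 * (2 * exp (-Z))) : ℝ) := by positivity
  calc (4 * p.S' * (p.m + 1) : ℝ) ^ (p.m * p.S) * (p.h * Th + 1) ^ p.m * Cz *
      exp (2 * p.S' * p.Om) * (2 * p.S' * (t * y1 * (2 * exp (-Z))))
      ≤ exp (p.m * p.S * (140 * p.Q ^ 2)) * exp (4 * p.Q * p.m) * exp (p.m * p.S) *
        exp (2 * p.S' * p.Om) * (1 / 4 * (exp (16 * p.S' * (t * y1)) * exp (-Z))) := by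
        apply mul_le_mul _ h3 hpos (by positivity)
        apply mul_le_mul_of_nonneg_right _ (exp_pos _).le
        apply mul_le_mul _ hCz hCz0 (by positivity)
        apply mul_le_mul h1 h2 (by positivity) (by positivity)
    _ = 1 / 4 * exp ((p.m * p.S * (140 * p.Q ^ 2) + 4 * p.Q * p.m + p.m * p.S +
        2 * p.S' * p.Om + 16 * p.S' * (t * y1) : ℝ) + (-Z)) := by
        rw [exp_add, exp_add, exp_add, exp_add, exp_add]
        ring
    _ ≤ 1 / 4 * exp 0 := by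
        apply mul_le_mul_of_nonneg_left _ (by norm_num)
        apply exp_le_exp.2
        have := p.total_le t y1 ht hy1 hy0
        linarith
    _ = 1 / 4 := by rw [exp_zero, mul_one]

lemma hdel (Z : ℝ) (t : ℕ) (y1 : ℝ) (ht : (t : ℝ) ≤ p.h) (hy1 : y1 ≤ p.N1 * p.D0)
    (hy0 : 0 ≤ y1) (hZ : p.Q ^ 53 * p.D0 ≤ Z) :
    (p.S' : ℝ) * (t * y1 * (2 * exp (-Z))) ≤ 1 := by
  have h4 : (16 * p.S' * (t * y1) : ℝ) ≤ exp (16 * p.S' * (t * y1)) := by
    have := add_one_le_exp (16 * p.S' * (t * y1) : ℝ)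
    linarith
  have h5 := mul_le_mul_of_nonneg_right h4 (exp_pos (-Z)).le
  have h6 : exp (16 * p.S' * (t * y1)) * exp (-Z) ≤ 1 := by
    rw [← exp_add]
    rw [exp_le_one_iff]
    have := p.total_le t y1 ht hy1 hy0
    have h7 : 0 ≤ (p.m * p.S * (140 * p.Q ^ 2) + 4 * p.Q * p.m + p.m * p.S + 2 * p.S' * p.Om : ℝ) := by
      have := p.Q2
      have := p.Om1
      positivity
    linarith
  have h8 : 0 ≤ 16 * (p.S' : ℝ) * (t * y1) * exp (-Z) := by positivity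
  calc (p.S' : ℝ) * (t * y1 * (2 * exp (-Z))) = 1 / 8 * (16 * p.S' * (t * y1) * exp (-Z)) := by ring
    _ ≤ 1 := by linarith

lemma hinj (Z : ℝ) (t : ℕ) (y ht2 : ℝ) (ht : (t : ℝ) ≤ p.h) (hy : y ≤ p.D0) (hy0 : 0 ≤ y)
    (hht : ht2 ≤ 2 * p.h * p.D0) (hZ : p.Q ^ 53 * p.D0 ≤ Z) :
    2 * (y * t * (2 * exp (-Z))) < exp (-(2 * ht2)) := by
  have hQ := p.Q2
  have hD := p.hD1
  have hhQ := p.hQ'
  have h4 : 4 * (y * t) < exp (4 * (y * t)) := by
    have := add_one_le_exp (4 * (y * t) : ℝ)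
    linarith
  have h5 := mul_lt_mul_of_pos_right h4 (exp_pos (-Z))
  have h6 : y * t ≤ p.D0 * p.Q := mul_le_mul hy (ht.trans hhQ) (by positivity) (by linarith)
  have h7 : 8 * (p.D0 * p.Q) ≤ Z := by
    refine le_trans ?_ hZ
    have h8 : 8 * p.Q ≤ p.Q ^ 53 := by
      calc 8 * p.Q = 2 ^ 3 * p.Q := by norm_num
        _ ≤ p.Q ^ 3 * p.Q := mul_le_mul_of_nonneg_right (pow_le_pow_left₀ (by norm_num) hQ 3) (by linarith)
        _ = p.Q ^ 4 := by ring
        _ ≤ p.Q ^ 53 := pow_le_pow_right₀ (by linarith) (by norm_num)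
    nlinarith
  have h9 : ht2 ≤ 2 * (p.D0 * p.Q) := by
    have : (p.h : ℝ) * p.D0 ≤ p.Q * p.D0 := mul_le_mul_of_nonneg_right hhQ (by linarith)
    linarith
  calc 2 * (y * t * (2 * exp (-Z))) = 4 * (y * t) * exp (-Z) := by ring
    _ < exp (4 * (y * t)) * exp (-Z) := h5
    _ = exp (4 * (y * t) - Z) := by rw [← exp_add]; rfl
    _ ≤ exp (-(2 * ht2)) := by
        apply exp_le_exp.2
        linarith

end SP

lemma half_le_floor {z : ℝ} (hz : 1 ≤ z) : z / 2 ≤ (⌊z⌋₊ : ℝ) := by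
  rcases le_or_gt 2 z with h | h
  · have := Nat.lt_floor_add_one z
    linarith
  · have h1 : 1 ≤ ⌊z⌋₊ := (Nat.one_le_floor_iff z).2 hz
    have h2 : (1 : ℝ) ≤ (⌊z⌋₊ : ℝ) := by exact_mod_cast h1
    linarith

/-- the count -/
lemma sim_count (n t u ρ T0 x y : ℕ) (E W Q D0 : ℝ) (hQ2 : 2 ≤ Q) (hEQ : E ≤ Q) (hE : 1 ≤ E)
    (hW : 1 ≤ W) (ht1 : 1 ≤ t) (htn : t ≤ n) (hnρ : n ≤ ρ * t) (hun : u ≤ n)
    (h2 : 2 * (n - u) ≤ t) (hT0 : (T0 : ℝ) ≤ Q ^ 49 * D0) (hx : D0 / (2 * E) ≤ x)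
    (hy : D0 / (2 * W) ≤ y)
    (hD0 : D0 = W ^ (1 + 2 * ((n - u : ℕ) : ℝ) / (t : ℝ)) * Q ^ (120 * ρ)) :
    T0 ^ n < x ^ u * y ^ t := by
  have hQ0 : 0 < Q := by linarith
  have hQ1 : 1 ≤ Q := by linarith
  have hW0 : 0 < W := by linarith
  have hE0 : 0 < E := by linarith
  have hD0pos : 0 < D0 := by
    rw [hD0]
    positivity
  obtain ⟨k, hk⟩ : ∃ k, n = u + k := ⟨n - u, by omega⟩
  obtain ⟨j, hj⟩ : ∃ j, t = k + j := ⟨t - k, by omega⟩
  have hkn : n - u = k := by omega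
  have hkt : 2 * k ≤ t := by omega
  have htj : t ≤ 2 * j := by omega
  rw [hkn] at hD0
  have hWj : W ^ t ≤ (W ^ (1 + 2 * (k : ℝ) / (t : ℝ))) ^ j := by
    rw [← rpow_natCast W t, ← rpow_natCast (W ^ (1 + 2 * (k : ℝ) / (t : ℝ))) j,
      ← rpow_mul hW0.le]
    apply rpow_le_rpow_of_exponent_le hW
    have ht0 : (0 : ℝ) < t := by exact_mod_cast ht1
    have hjt : (j : ℝ) = t - k := by
      rw [hj]
      push_cast
      ring
    have hkt' : 2 * (k : ℝ) ≤ t := by exact_mod_cast hkt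
    have hk0 : (0 : ℝ) ≤ k := by positivity
    have e1 : (1 + 2 * (k : ℝ) / (t : ℝ)) * j = t + k * (t - 2 * k) / t := by
      rw [hjt]
      field_simp
      ring
    rw [e1]
    have : 0 ≤ (k : ℝ) * (t - 2 * k) / t := by
      apply div_nonneg _ ht0.le
      exact mul_nonneg hk0 (by linarith)
    linarith
  have hQj : Q ^ (60 * n) ≤ (Q ^ (120 * ρ)) ^ j := by
    rw [← pow_mul]
    apply pow_le_pow_right₀ hQ1
    calc 60 * n ≤ 60 * (ρ * t) := by omega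
      _ ≤ 60 * (ρ * (2 * j)) := Nat.mul_le_mul_left _ (Nat.mul_le_mul_left _ htj)
      _ = 120 * ρ * j := by ring
  have hDj : Q ^ (60 * n) * W ^ t ≤ D0 ^ j := by
    rw [hD0, mul_pow]
    calc Q ^ (60 * n) * W ^ t = W ^ t * Q ^ (60 * n) := mul_comm _ _
      _ ≤ _ := mul_le_mul hWj hQj (by positivity) (by positivity)
  have hmain : Q ^ (49 * n) * ((2 * E) ^ u * (2 * W) ^ t) < D0 ^ j := by
    refine lt_of_lt_of_le ?_ hDj
    have e1 : (2 * E) ^ u ≤ Q ^ (2 * n) := by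
      calc (2 * E) ^ u ≤ (Q ^ 2) ^ u := by
            apply pow_le_pow_left₀ (by positivity)
            nlinarith
        _ = Q ^ (2 * u) := (pow_mul _ _ _).symm
        _ ≤ Q ^ (2 * n) := pow_le_pow_right₀ hQ1 (by omega)
    have e2 : (2 : ℝ) ^ t ≤ Q ^ n := by
      calc (2 : ℝ) ^ t ≤ Q ^ t := pow_le_pow_left₀ (by norm_num) hQ2 t
        _ ≤ Q ^ n := pow_le_pow_right₀ hQ1 htn
    have hn1 : 1 ≤ n := by omega
    calc Q ^ (49 * n) * ((2 * E) ^ u * (2 * W) ^ t)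
        = Q ^ (49 * n) * ((2 * E) ^ u * 2 ^ t) * W ^ t := by rw [mul_pow 2 W t]; ring
      _ ≤ Q ^ (49 * n) * (Q ^ (2 * n) * Q ^ n) * W ^ t := by
          apply mul_le_mul_of_nonneg_right _ (by positivity)
          apply mul_le_mul_of_nonneg_left _ (by positivity)
          exact mul_le_mul e1 e2 (by positivity) (by positivity)
      _ = Q ^ (52 * n) * W ^ t := by
          rw [← pow_add, ← pow_add]
          congr 2
          ring
      _ < Q ^ (60 * n) * W ^ t := by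
          apply mul_lt_mul_of_pos_right _ (by positivity)
          exact pow_lt_pow_right₀ (by linarith) (by omega)
  have hreal : ((T0 : ℝ)) ^ n < (x : ℝ) ^ u * (y : ℝ) ^ t := by
    calc ((T0 : ℝ)) ^ n ≤ (Q ^ 49 * D0) ^ n := pow_le_pow_left₀ (by positivity) hT0 n
      _ = D0 ^ (u + k) * (Q ^ (49 * n) * ((2 * E) ^ u * (2 * W) ^ t)) /
          ((2 * E) ^ u * (2 * W) ^ t) := by
          rw [mul_pow, ← pow_mul, ← hk]
          field_simp
      _ < D0 ^ (u + k) * D0 ^ j / ((2 * E) ^ u * (2 * W) ^ t) := by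
          apply div_lt_div_of_pos_right _ (by positivity)
          exact mul_lt_mul_of_pos_left hmain (by positivity)
      _ = (D0 / (2 * E)) ^ u * (D0 / (2 * W)) ^ t := by
          rw [div_pow, div_pow, div_mul_div_comm, ← pow_add, ← pow_add]
          congr 2
          omega
      _ ≤ (x : ℝ) ^ u * (y : ℝ) ^ t := by
          apply mul_le_mul (pow_le_pow_left₀ (by positivity) hx u)
            (pow_le_pow_left₀ (by positivity) hy t) (by positivity) (by positivity)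
  exact_mod_cast hreal

end Pool.Agent.MP_f02ea4.QR
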