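import Pool.Agent.Lib.MP_f02ea4_nt.QR.Core
import Pool.Agent.Lib.MP_f02ea4_nt.QR.Num

/-! # Simultaneous linear forms: the choice of the parameters -/

set_option autoImplicit false
set_option linter.unusedSectionVars false

namespace Pool.Agent.MP_f02ea4.QR

open Finset Real

/-- SIMULTANEOUS FORMS IN LOGARITHMS. The rows `F q` are linearly independent, the integers `u q` are prime to
all `r h`, and `log (u q)` is at distance at most `2 exp (-Z)` from `∑ F q h log (r h)`. If there are at least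
`card H / ρ` rows, the number `Z` is at most a power of the heights times `W`, the bound of `log (u q)`. -/
theorem simul : ∃ C : ℕ, 1 ≤ C ∧ ∀ (H B : Type) [Fintype H] [Fintype B] [DecidableEq H]
    [DecidableEq B] (D : CD H B), D.OK → ∀ (E W Y Z : ℝ) (ρ : ℕ),
    (∀ h ∈ D.U, log (D.r h) ≤ E) → 1 ≤ E → (∀ h, log (D.r h) ≤ exp Y) →
    (∀ q, log (D.u q) ≤ W) → 1 ≤ W → (∀ q h, |(D.F q h : ℝ)| ≤ exp Y) → 1 ≤ Y →
    (∀ q, |D.Lam q| ≤ 2 * exp (-Z)) → 1 ≤ Fintype.card B →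
    Fintype.card H ≤ ρ * Fintype.card B →
    2 * (Fintype.card H - D.U.card) ≤ Fintype.card B →
    Z ≤ (((Fintype.card H : ℝ) + 1) * E * (Y + log W)) ^ (C * ρ) *
      W ^ (1 + 2 * ((Fintype.card H - D.U.card : ℕ) : ℝ) / (Fintype.card B : ℝ)) := by
  refine ⟨200, by norm_num, ?_⟩
  intro H B _ _ _ _ D hD E W Y Z ρ hE hE1 hr hu hW1 hF hY1 hLam hB hHB hU
  by_contra hcon
  push Not at hcon
  set n := Fintype.card H with hn
  set t := Fintype.card B with ht
  set u := D.U.card with hu'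
  -- sizes
  have htn : t ≤ n := by
    have h1 := hD.F_indep.fintype_card_le_finrank
    rwa [Module.finrank_fintype_fun_eq_card] at h1
  have hun : u ≤ n := Finset.card_le_univ _
  have hn1 : 1 ≤ n := hB.trans htn
  have hρ1 : 1 ≤ ρ := by
    by_contra h0
    have h1 : ρ = 0 := by omega
    rw [h1, zero_mul] at hHB
    omega
  set Q : ℝ := ((n : ℝ) + 1) * E * (Y + log W) with hQdef
  have hlogW : 0 ≤ log W := log_nonneg hW1
  have hn0 : (1 : ℝ) ≤ n := by exact_mod_cast hn1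
  have hYW : 1 ≤ Y + log W := by linarith
  have hnQ : (n : ℝ) + 1 ≤ Q := by
    have h1 : (n : ℝ) + 1 ≤ ((n : ℝ) + 1) * E := le_mul_of_one_le_right (by linarith) hE1
    exact h1.trans (le_mul_of_one_le_right (by positivity) hYW)
  have hEn : E ≤ ((n : ℝ) + 1) * E := le_mul_of_one_le_left (by linarith) (by linarith)
  have hEQ : E ≤ Q := hEn.trans (le_mul_of_one_le_right (by positivity) hYW)
  have hE1' : 1 ≤ ((n : ℝ) + 1) * E := hE1.trans hEn
  have hYWQ : Y + log W ≤ Q := le_mul_of_one_le_left (by linarith) hE1'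
  have hYQ : Y ≤ Q := by linarith
  have hWQ : log W ≤ Q := by linarith
  have hQ2 : 2 ≤ Q := by linarith
  have hQ0 : 0 < Q := by linarith
  set k := n - u with hk
  set e : ℝ := 1 + 2 * (k : ℝ) / (t : ℝ) with he
  have ht0 : (0 : ℝ) < t := by exact_mod_cast hB
  have hkt : 2 * (k : ℝ) ≤ t := by exact_mod_cast hU
  have he1 : 1 ≤ e := by
    rw [he]
    have : 0 ≤ 2 * (k : ℝ) / (t : ℝ) := by positivity
    linarith
  have he2 : e ≤ 2 := by
    rw [he]
    have : 2 * (k : ℝ) / (t : ℝ) ≤ 1 := (div_le_one ht0).2 hkt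
    linarith
  -- the exponent `ρ` may be assumed to be at most `n`
  set ρ' := min ρ n with hρ'
  have hρ'1 : 1 ≤ ρ' := le_min hρ1 hn1
  have hnρ' : n ≤ ρ' * t := by
    rcases le_total ρ n with h | h
    · rw [hρ', min_eq_left h]
      exact hHB
    · rw [hρ', min_eq_right h]
      exact Nat.le_mul_of_pos_right n hB
  set D0 : ℝ := W ^ e * Q ^ (120 * ρ') with hD0
  have hWe : 1 ≤ W ^ e := one_le_rpow hW1 (by linarith)
  have hQρ : 1 ≤ Q ^ (120 * ρ') := one_le_pow₀ (by linarith)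
  have hD1 : 1 ≤ D0 := by
    rw [hD0]
    exact one_le_mul_of_one_le_of_one_le hWe hQρ
  have hDlog : log D0 ≤ 121 * Q ^ 2 := by
    rw [hD0, log_mul (by positivity) (by positivity), log_rpow (by linarith), log_pow]
    have h1 : e * log W ≤ 2 * Q :=
      (mul_le_mul_of_nonneg_right he2 hlogW).trans (mul_le_mul_of_nonneg_left hWQ (by norm_num))
    have h2 : log Q ≤ Q := by
      have := log_le_sub_one_of_pos hQ0
      linarith
    have h3 : ((120 * ρ' : ℕ) : ℝ) ≤ 120 * Q := by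
      have h4 : (ρ' : ℝ) ≤ n := by exact_mod_cast min_le_right ρ n
      push_cast
      linarith
    have h5 : ((120 * ρ' : ℕ) : ℝ) * log Q ≤ 120 * Q * Q := by
      apply mul_le_mul h3 h2 (log_nonneg (by linarith)) (by positivity)
    have h6 : 2 * Q ≤ Q * Q := mul_le_mul_of_nonneg_right hQ2 hQ0.le
    have h7 : (121 : ℝ) * Q ^ 2 = Q * Q + 120 * Q * Q := by ring
    rw [h7]
    exact (add_le_add h1 h5).trans (add_le_add h6 le_rfl)
  clear_value Q e D0
  obtain ⟨p, hph, hpQ, hpD⟩ : ∃ p : SP, p.h = n ∧ p.Q = Q ∧ p.D0 = D0 :=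
    ⟨⟨n, Q, D0, hn1, hnQ, hD1, hDlog⟩, rfl, rfl, rfl⟩
  have hZ : Q ^ 53 * D0 ≤ Z := by
    refine le_trans ?_ hcon.le
    have h1 : Q ^ 53 * Q ^ (120 * ρ') ≤ Q ^ (200 * ρ) := by
      rw [← pow_add]
      apply pow_le_pow_right₀ (by linarith)
      have h2 : ρ' ≤ ρ := min_le_left _ _
      omega
    calc Q ^ 53 * D0 = Q ^ 53 * Q ^ (120 * ρ') * W ^ e := by
          rw [hD0, mul_comm (W ^ e), mul_assoc]
      _ ≤ Q ^ (200 * ρ) * W ^ e := mul_le_mul_of_nonneg_right h1 (by linarith)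
  -- the box
  set x := ⌊D0 / E⌋₊ with hx
  set y := ⌊D0 / W⌋₊ with hy
  have hE0 : 0 < E := by linarith
  have hW0 : 0 < W := by linarith
  have hDE : 1 ≤ D0 / E := by
    rw [le_div_iff₀ hE0, one_mul]
    calc E ≤ Q := hEQ
      _ = Q ^ 1 := (pow_one Q).symm
      _ ≤ Q ^ (120 * ρ') := pow_le_pow_right₀ (by linarith) (by omega)
      _ ≤ W ^ e * Q ^ (120 * ρ') := le_mul_of_one_le_left (by positivity) hWe
      _ = D0 := hD0.symm
  have hDW : 1 ≤ D0 / W := by
    rw [le_div_iff₀ hW0, one_mul]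
    calc W = W ^ (1 : ℝ) := (rpow_one W).symm
      _ ≤ W ^ e := rpow_le_rpow_of_exponent_le hW1 he1
      _ ≤ W ^ e * Q ^ (120 * ρ') := le_mul_of_one_le_right (by positivity) hQρ
      _ = D0 := hD0.symm
  have hx1 : 1 ≤ x := (Nat.one_le_floor_iff _).2 hDE
  have hy1 : 1 ≤ y := (Nat.one_le_floor_iff _).2 hDW
  have hxle : (x : ℝ) ≤ D0 / E := Nat.floor_le (by positivity)
  have hyle : (y : ℝ) ≤ D0 / W := Nat.floor_le (by positivity)
  have hxD : (x : ℝ) ≤ D0 := hxle.trans (div_le_self (by linarith) hE1)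
  have hyD : (y : ℝ) ≤ D0 := hyle.trans (div_le_self (by linarith) hW1)
  have hxhalf : D0 / (2 * E) ≤ x := by
    have h1 := half_le_floor hDE
    calc D0 / (2 * E) = D0 / E / 2 := by rw [div_div, mul_comm]
      _ ≤ _ := h1
  have hyhalf : D0 / (2 * W) ≤ y := by
    have h1 := half_le_floor hDW
    calc D0 / (2 * W) = D0 / W / 2 := by rw [div_div, mul_comm]
      _ ≤ _ := h1
  -- heights
  have hsumU : ∑ h ∈ D.U, log (D.r h : ℝ) ≤ u * E := by
    calc ∑ h ∈ D.U, log (D.r h : ℝ) ≤ ∑ _h ∈ D.U, E := Finset.sum_le_sum hE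
      _ = u * E := by rw [Finset.sum_const, nsmul_eq_mul]
  have hsumu : ∑ q, log (D.u q : ℝ) ≤ t * W := by
    calc ∑ q, log (D.u q : ℝ) ≤ ∑ _q : B, W := Finset.sum_le_sum fun q _ => hu q
      _ = t * W := by rw [Finset.sum_const, Finset.card_univ, nsmul_eq_mul]
  have hht : D.ht x y ≤ 2 * n * D0 := by
    unfold CD.ht
    have h1 : (x : ℝ) * ∑ h ∈ D.U, log (D.r h : ℝ) ≤ n * D0 := by
      calc (x : ℝ) * ∑ h ∈ D.U, log (D.r h : ℝ) ≤ x * (u * E) :=
            mul_le_mul_of_nonneg_left hsumU (by positivity)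
        _ ≤ (D0 / E) * (u * E) := mul_le_mul_of_nonneg_right hxle (by positivity)
        _ = u * D0 := by field_simp
        _ ≤ n * D0 := by
            apply mul_le_mul_of_nonneg_right _ (by linarith)
            exact_mod_cast hun
    have h2 : (y : ℝ) * ∑ q, log (D.u q : ℝ) ≤ n * D0 := by
      calc (y : ℝ) * ∑ q, log (D.u q : ℝ) ≤ y * (t * W) :=
            mul_le_mul_of_nonneg_left hsumu (by positivity)
        _ ≤ (D0 / W) * (t * W) := mul_le_mul_of_nonneg_right hyle (by positivity)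
        _ = t * D0 := by field_simp
        _ ≤ n * D0 := by
            apply mul_le_mul_of_nonneg_right _ (by linarith)
            exact_mod_cast htn
    linarith
  have hht1 : D.ht (p.N1 * x) (p.N1 * y) = p.N1 * D.ht x y := by
    unfold CD.ht
    push_cast
    ring
  have hN0 : (0 : ℝ) ≤ p.N1 := by positivity
  have htn' : (t : ℝ) ≤ p.h := by
    rw [hph]
    exact_mod_cast htn
  have hZ' : p.Q ^ 53 * p.D0 ≤ Z := by
    rw [hpQ, hpD]
    exact hZ
  have hyD' : (y : ℝ) ≤ p.D0 := by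
    rw [hpD]
    exact hyD
  have hy1le : (((p.N1 * y : ℕ)) : ℝ) ≤ p.N1 * p.D0 := by
    push_cast
    rw [hpD]
    exact mul_le_mul_of_nonneg_left hyD hN0
  have hx1le : (((p.N1 * x : ℕ)) : ℝ) ≤ p.N1 * p.D0 := by
    push_cast
    rw [hpD]
    exact mul_le_mul_of_nonneg_left hxD hN0
  have hexpY : 1 ≤ exp Y := one_le_exp (by linarith)
  have hC := p.hC (exp p.Yc) (one_le_exp (by positivity)) le_rfl
  have hT1 := p.hT1
  have hrows := p.hrows
  have hTh : (p.h : ℝ) * (n * exp Y) + 1 ≤ exp (4 * p.Q) := by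
    rw [hph, hpQ]
    have h1 : (n : ℝ) ≤ exp Q := by
      have := add_one_le_exp Q
      linarith
    have h2 : exp Y ≤ exp Q := exp_le_exp.2 hYQ
    have h3 : (n : ℝ) * (n * exp Y) ≤ exp Q * (exp Q * exp Q) := by
      apply mul_le_mul h1 _ (by positivity) (exp_pos _).le
      exact mul_le_mul h1 h2 (exp_pos _).le (exp_pos _).le
    have h4 : exp Q * (exp Q * exp Q) = exp (3 * Q) := by
      rw [← exp_add, ← exp_add]
      congr 1
      ring
    have h5 : exp (4 * Q) = exp (3 * Q) * exp Q := by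
      rw [← exp_add]
      congr 1
      ring
    have h6 : 1 ≤ exp (3 * Q) := one_le_exp (by linarith)
    have h7 : 2 ≤ exp Q := by
      have := add_one_le_exp Q
      linarith
    rw [h5]
    rw [h4] at h3
    have h8 : exp (3 * Q) * 2 ≤ exp (3 * Q) * exp Q :=
      mul_le_mul_of_nonneg_left h7 (exp_pos _).le
    have h9 : exp (3 * Q) + 1 ≤ exp (3 * Q) * 2 := by linarith only [h6]
    exact (add_le_add h3 le_rfl).trans (h9.trans h8)
  have hL := p.hL Z (n * exp Y) _ t (((p.N1 * y : ℕ)) : ℝ) htn' hy1le (by positivity) hZ'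
      (by positivity) hTh (by positivity) hC
  have hdel := p.hdel Z t _ htn' hy1le (by positivity) hZ'
  have hinj := p.hinj Z t y (D.ht x y) htn' hyD' (by positivity) (by rw [hph, hpD]; exact hht) hZ'
  have hT0 := p.T0_le
  rw [hpQ, hpD] at hT0
  have hcount := sim_count n t u ρ' p.T0 x y E W Q D0 hQ2 hEQ hE1 hW1 hB htn hnρ' hun hU hT0 hxhalf
      hyhalf (by rw [hD0, he])
  have hyT : 2 * y ≤ p.T0 := by
    have h1 : (2 : ℝ) * y ≤ p.T0 := by
      have h2 := p.two_D0_le_T0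
      rw [hpD] at h2
      linarith
    exact_mod_cast h1
  have hN1 : n + 1 + p.S' ≤ p.N1 := by
    unfold SP.N1
    rw [hph]
  have hOm : 2 * D.ht (p.N1 * x) (p.N1 * y) + 1 ≤ p.Om := by
    rw [hht1]
    have h1 : (p.N1 : ℝ) * D.ht x y ≤ p.N1 * (2 * n * D0) := mul_le_mul_of_nonneg_left hht hN0
    have h2 : p.Om = 4 * n * p.N1 * D0 + 1 := by
      unfold SP.Om
      rw [hph, hpD]
    rw [h2]
    linarith
  have hZc : (((p.N1 * x : ℕ)) : ℝ) + t * (((p.N1 * y : ℕ)) : ℝ) * exp Y ≤ exp p.Yc := by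
    refine le_trans ?_ (p.Zc_le Y (by linarith) (by rw [hpQ]; exact hYQ))
    have h1 : (t : ℝ) * (((p.N1 * y : ℕ)) : ℝ) * exp Y ≤ p.h * (p.N1 * p.D0) * exp Y := by
      apply mul_le_mul_of_nonneg_right _ (exp_pos _).le
      exact mul_le_mul htn' hy1le (by positivity) (by positivity)
    calc (((p.N1 * x : ℕ)) : ℝ) + t * (((p.N1 * y : ℕ)) : ℝ) * exp Y
        ≤ p.N1 * p.D0 + p.h * (p.N1 * p.D0) * exp Y := add_le_add hx1le h1
      _ = p.N1 * p.D0 * (1 + p.h * exp Y) := by ring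
  have hThs : ∑ h, log (D.r h : ℝ) ≤ n * exp Y := by
    calc ∑ h, log (D.r h : ℝ) ≤ ∑ _h : H, exp Y := Finset.sum_le_sum fun h _ => hr h
      _ = n * exp Y := by rw [Finset.sum_const, Finset.card_univ, nsmul_eq_mul]
  have hSS : p.S ≤ p.S' := by
    unfold SP.S'
    omega
  rw [hph] at hC hT1 hrows hL
  exact D.core hD (2 * exp (-Z)) hLam (exp Y) hF n x y p.T0 p.K p.K' p.m p.S p.S' p.N1
    (p.N1 * x) (p.N1 * y) (exp p.Yc) (n * exp Y) p.Om
    (t * (((p.N1 * y : ℕ)) : ℝ) * (2 * exp (-Z))) hn.symm hx1 hy1 hinj hcount hyT hT1 hN1 le_rfl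
    le_rfl hOm hZc (one_le_exp (by positivity)) hThs le_rfl p.K'1 p.hKm p.m1 p.S1 hSS p.hmS hC
    hdel hL hrows

end Pool.Agent.MP_f02ea4.QR
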