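import Mathlib
import Pool.Agent.Lib.MP_f02ea4_nt.QR.FinalQ
import Pool.Agent.Lib.MP_f02ea4_nt.QR.Simul
import Pool.Agent.Lib.MP_f02ea4_nt.QR.Dich

/-! The final theorem, unconditionally (MP_f02ea4). -/

set_option autoImplicit false

namespace Pool.Agent.MP_f02ea4.QR

open Finset Real
open Pool.Agent.Lib.MP_f02ea4_nt.Ml (basics)

/-- the radical, the general inequality and the dichotomy -/
theorem quasi_radical : ∃ C : ℕ, 1 ≤ C ∧ ∀ N : ℕ, Odd N → Nat.Perfect N →
    log (log (N : ℝ)) ≤ C * log (log ((∏ p ∈ N.primeFactors, p : ℕ) : ℝ)) ^ 2 ∧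
    (∀ (y m : ℕ) (l lam : ℝ), 3 ≤ y → m = (N.primeFactors.filter (y < ·)).card →
      l = 1 + log (1 + (N.primeFactors.filter (· ≤ y)).card / log (log (N : ℝ))) →
      lam = log (log (log (N : ℝ)) + log y) →
      log (log (N : ℝ)) ≤ C * (m + l * (lam + min l (lam * log y / log (log N))))) ∧
    (C ≤ N → exp (√(log (log (N : ℝ))) / C) ≤ N.primeFactors.card ∨
      log (log (N : ℝ)) ≤ C * (N.primeFactors.filter
        (fun p : ℕ => exp (exp (log (log (N : ℝ)) / (C * log N.primeFactors.card))) < p)).card) := by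
  obtain ⟨C0, hC01, hC0⟩ := simul
  have hS : SimulC C0 := hC0
  obtain ⟨C1, hC11, h1⟩ := final_of hS hC01
  obtain ⟨C2, hC21, h2⟩ := dich C1 hC11 (fun N hodd hN => (h1 N hodd hN).2)
  refine ⟨C1 + C2, by omega, fun N hodd hN => ⟨?_, ?_, ?_⟩⟩
  · refine (h1 N hodd hN).1.trans ?_
    apply mul_le_mul_of_nonneg_right _ (sq_nonneg _)
    exact_mod_cast (by omega : C1 ≤ C1 + C2)
  · intro y m l lam hy hm hl hlam
    have h := (h1 N hodd hN).2 y m l lam hy hm hl hlam
    have hL0 : 0 ≤ log (log (N : ℝ)) := Real.log_nonneg (basics N hodd hN).1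
    obtain ⟨S, hSd⟩ : ∃ S : ℝ, S = m + l * (lam + min l (lam * log y / log (log N))) := ⟨_, rfl⟩
    rw [← hSd] at h ⊢
    have hC1R : (1 : ℝ) ≤ C1 := by exact_mod_cast hC11
    have hS0 : 0 ≤ S := by
      by_contra hc
      rw [not_le] at hc
      nlinarith
    refine h.trans ?_
    apply mul_le_mul_of_nonneg_right _ hS0
    exact_mod_cast (by omega : C1 ≤ C1 + C2)
  · intro hCN
    exact h2 (C1 + C2) (by omega) N hodd hN hCN

end Pool.Agent.MP_f02ea4.QR
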