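import Mathlib
import Pool.Agent.Lib.MP_f02ea4_nt.Mg.G028
import Pool.Agent.Lib.MP_f02ea4_nt.AE.Avg

/-! Many large primes, the bounds with powers of `log N`, version with `C ^ (j + 1)`. -/

set_option autoImplicit false

namespace Pool.Agent.MP_f02ea4.QR

open Finset Real

open Pool.Agent.Lib.MP_f02ea4_nt.Ml (basics i_loglog_pos final2)
open Pool.Agent.Lib.MP_f02ea4_nt.AE (average)

/-- absorb a power of the logarithm -/
private lemma pv3_absorb {K : ℕ} (hK : 1 ≤ K) {δ X : ℝ} (hδ : 0 < δ) (hX : 1 ≤ X) :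
    ((K : ℝ) * log X) ^ K ≤ ((K : ℝ) ^ 2 / δ) ^ K * X ^ δ := by
  have hKR : (0 : ℝ) < K := by exact_mod_cast hK
  have hX0 : 0 < X := by linarith
  have h1 : log X ≤ X ^ (δ / K) / (δ / K) := Real.log_le_rpow_div hX0.le (by positivity)
  have h2 : (K : ℝ) * log X ≤ (K : ℝ) ^ 2 / δ * X ^ (δ / K) := by
    refine (mul_le_mul_of_nonneg_left h1 hKR.le).trans (le_of_eq ?_)
    field_simp
  refine (pow_le_pow_left₀ (mul_nonneg hKR.le (log_nonneg hX)) h2 _).trans (le_of_eq ?_)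
  rw [mul_pow, ← Real.rpow_natCast (X ^ (δ / K)) K, ← Real.rpow_mul hX0.le,
    div_mul_cancel₀ _ hKR.ne']

/-- the case of one large prime -/
private lemma pv3_one {ε : ℝ} (hε : 0 < ε) {K : ℕ} (hK : 1 ≤ K) : ∃ D : ℝ, 1 ≤ D ∧
    ∀ X y : ℝ, 1 ≤ X → 1 ≤ y →
      X ≤ K * y ^ (3 / 2 + ε / 4) * ((K : ℝ) * log X) ^ K → X ≤ D ^ 2 * y ^ (3 / 2 + ε) := by
  obtain ⟨δ, hδ⟩ : ∃ δ : ℝ, δ = min (1 / 4) (ε / 4) := ⟨_, rfl⟩
  have hδ0 : 0 < δ := by rw [hδ]; positivity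
  have hδ1 : δ ≤ 1 / 4 := by rw [hδ]; exact min_le_left _ _
  have hδ2 : δ ≤ ε / 4 := by rw [hδ]; exact min_le_right _ _
  have hKR : (1 : ℝ) ≤ K := by exact_mod_cast hK
  obtain ⟨D, hD⟩ : ∃ D : ℝ, D = (K : ℝ) * ((K : ℝ) ^ 2 / δ) ^ K := ⟨_, rfl⟩
  have h1 : (1 : ℝ) ≤ (K : ℝ) ^ 2 / δ := by
    rw [le_div_iff₀ hδ0]
    nlinarith
  have hD1 : 1 ≤ D := by
    rw [hD]
    exact one_le_mul_of_one_le_of_one_le hKR (one_le_pow₀ h1)
  refine ⟨D, hD1, fun X y hX hy h => ?_⟩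
  have hX0 : 0 < X := by linarith
  have hy0 : 0 < y := by linarith
  have h2 : X ≤ D * y ^ (3 / 2 + ε / 4) * X ^ δ := by
    refine h.trans ((mul_le_mul_of_nonneg_left (pv3_absorb hK hδ0 hX) (by positivity)).trans
      (le_of_eq ?_))
    rw [hD]
    ring
  have h3 : X ^ (1 - δ) ≤ D * y ^ (3 / 2 + ε / 4) := by
    rw [Real.rpow_sub hX0, Real.rpow_one, div_le_iff₀ (Real.rpow_pos_of_pos hX0 _)]
    exact h2
  have hne : (1 : ℝ) - δ ≠ 0 := by
    have : 0 < 1 - δ := by linarith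
    exact this.ne'
  have h4 : X = (X ^ (1 - δ)) ^ (1 / (1 - δ)) := by
    rw [← Real.rpow_mul hX0.le, mul_one_div_cancel hne, Real.rpow_one]
  rw [h4]
  have h5 : (0 : ℝ) < 1 / (1 - δ) := by
    have : 0 < 1 - δ := by linarith
    positivity
  refine (Real.rpow_le_rpow (by positivity) h3 h5.le).trans ?_
  rw [Real.mul_rpow (by linarith) (by positivity), ← Real.rpow_mul hy0.le]
  have h6 : 1 / (1 - δ) ≤ 2 := by
    rw [div_le_iff₀ (by linarith)]
    linarith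
  have h7 : D ^ (1 / (1 - δ)) ≤ D ^ 2 := by
    rw [← Real.rpow_natCast D 2]
    exact Real.rpow_le_rpow_of_exponent_le hD1 (by exact_mod_cast h6)
  have h8 : (3 / 2 + ε / 4) * (1 / (1 - δ)) ≤ 3 / 2 + ε := by
    rw [mul_one_div, div_le_iff₀ (by linarith)]
    nlinarith
  exact mul_le_mul h7 (Real.rpow_le_rpow_of_exponent_le hy h8) (by positivity) (by positivity)

/-- the number of prime factors above a power of the logarithm -/
private lemma pv3_many (hcore : ∀ ε : ℝ, 0 < ε → ∃ C : ℕ, 1 ≤ C ∧ ∀ N y : ℕ, Odd N →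
      Nat.Perfect N → 2 ≤ y →
      log N ≤ (C : ℝ) ^ ((N.primeFactors.filter (y < ·)).card + 1) *
        ((((N.primeFactors.filter (· ≤ y)).card : ℝ) + 1) * (y : ℝ) ^ (1 + ε)))
    (ε : ℝ) (hε : 0 < ε) : ∃ C : ℝ, 0 ≤ C ∧ ∀ N : ℕ, Odd N → Nat.Perfect N →
    (C ≤ N → log (log N) ≤
      C * (N.primeFactors.filter (fun p : ℕ => log (N : ℝ) ^ (1 / 2 - ε) < p)).card) := by
  obtain ⟨e, he⟩ : ∃ e : ℝ, e = min (1 / 4) ε := ⟨_, rfl⟩
  have he0 : 0 < e := by rw [he]; positivity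
  have he1 : e ≤ 1 / 4 := by rw [he]; exact min_le_left _ _
  have he2 : e ≤ ε := by rw [he]; exact min_le_right _ _
  obtain ⟨C1, hC1, h1⟩ := hcore e he0
  have hC1R : (1 : ℝ) ≤ C1 := by exact_mod_cast hC1
  have hl0 : 0 ≤ log (2 * (C1 : ℝ)) := log_nonneg (by linarith)
  obtain ⟨M, hM⟩ : ∃ M : ℝ, M = 16 + Real.exp (log (2 * C1) / e) := ⟨_, rfl⟩
  refine ⟨Real.exp M + 2 * log (2 * C1) / e, by positivity, fun N hodd hN hCN => ?_⟩
  have hNpos : (0 : ℝ) < N := by exact_mod_cast hN.2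
  have h2 : Real.exp M ≤ N := le_trans (by
    have : 0 ≤ 2 * log (2 * (C1 : ℝ)) / e := by positivity
    linarith) hCN
  obtain ⟨X, hX⟩ : ∃ X : ℝ, X = log (N : ℝ) := ⟨_, rfl⟩
  have hXM : M ≤ X := by
    rw [hX]
    exact (Real.le_log_iff_exp_le hNpos).2 h2
  have hexp : 0 < Real.exp (log (2 * (C1 : ℝ)) / e) := Real.exp_pos _
  have hX16 : 16 ≤ X := by linarith
  have hX0 : 0 < X := by linarith
  have hX1 : 1 ≤ X := by linarith
  have hlX : log (2 * (C1 : ℝ)) / e < log X := by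
    rw [Real.lt_log_iff_exp_lt hX0]
    linarith
  rw [← hX]
  -- the threshold
  obtain ⟨y, hy⟩ : ∃ y : ℕ, y = ⌊X ^ (1 / 2 - e)⌋₊ := ⟨_, rfl⟩
  have hpw : (2 : ℝ) ≤ X ^ (1 / 2 - e) := by
    have h3 : (16 : ℝ) ^ (1 / 4 : ℝ) = 2 := by
      have : (16 : ℝ) = 2 ^ (4 : ℝ) := by norm_num
      rw [this, ← Real.rpow_mul (by norm_num)]
      norm_num
    calc (2 : ℝ) = (16 : ℝ) ^ (1 / 4 : ℝ) := h3.symm
      _ ≤ X ^ (1 / 4 : ℝ) := Real.rpow_le_rpow (by norm_num) hX16 (by norm_num)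
      _ ≤ X ^ (1 / 2 - e) := Real.rpow_le_rpow_of_exponent_le hX1 (by linarith)
  have hy2 : 2 ≤ y := by
    rw [hy]
    exact Nat.le_floor (by exact_mod_cast hpw)
  have hyR : (2 : ℝ) ≤ y := by exact_mod_cast hy2
  have hyX : (y : ℝ) ≤ X ^ (1 / 2 - e) := by
    rw [hy]
    exact Nat.floor_le (by linarith)
  have h3 := h1 N y hodd hN hy2
  rw [← hX] at h3
  obtain ⟨j, hj⟩ : ∃ j : ℕ, j = (N.primeFactors.filter (y < ·)).card := ⟨_, rfl⟩
  rw [← hj] at h3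
  have h4 : ((N.primeFactors.filter (· ≤ y)).card : ℝ) + 1 ≤ 2 * y := by
    have h5 : (N.primeFactors.filter (· ≤ y)).card ≤ y := by
      have h6 : N.primeFactors.filter (· ≤ y) ⊆ Finset.Icc 1 y := by
        intro p hp
        obtain ⟨hp1, hp2⟩ := Finset.mem_filter.1 hp
        exact Finset.mem_Icc.2 ⟨(Nat.prime_of_mem_primeFactors hp1).one_lt.le, hp2⟩
      have h7 := Finset.card_le_card h6
      rwa [Nat.card_Icc, Nat.add_sub_cancel] at h7
    have h6 : ((N.primeFactors.filter (· ≤ y)).card : ℝ) ≤ y := by exact_mod_cast h5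
    linarith
  have h5 : X ≤ (C1 : ℝ) ^ (j + 1) * (2 * X ^ (1 - e)) := by
    refine h3.trans (mul_le_mul_of_nonneg_left ?_ (by positivity))
    have h6 : (((N.primeFactors.filter (· ≤ y)).card : ℝ) + 1) * (y : ℝ) ^ (1 + e) ≤
        2 * ((y : ℝ) ^ (2 + e)) := by
      refine (mul_le_mul_of_nonneg_right h4 (by positivity)).trans (le_of_eq ?_)
      have : (2 : ℝ) + e = 1 + (1 + e) := by ring
      rw [this, Real.rpow_add (by linarith) 1 (1 + e), Real.rpow_one]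
      ring
    refine h6.trans (mul_le_mul_of_nonneg_left ?_ (by norm_num))
    refine (Real.rpow_le_rpow (by linarith) hyX (by linarith)).trans ?_
    rw [← Real.rpow_mul hX0.le]
    refine Real.rpow_le_rpow_of_exponent_le hX1 ?_
    nlinarith
  have h6 : X ^ e ≤ (2 * (C1 : ℝ)) ^ (j + 1) := by
    have h7 : X ^ e ≤ 2 * (C1 : ℝ) ^ (j + 1) := by
      have h8 : X ^ (1 - e) * X ^ e = X := by
        rw [← Real.rpow_add hX0]
        simp
      have h9 : 0 < X ^ (1 - e) := Real.rpow_pos_of_pos hX0 _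
      have h10 : X ^ (1 - e) * X ^ e ≤ X ^ (1 - e) * (2 * (C1 : ℝ) ^ (j + 1)) := by
        rw [h8]
        linarith
      exact le_of_mul_le_mul_left h10 h9
    refine h7.trans ?_
    rw [mul_pow]
    refine mul_le_mul_of_nonneg_right ?_ (by positivity)
    exact le_self_pow₀ (by norm_num) (Nat.succ_ne_zero j)
  have h7 : e * log X ≤ ((j : ℝ) + 1) * log (2 * C1) := by
    have h8 := Real.log_le_log (Real.rpow_pos_of_pos hX0 _) h6
    rw [Real.log_rpow hX0, Real.log_pow] at h8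
    push_cast at h8
    exact h8
  have hj1 : 1 ≤ j := by
    by_contra hj0
    have hj0' : j = 0 := by omega
    rw [hj0'] at h7
    rw [div_lt_iff₀ he0] at hlX
    push_cast at h7
    linarith
  have hj1R : (1 : ℝ) ≤ j := by exact_mod_cast hj1
  have h8 : log X ≤ 2 * log (2 * C1) / e * j := by
    rw [div_mul_eq_mul_div, le_div_iff₀ he0]
    nlinarith
  have h9 : (j : ℝ) ≤ ((N.primeFactors.filter (fun p : ℕ => X ^ (1 / 2 - ε) < p)).card : ℝ) := by
    rw [hj]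
    refine Nat.cast_le.2 (Finset.card_le_card fun p hp => ?_)
    obtain ⟨hp1, hp2⟩ := Finset.mem_filter.1 hp
    refine Finset.mem_filter.2 ⟨hp1, ?_⟩
    rw [hy, Nat.floor_lt (by linarith)] at hp2
    exact (Real.rpow_le_rpow_of_exponent_le hX1 (by linarith)).trans_lt hp2
  refine h8.trans ?_
  have h10 : 0 ≤ 2 * log (2 * (C1 : ℝ)) / e := by positivity
  have h11 : 0 ≤ Real.exp M := (Real.exp_pos _).le
  refine (mul_le_mul_of_nonneg_left h9 h10).trans ?_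
  refine mul_le_mul_of_nonneg_right ?_ (Nat.cast_nonneg _)
  linarith

/-- all parts with one constant -/
theorem powers_v3 (hcore : ∀ ε : ℝ, 0 < ε → ∃ C : ℕ, 1 ≤ C ∧ ∀ N y : ℕ, Odd N → Nat.Perfect N → 2 ≤ y →
      log N ≤ (C : ℝ) ^ ((N.primeFactors.filter (y < ·)).card + 1) *
        ((((N.primeFactors.filter (· ≤ y)).card : ℝ) + 1) * (y : ℝ) ^ (1 + ε)))
    (ε : ℝ) (hε : 0 < ε) : ∃ C : ℕ, 1 ≤ C ∧ ∀ N : ℕ, Odd N → Nat.Perfect N →
    (∀ y k j : ℕ, 2 ≤ y → k = (N.primeFactors.filter (· ≤ y)).card + 1 →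
      j = (N.primeFactors.filter (y < ·)).card →
      log N ≤ (C : ℝ) ^ (j + 1) * (y : ℝ) ^ ε *
        (if j = 0 then (k : ℝ) * (y : ℝ) ^ (1 / 2 : ℝ)
          else if j = 1 then min ((k : ℝ) * y) ((y : ℝ) ^ (3 / 2 : ℝ)) else (k : ℝ) * y)) ∧
    (C ≤ N → log (log N) ≤
      C * (N.primeFactors.filter (fun p : ℕ => log (N : ℝ) ^ (1 / 2 - ε) < p)).card) := by
  obtain ⟨C1, h1⟩ := average ε hε
  obtain ⟨C1', hC1'⟩ := exists_nat_ge C1
  obtain ⟨C2, hC2, h2⟩ := hcore ε hε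
  obtain ⟨K, hK, h3⟩ := final2 (ε / 4) (by positivity)
  obtain ⟨D, hD, hD'⟩ := pv3_one hε hK
  obtain ⟨C3, hC3⟩ := exists_nat_ge D
  obtain ⟨C4, hC4, h4⟩ := pv3_many hcore ε hε
  obtain ⟨C5, hC5⟩ := exists_nat_ge C4
  obtain ⟨C, hC⟩ : ∃ C : ℕ, C = C1' + C2 + C3 + C5 + 1 := ⟨_, rfl⟩
  have hCR : (1 : ℝ) ≤ C := by exact_mod_cast (by omega : 1 ≤ C)
  have hC1C : C1 ≤ C := hC1'.trans (by exact_mod_cast (by omega : C1' ≤ C))
  have hC2C : (C2 : ℝ) ≤ C := by exact_mod_cast (by omega : C2 ≤ C)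
  have hDC : D ≤ C := hC3.trans (by exact_mod_cast (by omega : C3 ≤ C))
  have hC4C : C4 ≤ C := hC5.trans (by exact_mod_cast (by omega : C5 ≤ C))
  refine ⟨C, by omega, ?_⟩
  intro N hodd hN
  obtain ⟨hX1, -, -, -⟩ := basics N hodd hN
  refine ⟨?_, ?_⟩
  · intro y k j hy hk hj
    have hy0 : (0 : ℝ) < (y : ℝ) := by exact_mod_cast (by omega : 0 < y)
    have hy1 : (1 : ℝ) ≤ (y : ℝ) := by exact_mod_cast (by omega : 1 ≤ y)
    have hkR : (k : ℝ) = ((N.primeFactors.filter (· ≤ y)).card : ℝ) + 1 := by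
      rw [hk]; push_cast; rfl
    have hk1 : (1 : ℝ) ≤ k := by
      rw [hkR]
      have : (0 : ℝ) ≤ ((N.primeFactors.filter (· ≤ y)).card : ℝ) := Nat.cast_nonneg _
      linarith
    -- the bound `k y`
    have hky : log (N : ℝ) ≤ (C : ℝ) ^ (j + 1) * (y : ℝ) ^ ε * ((k : ℝ) * y) := by
      have h6 := h2 N y hodd hN hy
      rw [← hj, ← hkR] at h6
      refine h6.trans ?_
      have h7 : (C2 : ℝ) ^ (j + 1) ≤ (C : ℝ) ^ (j + 1) :=
        pow_le_pow_left₀ (Nat.cast_nonneg _) hC2C _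
      have h8 : (y : ℝ) ^ (1 + ε) = y * (y : ℝ) ^ ε := by
        rw [Real.rpow_add hy0, Real.rpow_one]
      rw [h8]
      refine (mul_le_mul_of_nonneg_right h7 (by positivity)).trans (le_of_eq ?_)
      ring
    by_cases hj0 : j = 0
    · rw [if_pos hj0]
      have hall : ∀ p ∈ N.primeFactors, p ≤ y := by
        intro p hp
        by_contra hc
        have h6 : p ∈ N.primeFactors.filter (y < ·) := Finset.mem_filter.2 ⟨hp, not_le.1 hc⟩
        have h7 : 0 < (N.primeFactors.filter (y < ·)).card := Finset.card_pos.2 ⟨p, h6⟩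
        omega
      have h6 := h1 N y hodd hN hall
      have h7 : N.primeFactors.filter (· ≤ y) = N.primeFactors :=
        Finset.filter_true_of_mem hall
      rw [h7] at hkR
      have h8 : (N.primeFactors.card : ℝ) ≤ k := by rw [hkR]; linarith
      have h9 : (y : ℝ) ^ (1 / 2 + ε) = (y : ℝ) ^ ε * (y : ℝ) ^ (1 / 2 : ℝ) := by
        rw [← Real.rpow_add hy0, add_comm]
      rw [h9] at h6
      have h10 : (0 : ℝ) ≤ N.primeFactors.card * ((y : ℝ) ^ ε * (y : ℝ) ^ (1 / 2 : ℝ)) := by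
        positivity
      have h11 : (N.primeFactors.card : ℝ) * ((y : ℝ) ^ ε * (y : ℝ) ^ (1 / 2 : ℝ)) ≤
          k * ((y : ℝ) ^ ε * (y : ℝ) ^ (1 / 2 : ℝ)) :=
        mul_le_mul_of_nonneg_right h8 (by positivity)
      have h12 : log (N : ℝ) ≤ C * (k * ((y : ℝ) ^ ε * (y : ℝ) ^ (1 / 2 : ℝ))) :=
        h6.trans ((mul_le_mul_of_nonneg_right hC1C h10).trans
          (mul_le_mul_of_nonneg_left h11 (by linarith)))
      rw [hj0]
      refine h12.trans (le_of_eq ?_)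
      ring
    · rw [if_neg hj0]
      by_cases hj1 : j = 1
      · rw [if_pos hj1]
        rcases min_choice ((k : ℝ) * y) ((y : ℝ) ^ (3 / 2 : ℝ)) with hm | hm
        · rw [hm]
          exact hky
        · rw [hm]
          have h6 := (h3 N hodd hN).1 y hy
          rw [← hj, if_pos (by omega), hj1, mul_one] at h6
          have h7 := hD' _ _ hX1 hy1 h6
          refine h7.trans ?_
          have h8 : (y : ℝ) ^ (3 / 2 + ε) = (y : ℝ) ^ ε * (y : ℝ) ^ (3 / 2 : ℝ) := by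
            rw [← Real.rpow_add hy0, add_comm]
          rw [h8, hj1, mul_assoc]
          refine mul_le_mul_of_nonneg_right ?_ (by positivity)
          exact pow_le_pow_left₀ (by linarith) hDC _
      · rw [if_neg hj1]
        exact hky
  · intro hCN
    have hCN' : C4 ≤ (N : ℝ) := hC4C.trans (by exact_mod_cast hCN)
    exact (h4 N hodd hN hCN').trans (mul_le_mul_of_nonneg_right hC4C (Nat.cast_nonneg _))

end Pool.Agent.MP_f02ea4.QR
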