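import Mathlib
import Pool.Agent.Lib.MP_f02ea4_nt.QR.Simul
import Pool.Agent.Lib.MP_f02ea4_nt.Mg.G027
import Pool.Agent.Lib.MP_f02ea4_nt.QR.PowV3

/-! Many large primes, unconditionally (MP_f02ea4). -/

set_option autoImplicit false

namespace Pool.Agent.MP_f02ea4.QR

open Finset Real

theorem many_v3 (ε : ℝ) (hε : 0 < ε) : ∃ C : ℕ, 1 ≤ C ∧ ∀ N : ℕ, Odd N → Nat.Perfect N →
    (∀ y k j : ℕ, 2 ≤ y → k = (N.primeFactors.filter (· ≤ y)).card + 1 →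
      j = (N.primeFactors.filter (y < ·)).card →
      log N ≤ (C : ℝ) ^ (j + 1) * (y : ℝ) ^ ε *
        (if j = 0 then (k : ℝ) * (y : ℝ) ^ (1 / 2 : ℝ)
          else if j = 1 then min ((k : ℝ) * y) ((y : ℝ) ^ (3 / 2 : ℝ)) else (k : ℝ) * y)) ∧
    (C ≤ N → log (log N) ≤
      C * (N.primeFactors.filter (fun p : ℕ => log (N : ℝ) ^ (1 / 2 - ε) < p)).card) := by
  obtain ⟨C0, hC01, hC0⟩ := simul
  have hS : SimulC C0 := hC0
  exact powers_v3 (fun e he => many_core hS hC01 e he) ε hε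

end Pool.Agent.MP_f02ea4.QR
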