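import Mathlib

/-!
# Extrapolation data

`ι` is a finite set of points. The point `l` has integer coordinates `z l j` and the rational number
`a l / D`, which is close to `exp (w l)`, where `w l = ∑ th j * z l j`.
-/

set_option autoImplicit false

namespace Pool.Agent.MP_f02ea4.QR

open Finset Real

/-- Extrapolation data. -/
structure PD (ι : Type) (d : ℕ) where
  z : ι → Fin d → ℤ
  a : ι → ℕ
  D : ℕ
  th : Fin d → ℝ

variable {ι : Type} {d : ℕ}

/-- the linear form in the coordinates -/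
noncomputable def PD.w (P : PD ι d) (l : ι) : ℝ := ∑ j, P.th j * (P.z l j : ℝ)

/-- the monomials -/
def PD.mon (P : PD ι d) (k : Fin d → ℕ) (l : ι) : ℤ := ∏ j, P.z l j ^ k j

/-- `D ^ s` times the value at `s` of the function `∑ c_l z_l ^ k (a_l / D) ^ x` -/
def PD.Phi (P : PD ι d) [Fintype ι] (c : ι → ℤ) (k : Fin d → ℕ) (s : ℕ) : ℤ :=
  ∑ l, c l * P.mon k l * (P.a l : ℤ) ^ s

/-- the bounds of the data -/
structure PD.Bd (P : PD ι d) (Z Th Om del : ℝ) : Prop where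
  Z1 : 1 ≤ Z
  Th0 : 0 ≤ Th
  Om1 : 1 ≤ Om
  del0 : 0 ≤ del
  z_le : ∀ l j, |(P.z l j : ℝ)| ≤ Z
  th_le : ∀ j, |P.th j| ≤ Th
  a_pos : ∀ l, 0 < P.a l
  D_pos : 0 < P.D
  a_le : ∀ l, log (P.a l) ≤ Om
  D_le : log (P.D) ≤ Om
  w_le : ∀ l, |P.w l| ≤ Om
  close : ∀ l, |log (P.a l) - log P.D - P.w l| ≤ del

end Pool.Agent.MP_f02ea4.QR
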