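import Pool.Agent.Lib.MP_f02ea4_nt.MlB
import Pool.Agent.Lib.MP_f02ea4_nt.QR.PDef

/-! # The extrapolation step -/

set_option autoImplicit false

namespace Pool.Agent.MP_f02ea4.QR

open Finset Real
open Pool.Agent.Lib.MP_f02ea4_nt.Ml (hermite_exp num_step)

section
variable {P : Type} {d : ℕ}

private lemma mon_le (D : PD P d) {Z Θ Ω ε : ℝ} (hB : D.Bd Z Θ Ω ε) (p : P) (K : ℕ) (k : Fin d → ℕ)
    (hk : ∀ i, k i ≤ K) : |(D.mon k p : ℝ)| ≤ Z ^ (d * K) := by
  unfold PD.mon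
  push_cast
  rw [Finset.abs_prod]
  have h1 : ∀ i ∈ (Finset.univ : Finset (Fin d)), |(D.z p i : ℝ) ^ k i| ≤ Z ^ K := by
    intro i _
    rw [abs_pow]
    exact (pow_le_pow_left₀ (abs_nonneg _) (hB.z_le p i) _).trans (pow_le_pow_right₀ hB.Z1 (hk i))
  refine (Finset.prod_le_prod (fun i _ => abs_nonneg _) h1).trans (le_of_eq ?_)
  rw [Finset.prod_const, Finset.card_univ, Fintype.card_fin, ← pow_mul, mul_comm]

private lemma mon_succ (D : PD P d) (k : Fin d → ℕ) (i : Fin d) (p : P) :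
    D.mon (Function.update k i (k i + 1)) p = D.z p i * D.mon k p := by
  unfold PD.mon
  rw [← Finset.mul_prod_erase Finset.univ
      (fun j => D.z p j ^ Function.update k i (k i + 1) j) (Finset.mem_univ i),
    ← Finset.mul_prod_erase Finset.univ (fun j => D.z p j ^ k j) (Finset.mem_univ i),
    Function.update_self, pow_succ]
  have h1 : ∏ j ∈ Finset.univ.erase i, D.z p j ^ Function.update k i (k i + 1) j =
      ∏ j ∈ Finset.univ.erase i, D.z p j ^ k j := by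
    refine Finset.prod_congr rfl fun j hj => ?_
    rw [Function.update_of_ne (Finset.ne_of_mem_erase hj)]
  rw [h1]
  ring

variable [Fintype P]

/-- the function `∑ c_p z^k exp (x w_p)` -/
noncomputable def PD.Fn (D : PD P d) (c : P → ℤ) (k : Fin d → ℕ) (x : ℝ) : ℝ :=
  ∑ p, (c p : ℝ) * (D.mon k p : ℝ) * exp (x * D.w p)

/-- the integer `Phi` against `M^s F` -/
private lemma approx (D : PD P d) {Z Θ Ω ε : ℝ} (hB : D.Bd Z Θ Ω ε) (Cc : ℝ) (c : P → ℤ)
    (hc : ∀ p, |(c p : ℝ)| ≤ Cc) (K : ℕ) (k : Fin d → ℕ) (hk : ∀ i, k i ≤ K) (s : ℕ)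
    (hs : s * ε ≤ 1) :
    |(D.Phi c k s : ℝ) - exp (s * log D.D) * D.Fn c k s| ≤
      exp (s * log D.D) * (Fintype.card P * Cc * Z ^ (d * K) * exp (s * Ω) * (2 * s * ε)) := by
  have hval : ∀ p, ((D.a p : ℝ)) ^ s = exp (s * log D.D) * (exp (s * D.w p) *
      exp (s * (log (D.a p : ℝ) - log (D.D : ℝ) - D.w p))) := by
    intro p
    have hmp : (0 : ℝ) < D.a p := by exact_mod_cast hB.a_pos p
    rw [← exp_add, ← exp_add, ← exp_log (pow_pos hmp s), log_pow]
    congr 1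
    ring
  have hrew : (D.Phi c k s : ℝ) - exp (s * log D.D) * D.Fn c k s =
      ∑ p, exp (s * log D.D) * (((c p : ℝ) * (D.mon k p : ℝ)) * (exp (s * D.w p) *
        (exp (s * (log (D.a p : ℝ) - log (D.D : ℝ) - D.w p)) - 1))) := by
    unfold PD.Phi PD.Fn
    push_cast
    rw [Finset.mul_sum, ← Finset.sum_sub_distrib]
    refine Finset.sum_congr rfl fun p _ => ?_
    rw [hval]
    ring
  have hs0 : (0 : ℝ) ≤ s := Nat.cast_nonneg _
  have hZp : (0 : ℝ) ≤ Z ^ (d * K) := pow_nonneg (by linarith [hB.Z1]) _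
  have hterm : ∀ p : P, |exp (s * log D.D) * (((c p : ℝ) * (D.mon k p : ℝ)) * (exp (s * D.w p) *
        (exp (s * (log (D.a p : ℝ) - log (D.D : ℝ) - D.w p)) - 1)))| ≤
      exp (s * log D.D) * ((Cc * Z ^ (d * K)) * (exp (s * Ω) * (2 * (s * ε)))) := by
    intro p
    have hu : |(s : ℝ) * (log (D.a p : ℝ) - log (D.D : ℝ) - D.w p)| ≤ s * ε := by
      rw [abs_mul, abs_of_nonneg hs0]
      exact mul_le_mul_of_nonneg_left (hB.close p) hs0
    have hexp := Real.abs_exp_sub_one_le (le_trans hu hs)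
    have hew : exp (s * D.w p) ≤ exp (s * Ω) := by
      apply exp_le_exp.mpr
      exact mul_le_mul_of_nonneg_left (le_trans (le_abs_self _) (hB.w_le p)) hs0
    have hm := mon_le D hB p K k hk
    have hCc : 0 ≤ Cc := le_trans (abs_nonneg _) (hc p)
    rw [abs_mul, abs_of_pos (exp_pos _), abs_mul, abs_mul, abs_mul (exp _),
      abs_of_pos (exp_pos ((s : ℝ) * D.w p))]
    apply mul_le_mul_of_nonneg_left _ (exp_pos _).le
    apply mul_le_mul (mul_le_mul (hc p) hm (abs_nonneg _) hCc) _ (by positivity) (by positivity)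
    apply mul_le_mul hew _ (abs_nonneg _) (exp_pos _).le
    linarith
  rw [hrew]
  refine le_trans (Finset.abs_sum_le_sum_abs _ _) ?_
  refine le_trans (Finset.sum_le_sum fun p _ => hterm p) ?_
  rw [Finset.sum_const, Finset.card_univ, nsmul_eq_mul]
  apply le_of_eq
  ring

/-- the derivatives -/
private lemma deriv_fn (D : PD P d) {Z Θ Ω ε : ℝ} (hB : D.Bd Z Θ Ω ε) (c : P → ℤ) (K s : ℕ) (τ : ℝ)
    (hτ : ∀ k : Fin d → ℕ, (∀ i, k i < K) → |D.Fn c k s| ≤ τ) (μ : ℕ) :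
    ∀ k : Fin d → ℕ, (∀ i, k i + μ < K) →
      |∑ p, (c p : ℝ) * (D.mon k p : ℝ) * (D.w p ^ μ * exp (s * D.w p))| ≤ (d * Θ) ^ μ * τ := by
  induction μ with
  | zero =>
    intro k hk
    have := hτ k (by simpa using hk)
    simpa [PD.Fn] using this
  | succ μ ih =>
    intro k hk
    set T : Fin d → ℝ := fun i =>
      ∑ p : P, (c p : ℝ) * (D.mon (Function.update k i (k i + 1)) p : ℝ) *
        (D.w p ^ μ * exp (s * D.w p)) with hT
    have key : ∑ p : P, (c p : ℝ) * (D.mon k p : ℝ) * (D.w p ^ (μ + 1) * exp (s * D.w p)) =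
        ∑ i, D.th i * T i := by
      have e1 : ∀ p : P, (c p : ℝ) * (D.mon k p : ℝ) *
          (D.w p ^ (μ + 1) * exp (s * D.w p)) =
          ∑ i, D.th i * ((c p : ℝ) * (D.mon (Function.update k i (k i + 1)) p : ℝ) *
            (D.w p ^ μ * exp (s * D.w p))) := by
        intro p
        have e2 : ∀ i, (D.mon (Function.update k i (k i + 1)) p : ℝ) =
            (D.z p i : ℝ) * (D.mon k p : ℝ) := by
          intro i
          rw [mon_succ]
          push_cast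
          ring
        rw [pow_succ]
        have e3 : D.w p = ∑ i, D.th i * (D.z p i : ℝ) := rfl
        calc (c p : ℝ) * (D.mon k p : ℝ) * (D.w p ^ μ * D.w p * exp (s * D.w p))
            = ((c p : ℝ) * (D.mon k p : ℝ) * (D.w p ^ μ * exp (s * D.w p))) * D.w p := by ring
          _ = ((c p : ℝ) * (D.mon k p : ℝ) * (D.w p ^ μ * exp (s * D.w p))) *
                ∑ i, D.th i * (D.z p i : ℝ) := by rw [← e3]
          _ = _ := by
            rw [Finset.mul_sum]
            refine Finset.sum_congr rfl fun i _ => ?_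
            rw [e2]
            ring
      rw [Finset.sum_congr rfl fun p _ => e1 p, Finset.sum_comm]
      refine Finset.sum_congr rfl fun i _ => ?_
      rw [hT]
      simp only
      rw [Finset.mul_sum]
    have hTi : ∀ i, |T i| ≤ (d * Θ) ^ μ * τ := by
      intro i
      refine ih _ fun j => ?_
      have hj := hk j
      by_cases hji : j = i
      · subst hji
        rw [Function.update_self]
        omega
      · rw [Function.update_of_ne hji]
        omega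
    rw [key]
    calc |∑ i, D.th i * T i| ≤ ∑ i, |D.th i * T i| := Finset.abs_sum_le_sum_abs _ _
      _ ≤ ∑ _i : Fin d, Θ * ((d * Θ) ^ μ * τ) := by
        refine Finset.sum_le_sum fun i _ => ?_
        rw [abs_mul]
        exact mul_le_mul (hB.th_le i) (hTi i) (abs_nonneg _) hB.Th0
      _ = (d * Θ) ^ (μ + 1) * τ := by
        rw [Finset.sum_const, Finset.card_univ, Fintype.card_fin, nsmul_eq_mul]
        ring

private lemma aux_split {ι : Type*} [Fintype ι] (c M w : ι → ℝ) (S m : ℕ) (α : ℕ → ℕ → ℝ) (x : ℝ)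
    (G H A T : ℝ)
    (h1 : ∀ l, |c l * M l| ≤ G)
    (h2 : ∀ l, |exp (x * w l) - ∑ s ∈ range S, ∑ μ ∈ range m, α s μ * (w l ^ μ * exp (s * w l))| ≤ H)
    (hα : ∑ s ∈ range S, ∑ μ ∈ range m, |α s μ| ≤ A) (hT0 : 0 ≤ T) (hG : 0 ≤ G)
    (hT : ∀ s < S, ∀ μ < m, |∑ l, c l * M l * (w l ^ μ * exp (s * w l))| ≤ T) :
    |∑ l, c l * M l * exp (x * w l)| ≤ Fintype.card ι * (G * H) + A * T := by
  have hsplit : ∑ l, c l * M l * exp (x * w l) =
      ∑ l, c l * M l * (exp (x * w l) -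
        ∑ s ∈ range S, ∑ μ ∈ range m, α s μ * (w l ^ μ * exp (s * w l))) +
      ∑ s ∈ range S, ∑ μ ∈ range m, α s μ * ∑ l, c l * M l * (w l ^ μ * exp (s * w l)) := by
    have e1 : ∑ s ∈ range S, ∑ μ ∈ range m, α s μ * ∑ l, c l * M l * (w l ^ μ * exp (s * w l)) =
        ∑ l, c l * M l * ∑ s ∈ range S, ∑ μ ∈ range m, α s μ * (w l ^ μ * exp (s * w l)) := by
      have e2 : ∀ l, c l * M l * ∑ s ∈ range S, ∑ μ ∈ range m, α s μ * (w l ^ μ * exp (s * w l)) =
          ∑ s ∈ range S, ∑ μ ∈ range m, α s μ * (c l * M l * (w l ^ μ * exp (s * w l))) := by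
        intro l
        rw [Finset.mul_sum]
        refine Finset.sum_congr rfl fun s _ => ?_
        rw [Finset.mul_sum]
        refine Finset.sum_congr rfl fun μ _ => ?_
        ring
      rw [Finset.sum_congr rfl (fun l _ => e2 l)]
      symm
      refine Finset.sum_comm.trans ?_
      refine Finset.sum_congr rfl fun s _ => ?_
      refine Finset.sum_comm.trans ?_
      refine Finset.sum_congr rfl fun μ _ => ?_
      rw [Finset.mul_sum]
    rw [e1, ← Finset.sum_add_distrib]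
    refine Finset.sum_congr rfl fun l _ => ?_
    ring
  rw [hsplit]
  refine (abs_add_le _ _).trans (add_le_add ?_ ?_)
  · refine (Finset.abs_sum_le_sum_abs _ _).trans ?_
    have : ∀ l ∈ (Finset.univ : Finset ι), |c l * M l * (exp (x * w l) -
        ∑ s ∈ range S, ∑ μ ∈ range m, α s μ * (w l ^ μ * exp (s * w l)))| ≤ G * H := by
      intro l _
      rw [abs_mul]
      exact mul_le_mul (h1 l) (h2 l) (abs_nonneg _) hG
    refine (Finset.sum_le_sum this).trans ?_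
    rw [Finset.sum_const, nsmul_eq_mul, Finset.card_univ]
  · refine (Finset.abs_sum_le_sum_abs _ _).trans ?_
    have : ∀ s ∈ range S, |∑ μ ∈ range m, α s μ * ∑ l, c l * M l * (w l ^ μ * exp (s * w l))| ≤
        (∑ μ ∈ range m, |α s μ|) * T := by
      intro s hs
      refine (Finset.abs_sum_le_sum_abs _ _).trans ?_
      rw [Finset.sum_mul]
      refine Finset.sum_le_sum fun μ hμ => ?_
      rw [abs_mul]
      exact mul_le_mul_of_nonneg_left (hT s (Finset.mem_range.mp hs) μ (Finset.mem_range.mp hμ))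
        (abs_nonneg _)
    refine (Finset.sum_le_sum this).trans ?_
    rw [← Finset.sum_mul]
    exact mul_le_mul_of_nonneg_right hα hT0

/-- Hermite interpolation of `exp (x w)` -/
private lemma F_bound (D : PD P d) {Z Θ Ω ε : ℝ} (hB : D.Bd Z Θ Ω ε) (Cc : ℝ) (hCc : 0 ≤ Cc) (c : P → ℤ)
    (hc : ∀ p, |(c p : ℝ)| ≤ Cc) (K K' m S : ℕ) (hK : K' + m ≤ K) (τ : ℝ) (hτ0 : 0 ≤ τ)
    (hτ : ∀ s < S, ∀ k : Fin d → ℕ, (∀ i, k i < K) → |D.Fn c k s| ≤ τ)
    (x X : ℝ) (hX : 1 ≤ X) (hx : |x| ≤ X) (hSX : (S : ℝ) ≤ X)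
    (k : Fin d → ℕ) (hk : ∀ i, k i < K') :
    |D.Fn c k x| ≤ Fintype.card P * Cc * Z ^ (d * K) *
        ((3 * X * Ω) ^ (m * S) / (m * S).factorial * exp (3 * X * Ω)) +
      (4 * X * (m + 1)) ^ (m * S) * ((d * Θ + 1) ^ m * τ) := by
  obtain ⟨α, hα, hαw⟩ := hermite_exp S m x X hX hx hSX
  have hZp : (0 : ℝ) ≤ Z ^ (d * K) := pow_nonneg (by linarith [hB.Z1]) _
  have hΘ0 := hB.Th0
  have key := aux_split (fun p => (c p : ℝ)) (fun p => (D.mon k p : ℝ)) (fun p => D.w p) S m α x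
    (Cc * Z ^ (d * K))
    ((3 * X * Ω) ^ (m * S) / (m * S).factorial * exp (3 * X * Ω))
    ((4 * X * (m + 1)) ^ (m * S)) ((d * Θ + 1) ^ m * τ) ?_ ?_ hα (by positivity) (by positivity) ?_
  · unfold PD.Fn
    refine key.trans (le_of_eq ?_)
    ring
  · intro p
    rw [abs_mul]
    exact mul_le_mul (hc p) (mon_le D hB p K k
      (fun i => by have := hk i; omega)) (abs_nonneg _) hCc
  · intro p
    refine (hαw (D.w p)).trans ?_
    have h1 : 3 * X * |D.w p| ≤ 3 * X * Ω :=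
      mul_le_mul_of_nonneg_left (hB.w_le p) (by linarith)
    have h0 : 0 ≤ 3 * X * |D.w p| := by positivity
    have h2 : (3 * X * |D.w p|) ^ (m * S) ≤ (3 * X * Ω) ^ (m * S) :=
      pow_le_pow_left₀ h0 h1 _
    have h3 : exp (3 * X * |D.w p|) ≤ exp (3 * X * Ω) := Real.exp_le_exp.mpr h1
    have h4 : (0 : ℝ) < (m * S).factorial := by exact_mod_cast Nat.factorial_pos _
    exact mul_le_mul (div_le_div_of_nonneg_right h2 h4.le) h3 (Real.exp_pos _).le
      (div_nonneg (pow_nonneg (h0.trans h1) _) h4.le)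
  · intro s hs μ hμ
    have h1 := deriv_fn D hB c K s τ (hτ s hs) μ k (fun i => by have := hk i; omega)
    refine h1.trans ?_
    have htE : 0 ≤ (d : ℝ) * Θ := by positivity
    have h2 : ((d : ℝ) * Θ) ^ μ ≤ (d * Θ + 1) ^ m := by
      calc ((d : ℝ) * Θ) ^ μ ≤ (d * Θ + 1) ^ μ := pow_le_pow_left₀ htE (by linarith) _
        _ ≤ (d * Θ + 1) ^ m := pow_le_pow_right₀ (by linarith) (by omega)
    exact mul_le_mul_of_nonneg_right h2 hτ0

/-- THE EXTRAPOLATION STEP. -/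
private lemma step_aux (D : PD P d) {Z Θ Ω ε : ℝ} (hB : D.Bd Z Θ Ω ε) (Cc : ℝ) (hCc : 0 ≤ Cc) (c : P → ℤ)
    (hc : ∀ p, |(c p : ℝ)| ≤ Cc) (K K' m S S' : ℕ) (hK : K' + m ≤ K) (hS : 1 ≤ S)
    (hSS : S ≤ S') (hmS : 81 * (S' * Ω) ≤ m * S)
    (hC : Fintype.card P * Cc * Z ^ (d * K) ≤ exp (m * S))
    (hL2 : S' * ε ≤ 1)
    (hΛ : (4 * S' * (m + 1) : ℝ) ^ (m * S) * (d * Θ + 1) ^ m *
      (Fintype.card P * Cc * Z ^ (d * K)) * exp (2 * S' * Ω) *
        (2 * S' * ε) ≤ 1 / 4)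
    (h : ∀ s < S, ∀ k : Fin d → ℕ, (∀ i, k i < K) → D.Phi c k s = 0) :
    ∀ s < S', ∀ k : Fin d → ℕ, (∀ i, k i < K') → D.Phi c k s = 0 := by
  have hZp : (0 : ℝ) ≤ Z ^ (d * K) := pow_nonneg (by linarith [hB.Z1]) _
  have hG : 0 ≤ Fintype.card P * Cc * Z ^ (d * K) := by positivity
  have hΩ1 : 1 ≤ Ω := hB.Om1
  have hδ0 : 0 ≤ ε := hB.del0
  have hΘ0 := hB.Th0
  have hlM0 : 0 ≤ log (D.D : ℝ) := log_nonneg (by exact_mod_cast hB.D_pos)
  set G : ℝ := Fintype.card P * Cc * Z ^ (d * K) with hGdef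
  have hSR : (1 : ℝ) ≤ S := by exact_mod_cast hS
  have hSSR : (S : ℝ) ≤ S' := by exact_mod_cast hSS
  have hS'R : (1 : ℝ) ≤ S' := by linarith
  have htE : (1 : ℝ) ≤ d * Θ + 1 := by
    have : (0 : ℝ) ≤ d * Θ := by positivity
    linarith
  have hmul : ∀ s : ℕ, s ≤ S' → s * ε ≤ S' * ε := by
    intro s hs
    have : (s : ℝ) ≤ S' := by exact_mod_cast hs
    exact mul_le_mul_of_nonneg_right this hδ0
  -- the small values
  set τ : ℝ := G * exp (S * Ω) * (2 * S * ε) with hτdef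
  have hτ0 : 0 ≤ τ := by positivity
  have hτ : ∀ s < S, ∀ k : Fin d → ℕ, (∀ i, k i < K) → |D.Fn c k s| ≤ τ := by
    intro s hs k hk
    have hsS : (s : ℝ) ≤ S := by exact_mod_cast hs.le
    have h1 := approx D hB Cc c hc K k (fun i => (hk i).le) s
      (le_trans (hmul s (le_trans hs.le hSS)) hL2)
    rw [h s hs k hk, Int.cast_zero, zero_sub, abs_neg, abs_mul, abs_of_pos (exp_pos _)] at h1
    have h2 := le_of_mul_le_mul_left h1 (exp_pos _)
    refine le_trans h2 ?_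
    have e1 : exp (s * Ω) ≤ exp (S * Ω) := by
      apply exp_le_exp.mpr
      exact mul_le_mul_of_nonneg_right hsS (by linarith)
    have e2 : 2 * (s : ℝ) * ε ≤ 2 * S * ε := by
      nlinarith
    calc G * exp (s * Ω) * (2 * s * ε) ≤ G * exp (S * Ω) * (2 * s * ε) := by
          apply mul_le_mul_of_nonneg_right _ (by positivity)
          exact mul_le_mul_of_nonneg_left e1 hG
      _ ≤ G * exp (S * Ω) * (2 * S * ε) :=
          mul_le_mul_of_nonneg_left e2 (by positivity)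
  intro s' hs' k hk
  have hs'R : (s' : ℝ) ≤ S' := by exact_mod_cast hs'.le
  have hs'0 : (0 : ℝ) ≤ s' := Nat.cast_nonneg _
  have hF := F_bound D hB Cc hCc c hc K K' m S hK τ hτ0 hτ (s' : ℝ) (S' : ℝ) hS'R
    (by rw [abs_of_nonneg hs'0]; exact hs'R) hSSR k hk
  have hA := approx D hB Cc c hc K k (fun i => by have := hk i; omega) s'
    (le_trans (hmul s' hs'.le) hL2)
  rw [← hGdef] at hF
  rw [← hGdef] at hA
  have hexp : exp (s' * log D.D) ≤ exp (S' * Ω) := by
    apply exp_le_exp.mpr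
    exact mul_le_mul hs'R hB.D_le hlM0 (by linarith)
  set Q1 : ℝ := (4 * S' * (m + 1) : ℝ) ^ (m * S) with hPdef
  set Q : ℝ := (d * Θ + 1) ^ m with hQdef
  have hP1 : 1 ≤ Q1 := by
    apply one_le_pow₀
    have : (0 : ℝ) ≤ m := Nat.cast_nonneg _
    nlinarith
  have hQ1 : 1 ≤ Q := one_le_pow₀ htE
  have hbig : 0 ≤ G * exp (2 * S' * Ω) * (2 * S' * ε) := by positivity
  have hΛ' : Q1 * Q * (G * exp (2 * S' * Ω) * (2 * S' * ε)) ≤ 1 / 4 := by
    refine le_trans (le_of_eq ?_) hΛ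
    ring
  have hexp2 : exp (2 * S' * Ω) = exp (S' * Ω) * exp (S' * Ω) := by
    rw [← exp_add]; congr 1; ring
  -- first term
  have hT1 : exp (S' * Ω) * (G * ((3 * S' * Ω) ^ (m * S) / (m * S).factorial
      * exp (3 * S' * Ω))) ≤ 1 / 4 := by
    have hy : 1 ≤ (S' : ℝ) * Ω := by nlinarith
    have h1 := num_step (m * S) (S' * Ω) hy (by push_cast; exact hmS)
    have h2 : G ≤ exp ((m * S : ℕ) : ℝ) := by push_cast; exact hC
    have e3 : 3 * (S' : ℝ) * Ω = 3 * (S' * Ω) := by ring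
    rw [e3]
    calc exp (S' * Ω) * (G * ((3 * (S' * Ω)) ^ (m * S) / (m * S).factorial
          * exp (3 * (S' * Ω))))
        = G * ((3 * (S' * Ω)) ^ (m * S) / (m * S).factorial * exp (3 * (S' * Ω)))
          * exp (S' * Ω) := by ring
      _ ≤ exp ((m * S : ℕ) : ℝ) * ((3 * (S' * Ω)) ^ (m * S) / (m * S).factorial
          * exp (3 * (S' * Ω))) * exp (S' * Ω) := by
          apply mul_le_mul_of_nonneg_right _ (exp_pos _).le
          apply mul_le_mul_of_nonneg_right h2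
          positivity
      _ ≤ 1 / 4 := h1
  -- second term
  have hT2 : exp (S' * Ω) * (Q1 * (Q * τ)) ≤ 1 / 4 := by
    have e1 : exp (S * Ω) ≤ exp (S' * Ω) := by
      apply exp_le_exp.mpr
      exact mul_le_mul_of_nonneg_right hSSR (by linarith)
    have e2 : 2 * (S : ℝ) * ε ≤ 2 * S' * ε := by
      nlinarith
    have e3 : τ ≤ G * exp (S' * Ω) * (2 * S' * ε) := by
      rw [hτdef]
      apply mul_le_mul _ e2 (by positivity) (by positivity)
      exact mul_le_mul_of_nonneg_left e1 hG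
    calc exp (S' * Ω) * (Q1 * (Q * τ)) = Q1 * Q * (exp (S' * Ω) * τ) := by ring
      _ ≤ Q1 * Q * (exp (S' * Ω) * (G * exp (S' * Ω) * (2 * S' * ε))) := by
          apply mul_le_mul_of_nonneg_left _ (by positivity)
          exact mul_le_mul_of_nonneg_left e3 (exp_pos _).le
      _ = Q1 * Q * (G * exp (2 * S' * Ω) * (2 * S' * ε)) := by rw [hexp2]; ring
      _ ≤ 1 / 4 := hΛ'
  -- third term
  have hT3 : exp (S' * Ω) * (G * exp (s' * Ω) * (2 * s' * ε)) ≤ 1 / 4 := by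
    have e1 : exp (s' * Ω) ≤ exp (S' * Ω) := by
      apply exp_le_exp.mpr
      exact mul_le_mul_of_nonneg_right hs'R (by linarith)
    have e2 : 2 * (s' : ℝ) * ε ≤ 2 * S' * ε := by
      nlinarith
    have e3 : G * exp (s' * Ω) * (2 * s' * ε) ≤ G * exp (S' * Ω) * (2 * S' * ε) := by
      apply mul_le_mul _ e2 (by positivity) (by positivity)
      exact mul_le_mul_of_nonneg_left e1 hG
    have e4 : 1 ≤ Q1 * Q := one_le_mul_of_one_le_of_one_le hP1 hQ1
    calc exp (S' * Ω) * (G * exp (s' * Ω) * (2 * s' * ε))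
        ≤ exp (S' * Ω) * (G * exp (S' * Ω) * (2 * S' * ε)) :=
          mul_le_mul_of_nonneg_left e3 (exp_pos _).le
      _ = G * exp (2 * S' * Ω) * (2 * S' * ε) := by rw [hexp2]; ring
      _ ≤ Q1 * Q * (G * exp (2 * S' * Ω) * (2 * S' * ε)) := le_mul_of_one_le_left hbig e4
      _ ≤ 1 / 4 := hΛ'
  -- conclusion
  set W : ℝ := exp (s' * log D.D) with hWdef
  have hW0 : 0 < W := exp_pos _
  have hPhi : |(D.Phi c k s' : ℝ)| ≤ 3 / 4 := by
    have h1 : |(D.Phi c k s' : ℝ)| ≤ |(D.Phi c k s' : ℝ) - W * D.Fn c k s'| + |W * D.Fn c k s'| := by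
      have := abs_add_le ((D.Phi c k s' : ℝ) - W * D.Fn c k s') (W * D.Fn c k s')
      rwa [sub_add_cancel] at this
    have h2 : |W * D.Fn c k s'| = W * |D.Fn c k s'| := by
      rw [abs_mul, abs_of_pos hW0]
    have h3 : W * |D.Fn c k s'| ≤ exp (S' * Ω) * (G * ((3 * S' * Ω) ^ (m * S) / (m * S).factorial
        * exp (3 * S' * Ω)) + Q1 * (Q * τ)) := by
      apply mul_le_mul hexp hF (abs_nonneg _) (exp_pos _).le
    have h4 : W * (G * exp (s' * Ω) * (2 * s' * ε))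
        ≤ exp (S' * Ω) * (G * exp (s' * Ω) * (2 * s' * ε)) :=
      mul_le_mul_of_nonneg_right hexp (by positivity)
    rw [mul_add] at h3
    linarith
  by_contra hne
  have h1 : (1 : ℤ) ≤ |D.Phi c k s'| := Int.one_le_abs hne
  have h2 : (1 : ℝ) ≤ |(D.Phi c k s' : ℝ)| := by exact_mod_cast h1
  linarith

end

variable {ι : Type} {d : ℕ}

/-- The extrapolation from the nodes `s < S` with the derivatives `k_i < K` to the nodes `s < S'` with the
derivatives `k_i < K'`. Proof: `Ml.step` with `a_l ^ s = D ^ s * exp (s * w_l + s * (error))`. -/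
theorem PD.step [Fintype ι] (P : PD ι d) (Z Th Om del : ℝ) (hP : P.Bd Z Th Om del) (Cc : ℝ)
    (c : ι → ℤ) (hc : ∀ l, |(c l : ℝ)| ≤ Cc) (K K' m S S' : ℕ) (hK : K' + m ≤ K) (hm : 1 ≤ m)
    (hS : 1 ≤ S) (hSS : S ≤ S') (hmS : 81 * (S' * Om) ≤ m * S)
    (hC : Fintype.card ι * Cc * Z ^ (d * K) ≤ exp (m * S))
    (hdel : S' * del ≤ 1)
    (hL : (4 * S' * (m + 1) : ℝ) ^ (m * S) * (d * Th + 1) ^ m *
      (Fintype.card ι * Cc * Z ^ (d * K)) * exp (2 * S' * Om) * (2 * S' * del) ≤ 1 / 4)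
    (h : ∀ s < S, ∀ k : Fin d → ℕ, (∀ i, k i < K) → P.Phi c k s = 0) :
    ∀ s < S', ∀ k : Fin d → ℕ, (∀ i, k i < K') → P.Phi c k s = 0 := by
  rcases isEmpty_or_nonempty ι with hι | ⟨⟨l⟩⟩
  · intro s _ k _
    unfold PD.Phi
    exact Finset.sum_of_isEmpty _
  · exact step_aux P hP Cc ((abs_nonneg _).trans (hc l)) c hc K K' m S S' hK hS hSS hmS hC hdel hL h

end Pool.Agent.MP_f02ea4.QR
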